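import Pool.Agent.H749.Slic

set_option autoImplicit false
set_option linter.unusedSectionVars false
set_option linter.unusedVariables false

open CategoryTheory CategoryTheory.Limits CategoryTheory.Pretriangulated
open scoped ZeroObject

namespace Pool.Agent.H749

universe v u w t

variable {C : Type u} [Category.{v} C] [Preadditive C] [HasZeroObject C] [HasShift C ℤ]
  [∀ n : ℤ, (shiftFunctor C n).Additive] [Pretriangulated C]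
variable {k : Type w} [Field k] [Linear k C] [∀ n : ℤ, (shiftFunctor C n).Linear k]

/-! ### Duality -/

theorem IsSpherical.rank_eq {S : C} (h : IsSpherical k S) (X : C) {c d : ℤ} (hcd : c + 2 = d) :
    Module.finrank k (S⟦c⟧ ⟶ X) = Module.finrank k (X ⟶ S⟦d⟧) := by
  rw [rank_src k S X c]
  have e : X⟦-d⟧⟦(2 : ℤ)⟧ ≅ X⟦-c⟧ := sha X (by omega)
  rw [← rank_iso k (Iso.refl S) e, h.rank_dual k (X⟦-d⟧),
    rank_iso k (Iso.refl (X⟦-d⟧)) (sh0 S).symm]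
  exact rank_shift k X S (by omega)

theorem zero_of_rank {X Y : C} (hfin : Module.Finite k (X ⟶ Y))
    (h : Module.finrank k (X ⟶ Y) = 0) (f : X ⟶ Y) : f = 0 := by
  have := Module.finrank_zero_iff.1 h
  exact Subsingleton.elim _ _

theorem IsSpherical.fin_src {S : C} (h : IsSpherical k S) (X : C) (c : ℤ) :
    Module.Finite k (S⟦c⟧ ⟶ X) := by
  have h1 : Module.Finite k (S ⟶ X⟦-c⟧) := h.fin_to k _
  have e : (S ⟶ X⟦-c⟧) ≃ₗ[k] (S⟦c⟧ ⟶ X⟦(0 : ℤ)⟧) := shLin k S X (by omega)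
  exact Module.Finite.equiv (e.trans (isoLin k (Iso.refl _) (sh0 X)))

theorem IsSpherical.fin_tgt {S : C} (h : IsSpherical k S) (X : C) (c : ℤ) :
    Module.Finite k (X ⟶ S⟦c⟧) := by
  have h1 : Module.Finite k (X⟦-c⟧ ⟶ S) := h.fin _
  have e : (X ⟶ S⟦c⟧) ≃ₗ[k] (X⟦-c⟧ ⟶ S⟦(0 : ℤ)⟧) := shLin k X S (by omega)
  exact Module.Finite.equiv (e.trans (isoLin k (Iso.refl _) (sh0 S))).symm

/-- `Hom(S⟦c⟧, X) = 0` if `Hom(X, S⟦c + 2⟧) = 0` -/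
theorem IsSpherical.zero_src' {S : C} (h : IsSpherical k S) {X : C} {c d : ℤ} (hcd : c + 2 = d)
    (hz : ∀ f : X ⟶ S⟦d⟧, f = 0) (f : S⟦c⟧ ⟶ X) : f = 0 :=
  zero_of_rank (h.fin_src X c) (by rw [h.rank_eq X hcd]; exact rank_zero_of k hz) f

/-- `Hom(X, S⟦c + 2⟧) = 0` if `Hom(S⟦c⟧, X) = 0` -/
theorem IsSpherical.zero_tgt' {S : C} (h : IsSpherical k S) {X : C} {c d : ℤ} (hcd : c + 2 = d)
    (hz : ∀ f : S⟦c⟧ ⟶ X, f = 0) (f : X ⟶ S⟦d⟧) : f = 0 :=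
  zero_of_rank (h.fin_tgt X d) (by rw [← h.rank_eq X hcd]; exact rank_zero_of k hz) f

/-! ### Evaluation and t-structures -/

theorem IsEval.zero {S F W Y : C} {ev : W ⟶ F} (h : IsEval k S F W ev)
    (hz : ∀ c : ℤ, (∀ x : S⟦c⟧ ⟶ F, x = 0) ∨ ∀ y : S⟦c⟧ ⟶ Y, y = 0) (g : W ⟶ Y) : g = 0 := by
  obtain ⟨φ, h1, h2⟩ := h
  refine (h2 Y (fun c => 0)).unique (fun c x => ?_) (fun c x => comp_zero)
  change φ c x ≫ g = 0
  rcases hz c with h3 | h3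
  · rw [h3 x, map_zero, zero_comp]
  · exact h3 _

/-- `Hom(X, Y⟦-1⟧) = 0` if `Hom(X⟦1⟧, Y) = 0`, with `X` a shift. -/
theorem zero_down {S Y : C} {c d : ℤ} (hcd : c + 1 = d) (h : ∀ f : S⟦d⟧ ⟶ Y, f = 0)
    (f : S⟦c⟧ ⟶ Y⟦(-1 : ℤ)⟧) : f = 0 := by
  have h1 := h ((sha S hcd).inv ≫ f⟦(1 : ℤ)⟧' ≫ (shz Y (by norm_num : (-1 : ℤ) + 1 = 0)).hom)
  have h2 : f⟦(1 : ℤ)⟧' = 0 := by
    rw [← cancel_epi (sha S hcd).inv,
      ← cancel_mono (shz Y (by norm_num : (-1 : ℤ) + 1 = 0)).hom, Category.assoc, h1, comp_zero,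
      zero_comp]
  exact (shiftFunctor C (1 : ℤ)).map_injective (by rw [h2, Functor.map_zero])

/-- The twist of an object of the aisle. -/
theorem ampL {S : C} {T : C ≌ C} (hT : IsTwist k S T) (t : TP C) {X : C} (hX : t.L X)
    (h : ∀ c : ℤ, (∀ x : S⟦c⟧ ⟶ X, x = 0) ∨ t.L (S⟦c + 1⟧)) : t.L (T.functor.obj X) := by
  obtain ⟨W, ev, g, δ, hev, hTr⟩ := hT X
  refine t.memL fun Y hY f => ?_
  obtain ⟨r, hr⟩ : ∃ r : W⟦(1 : ℤ)⟧ ⟶ Y, f = δ ≫ r :=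
    Triangle.yoneda_exact₃ _ hTr f (t.hom hX hY _)
  have hr0 : r = 0 := by
    refine zero_sh1 (hev.zero fun c => ?_) r
    rcases h c with h1 | h1
    · exact Or.inl h1
    · exact Or.inr (zero_down rfl (t.hom h1 hY))
  rw [hr, hr0, comp_zero]

/-- An object whose twist lies in the aisle. -/
theorem ampL' {S : C} {T : C ≌ C} (hT : IsTwist k S T) (t : TP C) {G : C}
    (hG : t.L (T.functor.obj G))
    (h : ∀ c : ℤ, (∀ x : S⟦c⟧ ⟶ G, x = 0) ∨ t.L (S⟦c⟧)) : t.L G := by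
  obtain ⟨W, ev, g, δ, hev, hTr⟩ := hT G
  refine t.memL fun Y hY f => ?_
  have h1 : ev ≫ f = 0 := by
    refine hev.zero (fun c => ?_) _
    rcases h c with h1 | h1
    · exact Or.inl h1
    · exact Or.inr (t.hom h1 hY)
  obtain ⟨r, hr⟩ : ∃ r : T.functor.obj G ⟶ Y, f = g ≫ r :=
    Triangle.yoneda_exact₂ _ hTr f h1
  rw [hr, t.hom hG hY r, comp_zero]

/-- The shifts `S⟦c⟧` are in the aisle for `c > b` and in the coaisle for `c ≤ b`. -/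
structure At (t : TP C) (S : C) (b : ℤ) : Prop where
  L : ∀ c : ℤ, b < c → t.L (S⟦c⟧)
  R : ∀ c : ℤ, c ≤ b → t.R (S⟦c⟧)

theorem tens_unique {V V' : Type*} [AddCommGroup V] [Module k V] [AddCommGroup V'] [Module k V']
    (e : V ≃ₗ[k] V') {Z W W' : C} (Q : C → Prop) (hW : Q W) (hW' : Q W')
    {φ : V →ₗ[k] (Z ⟶ W)} {φ' : V' →ₗ[k] (Z ⟶ W')}
    (h : ∀ (Y : C), Q Y → ∀ ψ : V →ₗ[k] (Z ⟶ Y), ∃! g : W ⟶ Y, ∀ x, φ x ≫ g = ψ x)
    (h' : ∀ (Y : C), Q Y → ∀ ψ : V' →ₗ[k] (Z ⟶ Y), ∃! g : W' ⟶ Y, ∀ x, φ' x ≫ g = ψ x) :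
    Nonempty (W ≅ W') := by
  obtain ⟨g, hg, -⟩ := h W' hW' (φ' ∘ₗ e.toLinearMap)
  obtain ⟨g', hg', -⟩ := h' W hW (φ ∘ₗ e.symm.toLinearMap)
  refine ⟨⟨g, g', ?_, ?_⟩⟩
  · refine (h W hW φ).unique (fun x => ?_) (fun x => Category.comp_id _)
    rw [← Category.assoc, hg]
    change φ' (e x) ≫ g' = φ x
    rw [hg']
    change φ (e.symm (e x)) = φ x
    rw [LinearEquiv.symm_apply_apply]
  · refine (h' W' hW' φ').unique (fun x => ?_) (fun x => Category.comp_id _)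
    rw [← Category.assoc, hg']
    change φ (e.symm x) ≫ g = φ' x
    rw [hg]
    change φ' (e (e.symm x)) = φ' x
    rw [LinearEquiv.apply_symm_apply]

/-- `Hom(X, Y⟦-1⟧) ≃ Hom(X⟦1⟧, Y)` -/
noncomputable def upLin (k : Type w) [Field k] [Linear k C] [∀ n : ℤ, (shiftFunctor C n).Linear k]
    (X Y : C) : (X ⟶ Y⟦(-1 : ℤ)⟧) ≃ₗ[k] (X⟦(1 : ℤ)⟧ ⟶ Y) :=
  (shiftLin k X (Y⟦(-1 : ℤ)⟧) 1).trans
    (isoLin k (Iso.refl _) (shz Y (by norm_num : (-1 : ℤ) + 1 = 0)))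

theorem upLin_comp (X X' Y : C) (a : X' ⟶ X) (x : X ⟶ Y⟦(-1 : ℤ)⟧) :
    a⟦(1 : ℤ)⟧' ≫ upLin k X Y x = upLin k X' Y (a ≫ x) := by
  change a⟦(1 : ℤ)⟧' ≫ (𝟙 _ ≫ x⟦(1 : ℤ)⟧') ≫ (shz Y _).hom =
    (𝟙 _ ≫ (a ≫ x)⟦(1 : ℤ)⟧') ≫ (shz Y _).hom
  simp

/-- The part of the twist of an object of the aisle which is not in the aisle is a sum of shifts
of the spherical object. -/
theorem amp {S : C} (hS : IsSpherical k S) {T : C ≌ C} (hT : IsTwist k S T) (t : TP C) {b : ℤ}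
    (hb : At t S b) {X N R : C} (hX : t.L X) (hN : t.L N) (hR : t.R R)
    {a : N ⟶ T.functor.obj X} {p : T.functor.obj X ⟶ R} {δ : R ⟶ N⟦(1 : ℤ)⟧}
    (hTr : Triangle.mk a p δ ∈ distTriang C) : ∃ n, Pw (S⟦b⟧) R n := by
  obtain ⟨W, ev, g, h, hev, hTw⟩ := hT X
  obtain ⟨φ, h1, h2⟩ := hev
  -- the morphism `p' : W⟦1⟧ ⟶ R`
  obtain ⟨p', hp'⟩ : ∃ p' : W⟦(1 : ℤ)⟧ ⟶ R, p = h ≫ p' :=
    Triangle.yoneda_exact₃ _ hTw p (t.hom hX hR _)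
  let s : S⟦b - 1⟧⟦(1 : ℤ)⟧ ≅ S⟦b⟧ := sha S (by omega)
  let φR : (S⟦b - 1⟧ ⟶ X) →ₗ[k] (S⟦b⟧ ⟶ R) :=
    (pre k s.inv R) ∘ₗ (post k _ p') ∘ₗ (shiftLin k (S⟦b - 1⟧) W 1).toLinearMap ∘ₗ (φ (b - 1))
  have hφR : ∀ x, φR x = s.inv ≫ (φ (b - 1) x)⟦(1 : ℤ)⟧' ≫ p' := fun x => rfl
  -- the vanishing of the other components
  have hother : ∀ (Y : C), t.R Y → ∀ c : ℤ, c ≠ b - 1 → ∀ (x : S⟦c⟧ ⟶ X) (d : W ⟶ Y⟦(-1 : ℤ)⟧),
      φ c x ≫ d = 0 := by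
    intro Y hY c hc x d
    rcases lt_or_gt_of_ne hc with hc | hc
    · have hx : x = 0 := hS.zero_src' (d := c + 2) rfl
        (t.hom hX (hb.R _ (by omega))) x
      rw [hx, map_zero, zero_comp]
    · exact zero_down (d := c + 1) rfl (t.hom (hb.L _ (by omega)) hY) _
  have huniv : ∀ (Y : C), t.R Y → ∀ ψ : (S⟦b - 1⟧ ⟶ X) →ₗ[k] (S⟦b⟧ ⟶ Y),
      ∃! g : R ⟶ Y, ∀ x, φR x ≫ g = ψ x := by
    intro Y hY ψ
    let Θ : (S⟦b - 1⟧ ⟶ Y⟦(-1 : ℤ)⟧) ≃ₗ[k] (S⟦b⟧ ⟶ Y) :=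
      (upLin k (S⟦b - 1⟧) Y).trans (isoLin k s (Iso.refl Y))
    have hΘ : ∀ y, Θ y = s.inv ≫ upLin k _ Y y := fun y => by
      change (s.inv ≫ upLin k _ Y y) ≫ 𝟙 Y = _
      rw [Category.comp_id]
    obtain ⟨g₀, hg₀, -⟩ := h2 (Y⟦(-1 : ℤ)⟧)
      (Function.update (fun c => 0) (b - 1) (Θ.symm.toLinearMap ∘ₗ ψ))
    let r : W⟦(1 : ℤ)⟧ ⟶ Y := upLin k W Y g₀
    have hr : ∀ x, s.inv ≫ (φ (b - 1) x)⟦(1 : ℤ)⟧' ≫ r = ψ x := by
      intro x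
      rw [upLin_comp, ← hΘ]
      have := hg₀ (b - 1) x
      rw [Function.update_self] at this
      rw [this]
      change Θ (Θ.symm (ψ x)) = ψ x
      rw [LinearEquiv.apply_symm_apply]
    obtain ⟨g', hg'⟩ : ∃ g' : R ⟶ Y, h ≫ r = p ≫ g' :=
      Triangle.yoneda_exact₂ _ hTr (h ≫ r) (t.hom hN hY _)
    have hpr : p' ≫ g' = r := by
      refine desc_unique (rot_of_distTriang _ hTw) (G := Y) (t.hom (t.shL hX) hY) ?_
      change h ≫ p' ≫ g' = h ≫ r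
      rw [← Category.assoc, ← hp', hg']
    refine ⟨g', fun x => ?_, fun g'' hg'' => ?_⟩
    · rw [hφR, Category.assoc, Category.assoc, hpr, hr]
    · refine desc_unique hTr (t.hom (t.shL hN) hY) ?_
      rw [hp', Category.assoc, Category.assoc]
      congr 1
      rw [← sub_eq_zero]
      obtain ⟨d, hd⟩ := (upLin k W Y).surjective (p' ≫ g'' - p' ≫ g')
      have hd0 : d = 0 := by
        refine (h2 (Y⟦(-1 : ℤ)⟧) (fun c => 0)).unique (fun c x => ?_) (fun c x => comp_zero)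
        change φ c x ≫ d = 0
        by_cases hc : c = b - 1
        · subst hc
          have h3 : Θ (φ (b - 1) x ≫ d) = 0 := by
            rw [hΘ, ← upLin_comp, hd, Preadditive.comp_sub, Preadditive.comp_sub]
            have h4 := hg'' x
            rw [hφR, Category.assoc, Category.assoc] at h4
            rw [h4, hpr, hr, sub_self]
          exact (LinearEquiv.map_eq_zero_iff Θ).1 h3
        · exact hother Y hY c hc x d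
      rw [← hd, hd0, map_zero]
  have hfin : Module.Finite k (S⟦b - 1⟧ ⟶ X) := hS.fin_src X (b - 1)
  obtain ⟨W₀, φ₀, h3, h4⟩ := exists_tens (k := k) (S⟦b⟧) (Module.finrank k (S⟦b - 1⟧ ⟶ X))
  obtain ⟨e⟩ := tens_unique (Module.finBasis k (S⟦b - 1⟧ ⟶ X)).equivFun t.R hR
    (t.PwR h4 (hb.R b le_rfl)) huniv (fun Y _ => h3 Y)
  exact ⟨_, h4.iso e.symm⟩

end Pool.Agent.H749
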