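import Pool.Agent.H749.Amp

set_option autoImplicit false
set_option linter.unusedSectionVars false
set_option linter.unusedVariables false

open CategoryTheory CategoryTheory.Limits CategoryTheory.Pretriangulated
open scoped ZeroObject

namespace Pool.Agent.H749

universe v u w t

variable {C : Type u} [Category.{v} C] [Preadditive C] [HasZeroObject C] [HasShift C ℤ]
  [∀ n : ℤ, (shiftFunctor C n).Additive] [Pretriangulated C]
variable {k : Type w} [Field k] [Linear k C] [∀ n : ℤ, (shiftFunctor C n).Linear k]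

theorem Pw.op {f : C → C} (hf : Op k f) {X M : C} {n : ℕ} (h : Pw X M n) : Pw (f X) (f M) n := by
  induction h with
  | zero M hM => exact Pw.zero _ (hf.zero hM)
  | ext M' M n _ h2 ih => exact Pw.ext _ _ _ ih (hf.tri h2)

/-- A non-zero morphism to a sum of copies of `Z` has a non-zero component. -/
theorem Pw.split {Z M : C} {n : ℕ} (h : Pw Z M n) (hZ : ∀ f : Z⟦(-1 : ℤ)⟧ ⟶ Z, f = 0)
    (x : Z ⟶ M) (hx : x ≠ 0) : ∃ z : M ⟶ Z, x ≫ z ≠ 0 := by
  induction h with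
  | zero M hM => exact absurd (hM.eq_of_tgt x 0) hx
  | ext M' M n _ h2 ih =>
    obtain ⟨a, b, c, hT⟩ := h2
    by_cases hb : x ≫ b = 0
    · obtain ⟨x', hx'⟩ : ∃ x' : Z ⟶ M', x = x' ≫ a := Triangle.coyoneda_exact₂ _ hT x hb
      obtain ⟨z', hz'⟩ := ih x' (by rintro rfl; rw [zero_comp] at hx'; exact hx hx')
      obtain ⟨z, hz⟩ := desc_mid hT hZ z'
      exact ⟨z, by rw [hx', Category.assoc, hz]; exact hz'⟩
    · exact ⟨b, hb⟩

/-- A non-zero morphism from a sum of copies of `Z` has a non-zero component. -/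
theorem PwL.split {Z M : C} {n : ℕ} (h : PwL Z M n) (hZ : ∀ f : Z ⟶ Z⟦(1 : ℤ)⟧, f = 0)
    (z : M ⟶ Z) (hz : z ≠ 0) : ∃ x : Z ⟶ M, x ≫ z ≠ 0 := by
  induction h with
  | zero M hM => exact absurd (hM.eq_of_src z 0) hz
  | ext M' M n _ h2 ih =>
    obtain ⟨a, b, c, hT⟩ := h2
    by_cases ha : a ≫ z = 0
    · obtain ⟨z', hz'⟩ : ∃ z' : M' ⟶ Z, z = b ≫ z' := Triangle.yoneda_exact₂ _ hT z ha
      obtain ⟨x', hx'⟩ := ih z' (by rintro rfl; rw [comp_zero] at hz'; exact hz hz')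
      obtain ⟨x, hx⟩ := lift_mid hT hZ x'
      exact ⟨x, by rw [hz', ← Category.assoc, hx]; exact hx'⟩
    · exact ⟨a, ha⟩

theorem Pw.to_zero {Z M Y : C} {n : ℕ} (h : Pw Z M n) (hY : ∀ f : Y ⟶ Z, f = 0) (f : Y ⟶ M) :
    f = 0 := by
  induction h with
  | zero M hM => exact hM.eq_of_tgt f 0
  | ext M' M n _ h2 ih => exact h2.to_mid ih hY f

theorem Pw.from_zero {Z M Y : C} {n : ℕ} (h : Pw Z M n) (hY : ∀ f : Z ⟶ Y, f = 0) (f : M ⟶ Y) :
    f = 0 := by
  induction h with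
  | zero M hM => exact hM.eq_of_src f 0
  | ext M' M n _ h2 ih => exact h2.from_mid ih hY f

/-- morphisms between shifts of a spherical object -/
theorem IsSpherical.sh_zero {S : C} (hS : IsSpherical k S) {a b : ℤ} (h1 : b - a ≠ 0)
    (h2 : b - a ≠ 2) (f : S⟦a⟧ ⟶ S⟦b⟧) : f = 0 :=
  zero_shift k S S (c := b - a) (by ring) (hS.zero _ h1 h2) f

theorem IsSpherical.sh_isIso {S : C} (hS : IsSpherical k S) {a : ℤ} (f : S⟦a⟧ ⟶ S⟦a⟧)
    (hf : f ≠ 0) : IsIso f := by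
  obtain ⟨g, rfl⟩ := (shiftFunctor C a).map_surjective f
  have hg : g ≠ 0 := by
    rintro rfl
    exact hf (Functor.map_zero _ _ _)
  have := hS.isIso k hg
  infer_instance

section

variable [IsTriangulated C]
variable {S : C} (hS : IsSpherical k S) {T : C ≌ C} (hT : IsTwist k S T)
variable [T.functor.CommShift ℤ] [T.functor.IsTriangulated] [T.functor.Additive]
  [T.functor.Linear k]

include hS hT

theorem twist_shift {a b : ℤ} (h : a = b + 1) : Nonempty (T.functor.obj (S⟦a⟧) ≅ S⟦b⟧) := by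
  obtain ⟨e⟩ := hT.self hS
  obtain ⟨e'⟩ := (opF (k := k) T).shift S a
  exact ⟨e' ≪≫ (shiftFunctor C a).mapIso e ≪≫ sha S (by omega)⟩

theorem twist_inv_shift {a b : ℤ} (h : a = b + 1) : Nonempty (T.inverse.obj (S⟦b⟧) ≅ S⟦a⟧) := by
  obtain ⟨e⟩ := twist_shift hS hT h
  exact ⟨T.inverse.mapIso e.symm ≪≫ (T.unitIso.app (S⟦a⟧)).symm⟩

/-- the dual of `amp` -/
theorem ampR (t : TP C) {b : ℤ} (hb : At t S b) {G N R : C} (hG : t.R (T.functor.obj G))
    (hN : t.L N) (hR : t.R R) {a : N ⟶ G} {p : G ⟶ R} {δ : R ⟶ N⟦(1 : ℤ)⟧}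
    (hTr : Triangle.mk a p δ ∈ distTriang C) : ∃ n, Pw (S⟦b + 1⟧) N n := by
  have hf := opF (k := k) T
  have hTri : Tri N G R := ⟨_, _, _, hTr⟩
  -- `(T R)⟦-1⟧` is in the coaisle
  have h1 : t.R ((T.functor.obj R)⟦(-1 : ℤ)⟧) := by
    refine t.memR fun X hX f => ?_
    have h2 : t.L (T.inverse.obj (X⟦(1 : ℤ)⟧)) := by
      refine ampL' hT t (t.isoL (t.shL hX) (T.counitIso.app _).symm) fun c => ?_
      by_cases hc : b < c
      · exact Or.inr (hb.L c hc)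
      · refine Or.inl fun x => ?_
        have h3 : ∀ y : S⟦c - 2⟧ ⟶ X, y = 0 :=
          fun y => hS.zero_src' (d := c) (by omega) (t.hom hX (hb.R c (by omega))) y
        obtain ⟨e⟩ := twist_shift hS hT (show c = (c - 1) + 1 by omega)
        have h4 : ∀ y : S⟦c - 1⟧ ⟶ X⟦(1 : ℤ)⟧, y = 0 := by
          intro y
          have e1 : X⟦(1 : ℤ)⟧⟦(-1 : ℤ)⟧ ≅ X := shz X (by norm_num)
          have h5 : ∀ z : S⟦c - 1⟧⟦(-1 : ℤ)⟧ ⟶ X⟦(1 : ℤ)⟧⟦(-1 : ℤ)⟧, z = 0 := by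
            intro z
            have h6 := h3 ((sha S (show c - 1 + -1 = c - 2 by omega)).inv ≫ z ≫ e1.hom)
            rw [← cancel_epi (sha S (show c - 1 + -1 = c - 2 by omega)).inv,
              ← cancel_mono e1.hom, Category.assoc, h6, comp_zero, zero_comp]
          exact (shiftFunctor C (-1 : ℤ)).map_injective (by rw [h5 (y⟦(-1 : ℤ)⟧'), Functor.map_zero])
        have h6 := h4 (e.inv ≫ T.functor.map x ≫ (T.counitIso.app (X⟦(1 : ℤ)⟧)).hom)
        have h7 : T.functor.map x = 0 := by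
          rw [← cancel_epi e.inv, ← cancel_mono (T.counitIso.app (X⟦(1 : ℤ)⟧)).hom,
            Category.assoc, h6, comp_zero, zero_comp]
        exact T.functor.map_injective (by rw [h7, Functor.map_zero])
    have h8 : ∀ y : X⟦(1 : ℤ)⟧ ⟶ T.functor.obj R, y = 0 := by
      intro y
      obtain ⟨y', hy'⟩ := T.functor.map_surjective ((T.counitIso.app (X⟦(1 : ℤ)⟧)).hom ≫ y)
      have h9 : y' = 0 := t.hom h2 hR y'
      rw [← cancel_epi (T.counitIso.app (X⟦(1 : ℤ)⟧)).hom, ← hy', h9, Functor.map_zero, comp_zero]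
    have e1 : (T.functor.obj R)⟦(-1 : ℤ)⟧⟦(1 : ℤ)⟧ ≅ T.functor.obj R := shz _ (by norm_num)
    have h9 : f⟦(1 : ℤ)⟧' = 0 := by
      rw [← cancel_mono e1.hom, h8 (f⟦(1 : ℤ)⟧' ≫ e1.hom), zero_comp]
    exact (shiftFunctor C (1 : ℤ)).map_injective (by rw [h9, Functor.map_zero])
  have h2 : t.R (T.functor.obj N) := t.extR h1 hG (hf.tri hTri).invRot
  -- the triangle `0 ⟶ T N ⟶ T N`
  have h3 : Triangle.mk (0 : (0 : C) ⟶ T.functor.obj N) (𝟙 (T.functor.obj N))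
      (0 : T.functor.obj N ⟶ (0 : C)⟦(1 : ℤ)⟧) ∈ distTriang C := by
    rw [Triangle.distinguished_iff_of_isZero₁ _ (isZero_zero C)]
    exact inferInstanceAs (IsIso (𝟙 (T.functor.obj N)))
  obtain ⟨n, hn⟩ := amp hS hT t hb hN (t.zeroL (isZero_zero C)) h2 h3
  have h4 := hn.op (opI (k := k) T)
  obtain ⟨e⟩ := twist_inv_shift hS hT (a := b + 1) (b := b) rfl
  exact ⟨n, (h4.base e).iso (T.unitIso.app N).symm⟩

end

end Pool.Agent.H749
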