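import Pool.Agent.H749.Fil

set_option autoImplicit false
set_option linter.unusedSectionVars false
set_option linter.unusedVariables false

open CategoryTheory CategoryTheory.Limits CategoryTheory.Pretriangulated
open scoped ZeroObject

namespace Pool.Agent.H749

universe v u w t

section

variable {C : Type u} [Category.{v} C] [Preadditive C] [HasZeroObject C] [HasShift C ℤ]
  [∀ n : ℤ, (shiftFunctor C n).Additive] [Pretriangulated C]
variable (k : Type w) [Field k] [Linear k C] [∀ n : ℤ, (shiftFunctor C n).Linear k]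

/-- A 2-spherical object: the graded algebra `Hom(S, S⟦m⟧)` is that of the two-sphere and
`Hom(S, F⟦2⟧)` is dual to the finite dimensional space `Hom(F, S)` for every object `F`. -/
structure IsSpherical (S : C) : Prop where
  fin : ∀ F : C, Module.Finite k (F ⟶ S)
  dual : ∀ F : C, Nonempty ((S ⟶ F⟦(2 : ℤ)⟧) ≃ₗ[k] Module.Dual k (F ⟶ S))
  self : Module.finrank k (S ⟶ S) = 1
  zero : ∀ m : ℤ, m ≠ 0 → m ≠ 2 → ∀ f : S ⟶ S⟦m⟧, f = 0

variable {I : Type t}

/-- A family of 2-spherical objects between any two of which all morphisms have degree one. -/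
structure Conf (S : I → C) : Prop where
  sph : ∀ i, IsSpherical k (S i)
  deg : ∀ i j, i ≠ j → ∀ m : ℤ, m ≠ 1 → ∀ f : S i ⟶ (S j)⟦m⟧, f = 0

/-- The dimension of `Hom(S i, S j⟦1⟧)`. -/
noncomputable def ee (S : I → C) (i j : I) : ℕ := Module.finrank k (S i ⟶ (S j)⟦(1 : ℤ)⟧)

/-- The number `∑ j, n j * ee i j`. -/
noncomputable def En (S : I → C) (i : I) (n : I →₀ ℕ) : ℕ := n.sum fun j a => a * ee k S i j

theorem En_zero (S : I → C) (i : I) : En k S i 0 = 0 := Finsupp.sum_zero_index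

theorem En_add (S : I → C) (i : I) (m n : I →₀ ℕ) : En k S i (m + n) = En k S i m + En k S i n :=
  Finsupp.sum_add_index' (fun j => Nat.zero_mul _) (fun j a b => Nat.add_mul _ _ _)

theorem En_single (S : I → C) (i j : I) (a : ℕ) : En k S i (Finsupp.single j a) = a * ee k S i j :=
  Finsupp.sum_single_index (Nat.zero_mul _)

theorem rank_shift (X Y : C) {a b c : ℤ} (h : a + c = b) :
    Module.finrank k (X⟦a⟧ ⟶ Y⟦b⟧) = Module.finrank k (X ⟶ Y⟦c⟧) :=
  (shLin k X Y h).finrank_eq.symm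

theorem rank_iso {X X' Y Y' : C} (e : X ≅ X') (f : Y ≅ Y') :
    Module.finrank k (X ⟶ Y) = Module.finrank k (X' ⟶ Y') :=
  (isoLin k e f).finrank_eq

theorem IsSpherical.rank_dual {S : C} (h : IsSpherical k S) (F : C) :
    Module.finrank k (S ⟶ F⟦(2 : ℤ)⟧) = Module.finrank k (F ⟶ S) := by
  obtain ⟨e⟩ := h.dual F
  have := h.fin F
  rw [e.finrank_eq, Subspace.dual_finrank_eq]

theorem IsSpherical.fin_to {S : C} (h : IsSpherical k S) (F : C) : Module.Finite k (S ⟶ F) := by
  obtain ⟨e⟩ := h.dual (F⟦(-2 : ℤ)⟧)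
  have := h.fin (F⟦(-2 : ℤ)⟧)
  have h2 : Module.Finite k (S ⟶ F⟦(-2 : ℤ)⟧⟦(2 : ℤ)⟧) := Module.Finite.equiv e.symm
  have e2 : F⟦(-2 : ℤ)⟧⟦(2 : ℤ)⟧ ≅ F := shz F (by norm_num)
  exact Module.Finite.equiv (isoLin k (Iso.refl S) e2)

theorem IsSpherical.not_isZero {S : C} (h : IsSpherical k S) : ¬ IsZero S := by
  intro hz
  have h1 := rank_zero_of k (fun f : S ⟶ S => hz.eq_of_src f 0)
  rw [h.self] at h1
  exact one_ne_zero h1

theorem IsSpherical.isIso {S : C} (h : IsSpherical k S) {f : S ⟶ S} (hf : f ≠ 0) : IsIso f := by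
  have hid : (𝟙 S) ≠ 0 := fun h0 => h.not_isZero k ((IsZero.iff_id_eq_zero S).2 h0)
  obtain ⟨c, hc⟩ := (finrank_eq_one_iff_of_nonzero' (𝟙 S) hid).1 h.self f
  have hc0 : c ≠ 0 := by
    rintro rfl
    rw [zero_smul] at hc
    exact hf hc.symm
  refine ⟨c⁻¹ • 𝟙 S, ?_, ?_⟩
  · rw [← hc, Linear.smul_comp, Category.id_comp, smul_smul, mul_inv_cancel₀ hc0, one_smul]
  · rw [← hc, Linear.smul_comp, Category.id_comp, smul_smul, inv_mul_cancel₀ hc0, one_smul]

variable {k}
variable {S : I → C} (hS : Conf k S)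
include hS

theorem Conf.neg (i j : I) (m : ℤ) (hm : m < 0) (f : S i ⟶ (S j)⟦m⟧) : f = 0 := by
  by_cases h : i = j
  · subst h
    exact (hS.sph i).zero m (by omega) (by omega) f
  · exact hS.deg i j h m (by omega) f

theorem Conf.big (i j : I) (m : ℤ) (hm : 2 < m) (f : S i ⟶ (S j)⟦m⟧) : f = 0 := by
  by_cases h : i = j
  · subst h
    exact (hS.sph i).zero m (by omega) (by omega) f
  · exact hS.deg i j h m (by omega) f

theorem Conf.orth (i j : I) (h : i ≠ j) (f : S i ⟶ S j) : f = 0 := by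
  have h2 := hS.deg i j h 0 (by omega) (f ≫ (sh0 (S j)).inv)
  rw [← cancel_mono (sh0 (S j)).inv, h2, zero_comp]

theorem Conf.ee_self (i : I) : ee k S i i = 0 :=
  rank_zero_of k ((hS.sph i).zero 1 (by omega) (by omega))

theorem Conf.ee_comm (i j : I) : ee k S i j = ee k S j i := by
  have h1 := (hS.sph i).rank_dual k ((S j)⟦(-1 : ℤ)⟧)
  have h2 : Module.finrank k (S i ⟶ (S j)⟦(-1 : ℤ)⟧⟦(2 : ℤ)⟧) = ee k S i j :=
    rank_iso k (Iso.refl _) (sha (S j) (by norm_num))
  have h3 : Module.finrank k ((S j)⟦(-1 : ℤ)⟧ ⟶ S i) = ee k S j i := by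
    rw [rank_iso k (Iso.refl ((S j)⟦(-1 : ℤ)⟧)) (sh0 (S i)).symm]
    exact rank_shift k (S j) (S i) (by norm_num)
  rw [← h2, h1, h3]

theorem Conf.isIso {i j : I} {f : S i ⟶ S j} (hf : f ≠ 0) : i = j ∧ IsIso f := by
  by_cases h : i = j
  · subst h
    exact ⟨rfl, (hS.sph i).isIso k hf⟩
  · exact absurd (hS.orth i j h f) hf

theorem Conf.nice (i : I) {M : C} {n : I →₀ ℕ} (hM : Fil S M n) : Nice k (S i) M where
  fin q := (hS.sph i).fin_to k _
  bdd := by
    refine ⟨2, fun q hq g => ?_⟩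
    refine hM.to_zero q (fun j f => ?_) g
    rcases hq with hq | hq
    · exact hS.neg i j q (by omega) f
    · exact hS.big i j q (by omega) f

theorem Conf.chi_eq (i : I) {M : C} {n : I →₀ ℕ} (hM : Fil S M n) :
    chi k (S i) M = (Module.finrank k (S i ⟶ M⟦(0 : ℤ)⟧) : ℤ) -
      Module.finrank k (S i ⟶ M⟦(1 : ℤ)⟧) + Module.finrank k (S i ⟶ M⟦(2 : ℤ)⟧) := by
  have hz : ∀ q : ℤ, q < 0 ∨ 2 < q → ∀ g : S i ⟶ M⟦q⟧, g = 0 := by
    intro q hq g
    refine hM.to_zero q (fun j f => ?_) g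
    rcases hq with hq | hq
    · exact hS.neg i j q (by omega) f
    · exact hS.big i j q (by omega) f
  rw [chi_eq_sum k 2 (fun q hq => hz q (by omega))]
  have h1 : Finset.Icc (-2 : ℤ) 2 = {-2, -1, 0, 1, 2} := by decide
  rw [h1]
  rw [Finset.sum_insert (by decide), Finset.sum_insert (by decide), Finset.sum_insert (by decide),
    Finset.sum_insert (by decide), Finset.sum_singleton]
  rw [rank_zero_of k (hz (-2) (by omega)), rank_zero_of k (hz (-1) (by omega))]
  have h2 : ((2 : ℤ).negOnePow : ℤ) = 1 := by decide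
  simp [h2]
  ring

theorem Conf.chi_fil (i : I) {M : C} {n : I →₀ ℕ} (hM : Fil S M n) :
    chi k (S i) M = 2 * (n i : ℤ) - En k S i n := by
  classical
  induction hM with
  | zero M hM =>
    rw [hS.chi_eq i (Fil.zero M hM), En_zero]
    rw [rank_zero_of k (fun f => ((shiftFunctor C (0 : ℤ)).map_isZero hM).eq_of_tgt f 0),
      rank_zero_of k (fun f => ((shiftFunctor C (1 : ℤ)).map_isZero hM).eq_of_tgt f 0),
      rank_zero_of k (fun f => ((shiftFunctor C (2 : ℤ)).map_isZero hM).eq_of_tgt f 0)]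
    simp
  | ext M' M j n h1 h2 ih =>
    have hN := hS.nice i (Fil.single (S := S) j)
    have hM := hS.nice i (Fil.ext _ _ _ _ h1 h2)
    have hM' := hS.nice i h1
    obtain ⟨a, b, c, hT⟩ := h2
    have h3 := chi_add k hT hM' hM hN
    have h4 : chi k (S i) M = chi k (S i) M' + chi k (S i) (S j) := h3
    have h5 : chi k (S i) (S j) = 2 * ((Finsupp.single j 1 : I →₀ ℕ) i : ℤ) - ee k S i j := by
      rw [hS.chi_eq i (Fil.single j)]
      rw [rank_iso k (Iso.refl (S i)) (sh0 (S j)), (hS.sph i).rank_dual k (S j)]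
      by_cases h : i = j
      · subst h
        rw [(hS.sph i).self, Finsupp.single_eq_same]
        unfold ee
        push_cast
        ring
      · rw [Finsupp.single_eq_of_ne h, rank_zero_of k (hS.orth i j h),
          rank_zero_of k (hS.orth j i (Ne.symm h))]
        unfold ee
        push_cast
        ring
    rw [h4, ih, h5, En_add, En_single, Finsupp.add_apply]
    push_cast
    ring

/-- The basic inequality, a consequence of duality and of the Euler form. -/
theorem Conf.two_le (i : I) {M : C} {n : I →₀ ℕ} (hM : Fil S M n) :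
    2 * n i ≤ En k S i n + Module.finrank k (S i ⟶ M) + Module.finrank k (M ⟶ S i) := by
  have h1 := hS.chi_fil i hM
  rw [hS.chi_eq i hM, rank_iso k (Iso.refl (S i)) (sh0 M), (hS.sph i).rank_dual k M] at h1
  omega

theorem Conf.to_le (i : I) {M : C} {n : I →₀ ℕ} (hM : Fil S M n) :
    Module.finrank k (S i ⟶ M) ≤ n i := by
  classical
  induction hM with
  | zero M hM => rw [rank_zero_of k (fun f => hM.eq_of_tgt f 0)]; exact Nat.zero_le _
  | ext M' M j n h1 h2 ih =>
    have h3 := h2.to_rank k (S := S i) ((hS.sph i).fin_to k _) ((hS.sph i).fin_to k _)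
    have h4 : Module.finrank k (S i ⟶ S j) = (Finsupp.single j 1 : I →₀ ℕ) i := by
      by_cases h : i = j
      · subst h
        rw [(hS.sph i).self, Finsupp.single_eq_same]
      · rw [Finsupp.single_eq_of_ne h, rank_zero_of k (hS.orth i j h)]
    rw [Finsupp.add_apply]
    omega

theorem Conf.from_le (i : I) {M : C} {n : I →₀ ℕ} (hM : Fil S M n) :
    Module.finrank k (M ⟶ S i) ≤ n i := by
  classical
  induction hM with
  | zero M hM => rw [rank_zero_of k (fun f => hM.eq_of_src f 0)]; exact Nat.zero_le _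
  | ext M' M j n h1 h2 ih =>
    have h3 := h2.from_rank k (S := S i) ((hS.sph i).fin _) ((hS.sph i).fin _)
    have h4 : Module.finrank k (S j ⟶ S i) = (Finsupp.single j 1 : I →₀ ℕ) i := by
      by_cases h : i = j
      · subst h
        rw [(hS.sph i).self, Finsupp.single_eq_same]
      · rw [Finsupp.single_eq_of_ne h, rank_zero_of k (hS.orth j i (Ne.symm h))]
    rw [Finsupp.add_apply]
    omega

end

end Pool.Agent.H749
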