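import Pool.Agent.H749.Word

set_option autoImplicit false
set_option linter.unusedSectionVars false
set_option linter.unusedVariables false

open CategoryTheory CategoryTheory.Limits CategoryTheory.Pretriangulated
open scoped ZeroObject

namespace Pool.Agent.H749

universe v u w t

variable {C : Type u} [Category.{v} C] [Preadditive C] [HasZeroObject C] [HasShift C ℤ]
  [∀ n : ℤ, (shiftFunctor C n).Additive] [Pretriangulated C]
variable {k : Type w} [Field k] [Linear k C] [∀ n : ℤ, (shiftFunctor C n).Linear k]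
variable {I : Type t} {S : I → C}

/-- The isomorphism class of an object. -/
def cl (F : C) : Quotient (isIsomorphicSetoid C) := Quotient.mk (isIsomorphicSetoid C) F

theorem cl_eq {F G : C} : cl F = cl G ↔ Nonempty (F ≅ G) := Quotient.eq

/-- A permutation of the isomorphism classes which is given on objects by a twist along `S i`,
with inverse given by an inverse twist. -/
structure PermTw (k : Type w) [Field k] [Linear k C] [∀ n : ℤ, (shiftFunctor C n).Linear k]
    (S : I → C) (i : I) (P : Equiv.Perm (Quotient (isIsomorphicSetoid C))) : Prop where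
  ex : ∃ f g : C → C, Op k f ∧ Plus k S i f ∧ Op k g ∧ Minus k S i g ∧
    (∀ F, P (cl F) = cl (f F)) ∧ (∀ F, P⁻¹ (cl F) = cl (g F))

theorem pow_cl {P : Equiv.Perm (Quotient (isIsomorphicSetoid C))} {f : C → C}
    (h : ∀ F, P (cl F) = cl (f F)) (K : ℕ) (F : C) : (P ^ K) (cl F) = cl (f^[K] F) := by
  induction K with
  | zero => rfl
  | succ K ih => rw [pow_succ', Equiv.Perm.mul_apply, ih, h, Function.iterate_succ_apply']

variable (hS : Conf k S)

section

variable [IsTriangulated C]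

include hS

theorem Conf.zpowP {i : I} {P : Equiv.Perm (Quotient (isIsomorphicSetoid C))}
    (hP : PermTw k S i P) {b : ℤ} {F : C} {n : I →₀ ℕ} {s t : ℕ} (h : Tow k S i b F n s t)
    (κ : ℤ) :
    ∃ (F' : C) (b' : ℤ) (n' : I →₀ ℕ) (s' t' : ℕ), (P ^ κ) (cl F) = cl F' ∧
      Tow k S i b' F' n' s' t' ∧ (∀ l, l ≠ i → n' l = n l) ∧
      (n i : ℤ) + κ.natAbs * ((En k S i n : ℤ) - 2 * n i) ≤ n' i ∧
      (En k S i n = 0 → n i ≤ n' i) := by
  obtain ⟨f, g, hf, hf', hg, hg', h1, h2⟩ := hP.ex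
  rcases Int.natAbs_eq κ with hκ | hκ
  · obtain ⟨b', n', s', t', h3, h4, h5, h6, -⟩ := hS.powPlus hf hf' h κ.natAbs
    refine ⟨_, b', n', s', t', ?_, h3, h4, h5, h6⟩
    conv_lhs => rw [hκ]
    rw [zpow_natCast, pow_cl h1]
  · obtain ⟨b', n', s', t', h3, h4, h5, h6, -⟩ := hS.powMinus hg hg' h κ.natAbs
    refine ⟨_, b', n', s', t', ?_, h3, h4, h5, h6⟩
    conv_lhs => rw [hκ]
    rw [zpow_neg, zpow_natCast, ← inv_pow, pow_cl h2]

end

variable (k S)

/-- The possible states of a vertex after a word. -/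
def Stat (p : I → ℝ) (L : List (I × ℤ)) (n : I →₀ ℕ) (i : I) : Prop :=
  ((∃ (A : List (I × ℤ)) (κ : ℤ) (B : List (I × ℤ)), L = A ++ (i, κ) :: B ∧
      ∀ x ∈ A, x.1 ≠ i ∧ ee k S i x.1 = 0) ∧ p i * En k S i n ≤ n i) ∨
    (∃ j, ee k S i j ≠ 0 ∧ p j * (ee k S i j : ℝ) ^ 2 * n i ≤ En k S i n) ∨
    (n i = 0 ∨ En k S i n = 0)

/-- The condition on the exponents. -/
structure Adm (N : I → ℕ) (p : I → ℝ) : Prop where
  pos : ∀ i, 0 < p i
  one : ∀ i, 1 ≤ N i
  two : ∀ i j, ee k S i j ≠ 0 → 2 ≤ p j * (ee k S i j : ℝ) ^ 2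
  ineq : ∀ i j, ee k S i j ≠ 0 → p i * (p j * (ee k S i j : ℝ) ^ 2) + (2 * N i - 1) ≤
    N i * (p j * (ee k S i j : ℝ) ^ 2)

variable {k S}

theorem En_ge (i j : I) (n : I →₀ ℕ) : n j * ee k S i j ≤ En k S i n := by
  classical
  have h : n = Finsupp.single j (n j) + n.erase j := (Finsupp.single_add_erase j n).symm
  conv_rhs => rw [h]
  rw [En_add, En_single]
  exact Nat.le_add_right _ _

theorem En_congr' {i l : I} (he : ee k S l i = 0) {n n' : I →₀ ℕ} (hl : ∀ l, l ≠ i → n' l = n l) :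
    En k S l n' = En k S l n := by
  classical
  have hh : ∀ m : I →₀ ℕ, En k S l m = En k S l (m.erase i) := by
    intro m
    conv_lhs => rw [← Finsupp.single_add_erase i m]
    rw [En_add, En_single, he, Nat.mul_zero, Nat.zero_add]
  rw [hh n', hh n]
  congr 1
  ext j
  by_cases hli : j = i
  · subst hli; simp
  · rw [Finsupp.erase_ne hli, Finsupp.erase_ne hli, hl j hli]

theorem exists_ee_ne {i : I} {n : I →₀ ℕ} (h : En k S i n ≠ 0) : ∃ j, ee k S i j ≠ 0 := by
  by_contra hcon
  push Not at hcon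
  apply h
  unfold En
  refine Finset.sum_eq_zero fun j _ => ?_
  change n j * ee k S i j = 0
  rw [hcon j, Nat.mul_zero]

include hS

theorem Conf.stat_step {N : I → ℕ} {p : I → ℝ} (hA : Adm k S N p) {L : List (I × ℤ)} {i : I}
    {κ : ℤ} (hκ : κ ≠ 0) (hred : ¬ ∃ (A : List (I × ℤ)) (κ' : ℤ) (B : List (I × ℤ)),
      L = A ++ (i, κ') :: B ∧ ∀ x ∈ A, x.1 ≠ i ∧ ee k S i x.1 = 0)
    {n n' : I →₀ ℕ} (hst : ∀ l, Stat k S p L n l) (hl : ∀ l, l ≠ i → n' l = n l)
    (hg : (n i : ℤ) + (N i * κ).natAbs * ((En k S i n : ℤ) - 2 * n i) ≤ n' i)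
    (h0 : En k S i n = 0 → n i ≤ n' i) :
    (∀ l, Stat k S p ((i, κ) :: L) n' l) ∧ (0 < n i → n i ≤ n' i) ∧
      p i * En k S i n' ≤ n' i := by
  have hEi : En k S i n' = En k S i n := hS.En_congr hl
  have hK : (N i : ℤ) ≤ (N i * κ).natAbs := by
    rw [Int.natAbs_mul, Int.natAbs_natCast]
    have : 1 ≤ κ.natAbs := Int.natAbs_pos.2 hκ
    exact_mod_cast Nat.le_mul_of_pos_right _ this
  have hN1 := hA.one i
  -- the vertex `i`
  have main : p i * En k S i n' ≤ n' i ∧ (0 < n i → n i ≤ n' i) := by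
    rw [hEi]
    rcases hst i with hs | hs | hs
    · exact absurd hs.1 hred
    · obtain ⟨j, hj, hw⟩ := hs
      have h2 := hA.two i j hj
      have h3 := hA.ineq i j hj
      set w : ℝ := p j * (ee k S i j : ℝ) ^ 2 with hwdef
      have hnn : (0 : ℝ) ≤ n i := Nat.cast_nonneg _
      have hD : (2 : ℝ) * n i ≤ En k S i n := by nlinarith
      have hD' : 2 * (n i : ℤ) ≤ En k S i n := by exact_mod_cast hD
      have hg2 : (n i : ℤ) + N i * ((En k S i n : ℤ) - 2 * n i) ≤ n' i := by
        refine le_trans ?_ hg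
        have : (N i : ℤ) * ((En k S i n : ℤ) - 2 * n i) ≤
            (N i * κ).natAbs * ((En k S i n : ℤ) - 2 * n i) :=
          mul_le_mul_of_nonneg_right hK (by linarith)
        linarith
      have hg3 : (n i : ℝ) + N i * ((En k S i n : ℝ) - 2 * n i) ≤ n' i := by exact_mod_cast hg2
      refine ⟨?_, fun _ => ?_⟩
      · -- `n' ≥ N E - (2 N - 1) n ≥ (E / w) (N w - 2 N + 1) ≥ p E`
        have hw2 : 0 < w := by linarith
        have hE0 : (0 : ℝ) ≤ En k S i n := Nat.cast_nonneg _
        have hN1' : (1 : ℝ) ≤ N i := by exact_mod_cast hN1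
        have e1 : p i * En k S i n * w ≤ n' i * w := by
          have e2 : (p i * w) * En k S i n ≤ (N i * w - (2 * N i - 1)) * En k S i n :=
            mul_le_mul_of_nonneg_right (by linarith) hE0
          have e3 : (2 * (N i : ℝ) - 1) * (w * n i) ≤ (2 * (N i : ℝ) - 1) * En k S i n :=
            mul_le_mul_of_nonneg_left hw (by linarith)
          have e4 : ((n i : ℝ) + N i * ((En k S i n : ℝ) - 2 * n i)) * w ≤ n' i * w :=
            mul_le_mul_of_nonneg_right hg3 hw2.le
          nlinarith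
        exact le_of_mul_le_mul_right e1 hw2
      · have : (0 : ℤ) ≤ N i * ((En k S i n : ℤ) - 2 * n i) :=
          mul_nonneg (by positivity) (by linarith)
        have h4 : (n i : ℤ) ≤ n' i := by linarith
        exact_mod_cast h4
    · rcases hs with hs | hs
      · refine ⟨?_, fun h => absurd hs (by omega)⟩
        by_cases hE : En k S i n = 0
        · rw [hE]; simp
        · obtain ⟨j, hj⟩ := exists_ee_ne hE
          have h2 := hA.two i j hj
          have h3 := hA.ineq i j hj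
          set w : ℝ := p j * (ee k S i j : ℝ) ^ 2 with hwdef
          have hN1' : (1 : ℝ) ≤ N i := by exact_mod_cast hN1
          have hpN : p i ≤ N i := by
            have : p i * w ≤ N i * w := by linarith
            exact le_of_mul_le_mul_right this (by linarith)
          have hE0 : (0 : ℝ) ≤ En k S i n := Nat.cast_nonneg _
          have hg2 : (N i : ℤ) * (En k S i n : ℤ) ≤ n' i := by
            refine le_trans ?_ hg
            rw [hs]
            have : (N i : ℤ) * (En k S i n : ℤ) ≤ (N i * κ).natAbs * (En k S i n : ℤ) :=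
              mul_le_mul_of_nonneg_right hK (by positivity)
            push_cast at this ⊢
            linarith
          have hg3 : (N i : ℝ) * (En k S i n : ℝ) ≤ n' i := by exact_mod_cast hg2
          refine le_trans ?_ hg3
          exact mul_le_mul_of_nonneg_right hpN hE0
      · exact ⟨by rw [hs]; simp, fun _ => h0 hs⟩
  refine ⟨fun l => ?_, main.2, main.1⟩
  by_cases hli : l = i
  · subst hli
    exact Or.inl ⟨⟨[], κ, L, rfl, by simp⟩, main.1⟩
  · by_cases hel : ee k S l i = 0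
    · have hEl : En k S l n' = En k S l n := En_congr' hel hl
      have hnl : n' l = n l := hl l hli
      rcases hst l with ⟨⟨A, κ', B, hL, hA'⟩, hs⟩ | hs | hs
      · refine Or.inl ⟨⟨(i, κ) :: A, κ', B, by rw [hL]; rfl, ?_⟩, by rw [hEl, hnl]; exact hs⟩
        intro x hx
        rcases List.mem_cons.1 hx with rfl | hx
        · exact ⟨Ne.symm hli, hel⟩
        · exact hA' x hx
      · exact Or.inr (Or.inl (by rw [hEl, hnl]; exact hs))
      · exact Or.inr (Or.inr (by rw [hEl, hnl]; exact hs))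
    · refine Or.inr (Or.inl ⟨i, hel, ?_⟩)
      have h1 : (n' i : ℝ) * ee k S l i ≤ En k S l n' := by exact_mod_cast En_ge l i n'
      have h2 : (n' l : ℝ) * ee k S i l ≤ En k S i n' := by exact_mod_cast En_ge i l n'
      have h3 : (ee k S i l : ℝ) = ee k S l i := by rw [hS.ee_comm]
      rw [h3] at h2
      have hp := hA.pos i
      have he : (0 : ℝ) ≤ ee k S l i := Nat.cast_nonneg _
      calc p i * (ee k S l i : ℝ) ^ 2 * n' l
          = (p i * ((n' l : ℝ) * ee k S l i)) * ee k S l i := by ring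
        _ ≤ (p i * En k S i n') * ee k S l i :=
            mul_le_mul_of_nonneg_right (mul_le_mul_of_nonneg_left h2 hp.le) he
        _ ≤ n' i * ee k S l i := mul_le_mul_of_nonneg_right main.1 he
        _ ≤ En k S l n' := h1

variable [IsTriangulated C]

/-- The tower of the image of `S j₀` under a reduced word. -/
theorem Conf.word {N : I → ℕ} {p : I → ℝ} (hA : Adm k S N p)
    {P : I → Equiv.Perm (Quotient (isIsomorphicSetoid C))} (hP : ∀ i, PermTw k S i (P i))
    (j₀ : I) (L : List (I × ℤ)) (hL : Red (fun i j => ee k S i j = 0) L) :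
    ∃ (F : C) (b : ℤ) (n : I →₀ ℕ) (s t : ℕ),
      FreeGroup.lift (fun i => P i ^ N i) (wd L) (cl (S j₀)) = cl F ∧ Tow k S j₀ b F n s t ∧
      (∀ l, Stat k S p L n l) ∧ 0 < n j₀ ∧
      (∀ i κ L', L = (i, κ) :: L' → p i * En k S i n ≤ n i) := by
  classical
  induction L with
  | nil =>
    have h1 : Tow k S j₀ 0 (S j₀) (0 + Finsupp.single j₀ 1) _ _ :=
      Tow.cons 0 (0 : C) (S j₀) (S j₀) 0 (Finsupp.single j₀ 1) 0 0 (Tow.nil _ _ (isZero_zero C))
        (Fil.single j₀) (Tri.zero_left (isZero_zero C)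
          ((sh0 (S j₀)).symm ≪≫ (shiftFunctorZero' C (-0 : ℤ) (by norm_num) ≪≫
            (shiftFunctorZero C ℤ).symm).symm.app (S j₀)))
    refine ⟨S j₀, 0, _, _, _, by simp [wd], h1, fun l => Or.inr (Or.inr ?_), ?_, ?_⟩
    · rw [zero_add]
      by_cases hl : l = j₀
      · subst hl
        exact Or.inr (by rw [En_single, hS.ee_self])
      · exact Or.inl (Finsupp.single_eq_of_ne hl)
    · simp
    · intro i κ L' h
      exact absurd h (by simp)
  | cons x L ih =>
    obtain ⟨i, κ⟩ := x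
    obtain ⟨hκ, hL', hbad⟩ := hL
    obtain ⟨F, b, n, s, t, hF, hT, hst, hpos, -⟩ := ih hL'
    obtain ⟨s₁, t₁, hT₁⟩ := hT.forget i
    obtain ⟨F', b', n', s', t', h1, h2, h3, h4, h5⟩ := hS.zpowP (hP i) hT₁ (N i * κ)
    obtain ⟨h6, h7, h8⟩ := hS.stat_step hA hκ hbad hst h3 h4 h5
    obtain ⟨s₂, t₂, hT₂⟩ := h2.forget j₀
    refine ⟨F', b', n', s₂, t₂, ?_, hT₂, h6, ?_, ?_⟩
    · rw [wd_cons, map_mul, Equiv.Perm.mul_apply, hF, map_zpow, FreeGroup.lift_apply_of,
        ← zpow_natCast (P i) (N i), ← zpow_mul]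
      exact h1
    · by_cases hj : j₀ = i
      · subst hj
        exact lt_of_lt_of_le hpos (h7 hpos)
      · rw [h3 j₀ hj]; exact hpos
    · intro i' κ' L'' h
      rw [List.cons.injEq, Prod.mk.injEq] at h
      rw [← h.1.1]
      exact h8

omit [IsTriangulated C] in
theorem Conf.perm_self {i : I} {P : Equiv.Perm (Quotient (isIsomorphicSetoid C))}
    (hP : PermTw k S i P) (m : ℤ) : (P ^ m) (cl (S i)) = cl ((S i)⟦-m⟧) := by
  obtain ⟨f, g, hf, hf', hg, hg', h1, h2⟩ := hP.ex
  obtain ⟨e⟩ := hf'.self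
  obtain ⟨e'⟩ := hg'.self
  have hpos : ∀ K : ℕ, (P ^ K) (cl (S i)) = cl ((S i)⟦-(K : ℤ)⟧) := by
    intro K
    induction K with
    | zero => exact cl_eq.2 ⟨(sh0 (S i)).symm ≪≫ (shiftFunctorZero' C (-((0 : ℕ) : ℤ)) (by simp) ≪≫
            (shiftFunctorZero C ℤ).symm).symm.app (S i)⟩
    | succ K ih =>
      rw [pow_succ', Equiv.Perm.mul_apply, ih, h1, cl_eq]
      obtain ⟨e2⟩ := hf.shift (S i) (-(K : ℤ))
      exact ⟨e2 ≪≫ (shiftFunctor C (-(K : ℤ))).mapIso e ≪≫ sha (S i) (by push_cast; ring)⟩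
  have hneg : ∀ K : ℕ, (P⁻¹ ^ K) (cl (S i)) = cl ((S i)⟦(K : ℤ)⟧) := by
    intro K
    induction K with
    | zero => exact cl_eq.2 ⟨(sh0 (S i)).symm ≪≫ (shiftFunctorZero' C (((0 : ℕ) : ℤ)) (by simp) ≪≫
            (shiftFunctorZero C ℤ).symm).symm.app (S i)⟩
    | succ K ih =>
      rw [pow_succ', Equiv.Perm.mul_apply, ih, h2, cl_eq]
      obtain ⟨e2⟩ := hg.shift (S i) (K : ℤ)
      exact ⟨e2 ≪≫ (shiftFunctor C (K : ℤ)).mapIso e' ≪≫ sha (S i) (by push_cast; ring)⟩
  rcases Int.natAbs_eq m with hm | hm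
  · conv_lhs => rw [hm]
    rw [zpow_natCast, hpos, ← hm]
  · conv_lhs => rw [hm]
    rw [zpow_neg, zpow_natCast, ← inv_pow, hneg]
    have : (m.natAbs : ℤ) = -m := by omega
    rw [this]

omit [IsTriangulated C] in
theorem Conf.perm_other {i j : I} {P : Equiv.Perm (Quotient (isIsomorphicSetoid C))}
    (hP : PermTw k S i P) (hij : j ≠ i) (he : ee k S i j = 0) (m : ℤ) :
    (P ^ m) (cl (S j)) = cl (S j) := by
  obtain ⟨f, g, hf, hf', hg, hg', h1, h2⟩ := hP.ex
  have h3 : P (cl (S j)) = cl (S j) := by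
    obtain ⟨V, hV1, hV2⟩ := hf'.other j hij
    rw [he] at hV1
    have hV : IsZero V := by cases hV1; assumption
    obtain ⟨e⟩ := hV2.iso_of_zero_right hV
    rw [h1]
    exact cl_eq.2 ⟨e.symm⟩
  have h4 : P ∈ MulAction.stabilizer (Equiv.Perm (Quotient (isIsomorphicSetoid C))) (cl (S j)) := h3
  exact Subgroup.zpow_mem _ h4 m

/-- A non-trivial reduced word moves one of the objects. -/
theorem Conf.word_nil {N : I → ℕ} {p : I → ℝ} (hA : Adm k S N p)
    {P : I → Equiv.Perm (Quotient (isIsomorphicSetoid C))} (hP : ∀ i, PermTw k S i (P i))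
    (L : List (I × ℤ)) (hL : Red (fun i j => ee k S i j = 0) L)
    (h : ∀ j, ∃ (l : I) (q : ℤ),
      FreeGroup.lift (fun i => P i ^ N i) (wd L) (cl (S j)) = cl ((S l)⟦q⟧) ∧
      ((∀ i, i ≠ j → ee k S i j = 0) → l = j ∧ q = 0)) : L = [] := by
  classical
  match L, hL with
  | [], _ => rfl
  | (i, κ) :: L', hL =>
    exfalso
    by_cases hnb : ∃ j, ee k S i j ≠ 0
    · obtain ⟨j₀, hj₀⟩ := hnb
      obtain ⟨F, b, n, s, t, hF, hT, hst, hpos, hhead⟩ := hS.word hA hP j₀ _ hL
      obtain ⟨l, q, h1, -⟩ := h j₀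
      rw [hF] at h1
      obtain ⟨e⟩ := cl_eq.1 h1
      have hn := hS.tow_simple hT e
      have hl : l = j₀ := by
        by_contra hne
        rw [hn, Finsupp.single_eq_of_ne (Ne.symm hne)] at hpos
        exact lt_irrefl _ hpos
      subst hl
      have hij : i ≠ l := by
        rintro rfl
        exact hj₀ (hS.ee_self i)
      have h2 := hhead i κ L' rfl
      rw [hn, En_single, one_mul, Finsupp.single_eq_of_ne hij] at h2
      have h3 := hA.pos i
      have h4 : (0 : ℝ) < ee k S i l := by exact_mod_cast Nat.pos_of_ne_zero hj₀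
      have h5 := mul_pos h3 h4
      simp only [Nat.cast_zero] at h2
      linarith
    · push Not at hnb
      obtain ⟨hκ, hL', hbad⟩ := hL
      have hno : ∀ M : List (I × ℤ), (¬ ∃ (A : List (I × ℤ)) (κ' : ℤ) (B : List (I × ℤ)),
          M = A ++ (i, κ') :: B ∧ ∀ x ∈ A, x.1 ≠ i ∧ ee k S i x.1 = 0) → ∀ x ∈ M, x.1 ≠ i := by
        intro M
        induction M with
        | nil => intro _ x hx; simp at hx
        | cons y M ih =>
          intro hM x hx
          have hy : y.1 ≠ i := by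
            rintro hy
            exact hM ⟨[], y.2, M, by rw [← hy]; rfl, by simp⟩
          rcases List.mem_cons.1 hx with rfl | hx
          · exact hy
          · refine ih (fun hcon => hM ?_) x hx
            obtain ⟨A, κ', B, h1, h2⟩ := hcon
            refine ⟨y :: A, κ', B, by rw [h1]; rfl, fun z hz => ?_⟩
            rcases List.mem_cons.1 hz with rfl | hz
            · exact ⟨hy, hnb _⟩
            · exact h2 z hz
      have hfix : ∀ M : List (I × ℤ), (∀ x ∈ M, x.1 ≠ i) →
          FreeGroup.lift (fun i => P i ^ N i) (wd M) (cl (S i)) = cl (S i) := by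
        intro M
        induction M with
        | nil => intro _; simp [wd]
        | cons y M ih =>
          intro hM
          rw [wd_cons, map_mul, Equiv.Perm.mul_apply, ih (fun x hx => hM x (by simp [hx])),
            map_zpow, FreeGroup.lift_apply_of, ← zpow_natCast, ← zpow_mul]
          refine hS.perm_other (hP y.1) (Ne.symm (hM y (by simp))) ?_ _
          rw [hS.ee_comm]
          exact hnb _
      obtain ⟨l, q, h1, h2⟩ := h i
      obtain ⟨rfl, rfl⟩ := h2 (fun j _ => by rw [hS.ee_comm]; exact hnb j)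
      rw [wd_cons, map_mul, Equiv.Perm.mul_apply, hfix L' (hno L' hbad), map_zpow,
        FreeGroup.lift_apply_of, ← zpow_natCast, ← zpow_mul, hS.perm_self (hP l)] at h1
      obtain ⟨e⟩ := cl_eq.1 h1
      have hN := hA.one l
      have hne : (N l : ℤ) * κ ≠ 0 := mul_ne_zero (by positivity) hκ
      have hzero : ∀ m : ℤ, m ≠ 0 → Nonempty ((S l)⟦m⟧ ≅ S l) → False := by
        intro m hm ⟨e⟩
        rcases lt_or_gt_of_ne hm with hm | hm
        · have h3 := hS.neg l l m hm e.inv
          exact (hS.sph l).not_isZero k ((IsZero.iff_id_eq_zero _).2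
            (by rw [← e.inv_hom_id, h3, zero_comp]))
        · have h3 : ∀ f : (S l)⟦m⟧ ⟶ (S l)⟦(0 : ℤ)⟧, f = 0 :=
            zero_shift k (S l) (S l) (c := -m) (by ring) (hS.neg l l (-m) (by omega))
          have h4 : e.hom = 0 := by
            rw [← cancel_mono (sh0 (S l)).inv, h3 (e.hom ≫ _), zero_comp]
          exact (hS.sph l).not_isZero k ((IsZero.iff_id_eq_zero _).2
            (by rw [← e.inv_hom_id, h4, comp_zero]))
      exact hzero (-((N l : ℤ) * κ)) (by omega) ⟨e ≪≫ sh0 (S l)⟩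

end Pool.Agent.H749
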