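import Pool.Agent.H749.Hom2

set_option autoImplicit false
set_option linter.unusedSectionVars false
set_option linter.unusedVariables false

open CategoryTheory CategoryTheory.Limits CategoryTheory.Pretriangulated
open scoped ZeroObject

namespace Pool.Agent.H749

universe v u w t

variable {C : Type u} [Category.{v} C] [Preadditive C] [HasZeroObject C] [HasShift C ℤ]
  [∀ n : ℤ, (shiftFunctor C n).Additive] [Pretriangulated C]

variable {I : Type t} (S : I → C)

/-- Iterated extensions of the objects `S j`, with the multiplicities (extension by a quotient). -/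
inductive Fil : C → (I →₀ ℕ) → Prop
  | zero (M : C) : IsZero M → Fil M 0
  | ext (M' M : C) (j : I) (n : I →₀ ℕ) : Fil M' n → Tri M' M (S j) →
      Fil M (n + Finsupp.single j 1)

/-- Iterated extensions of the objects `S j`, with the multiplicities (extension by a subobject). -/
inductive FilL : C → (I →₀ ℕ) → Prop
  | zero (M : C) : IsZero M → FilL M 0
  | ext (M' M : C) (j : I) (n : I →₀ ℕ) : FilL M' n → Tri (S j) M M' →
      FilL M (Finsupp.single j 1 + n)

/-- Iterated self-extensions of one object. -/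
inductive Pw (X : C) : C → ℕ → Prop
  | zero (M : C) : IsZero M → Pw X M 0
  | ext (M' M : C) (n : ℕ) : Pw X M' n → Tri M' M X → Pw X M (n + 1)

/-- Iterated self-extensions of one object. -/
inductive PwL (X : C) : C → ℕ → Prop
  | zero (M : C) : IsZero M → PwL X M 0
  | ext (M' M : C) (n : ℕ) : PwL X M' n → Tri X M M' → PwL X M (n + 1)

variable {S}

theorem Fil.iso {M N : C} {n : I →₀ ℕ} (h : Fil S M n) (e : M ≅ N) : Fil S N n := by
  cases h with
  | zero _ hM => exact Fil.zero _ (hM.of_iso e.symm)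
  | ext M' _ j n' h1 h2 => exact Fil.ext _ _ _ _ h1 (h2.iso (Iso.refl _) e (Iso.refl _))

theorem FilL.iso {M N : C} {n : I →₀ ℕ} (h : FilL S M n) (e : M ≅ N) : FilL S N n := by
  cases h with
  | zero _ hM => exact FilL.zero _ (hM.of_iso e.symm)
  | ext M' _ j n' h1 h2 => exact FilL.ext _ _ _ _ h1 (h2.iso (Iso.refl _) e (Iso.refl _))

theorem Pw.iso {X M N : C} {n : ℕ} (h : Pw X M n) (e : M ≅ N) : Pw X N n := by
  cases h with
  | zero _ hM => exact Pw.zero _ (hM.of_iso e.symm)
  | ext M' _ n' h1 h2 => exact Pw.ext _ _ _ h1 (h2.iso (Iso.refl _) e (Iso.refl _))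

theorem PwL.iso {X M N : C} {n : ℕ} (h : PwL X M n) (e : M ≅ N) : PwL X N n := by
  cases h with
  | zero _ hM => exact PwL.zero _ (hM.of_iso e.symm)
  | ext M' _ n' h1 h2 => exact PwL.ext _ _ _ h1 (h2.iso (Iso.refl _) e (Iso.refl _))

theorem Fil.single (j : I) : Fil S (S j) (Finsupp.single j 1) := by
  have h := Fil.ext (S := S) (0 : C) (S j) j 0 (Fil.zero _ (isZero_zero C))
    (Tri.zero_left (isZero_zero C) (Iso.refl _))
  rwa [zero_add] at h

theorem FilL.single (j : I) : FilL S (S j) (Finsupp.single j 1) := by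
  have h := FilL.ext (S := S) (0 : C) (S j) j 0 (FilL.zero _ (isZero_zero C))
    (Tri.zero_right (isZero_zero C) (Iso.refl _))
  rwa [add_zero] at h

theorem Pw.one (X : C) : Pw X X 1 :=
  Pw.ext (0 : C) X 0 (Pw.zero _ (isZero_zero C)) (Tri.zero_left (isZero_zero C) (Iso.refl _))

theorem PwL.one (X : C) : PwL X X 1 :=
  PwL.ext (0 : C) X 0 (PwL.zero _ (isZero_zero C)) (Tri.zero_right (isZero_zero C) (Iso.refl _))

theorem Pw.fil {j : I} {M : C} {n : ℕ} (h : Pw (S j) M n) : Fil S M (Finsupp.single j n) := by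
  induction h with
  | zero M hM => rw [Finsupp.single_zero]; exact Fil.zero _ hM
  | ext M' M n h1 h2 ih => rw [Finsupp.single_add]; exact Fil.ext _ _ _ _ ih h2

section

variable [IsTriangulated C]

theorem Fil.app {M N X : C} {m n : I →₀ ℕ} (hM : Fil S M m) (hN : Fil S N n) (h : Tri M X N) :
    Fil S X (m + n) := by
  induction hN generalizing X with
  | zero N hN =>
    obtain ⟨e⟩ := h.iso_of_zero_right hN
    rw [add_zero]
    exact hM.iso e
  | ext N' N j n h1 h2 ih =>
    obtain ⟨Z, hZ, hZX⟩ := Tri.assoc₁ h h2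
    rw [← add_assoc]
    exact Fil.ext _ _ _ _ (ih hZ) hZX

theorem FilL.app {M N X : C} {m n : I →₀ ℕ} (hM : FilL S M m) (hN : FilL S N n)
    (h : Tri M X N) : FilL S X (m + n) := by
  induction hM generalizing X with
  | zero M hM =>
    obtain ⟨e⟩ := h.iso_of_zero_left hM
    rw [zero_add]
    exact hN.iso e.symm
  | ext M' M j m h1 h2 ih =>
    obtain ⟨Y, hY, hYM⟩ := Tri.assoc₂ h h2
    rw [add_assoc]
    exact FilL.ext _ _ _ _ (ih hYM) hY

theorem Pw.app {A M N X : C} {m n : ℕ} (hM : Pw A M m) (hN : Pw A N n) (h : Tri M X N) :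
    Pw A X (m + n) := by
  induction hN generalizing X with
  | zero N hN =>
    obtain ⟨e⟩ := h.iso_of_zero_right hN
    rw [add_zero]
    exact hM.iso e
  | ext N' N n h1 h2 ih =>
    obtain ⟨Z, hZ, hZX⟩ := Tri.assoc₁ h h2
    rw [← add_assoc]
    exact Pw.ext _ _ _ (ih hZ) hZX

theorem PwL.app {A M N X : C} {m n : ℕ} (hM : PwL A M m) (hN : PwL A N n) (h : Tri M X N) :
    PwL A X (m + n) := by
  induction hM generalizing X with
  | zero M hM =>
    obtain ⟨e⟩ := h.iso_of_zero_left hM
    rw [zero_add]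
    exact hN.iso e.symm
  | ext M' M m h1 h2 ih =>
    obtain ⟨Y, hY, hYM⟩ := Tri.assoc₂ h h2
    rw [add_right_comm]
    exact PwL.ext _ _ _ (ih hYM) hY

theorem Fil.toL {M : C} {m : I →₀ ℕ} (hM : Fil S M m) : FilL S M m := by
  induction hM with
  | zero M hM => exact FilL.zero _ hM
  | ext M' M j n h1 h2 ih => exact ih.app (FilL.single j) h2

theorem FilL.toR {M : C} {m : I →₀ ℕ} (hM : FilL S M m) : Fil S M m := by
  induction hM with
  | zero M hM => exact Fil.zero _ hM
  | ext M' M j n h1 h2 ih => exact (Fil.single j).app ih h2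

theorem Pw.toL {A M : C} {m : ℕ} (hM : Pw A M m) : PwL A M m := by
  induction hM with
  | zero M hM => exact PwL.zero _ hM
  | ext M' M n h1 h2 ih => exact ih.app (PwL.one A) h2

theorem PwL.toR {A M : C} {m : ℕ} (hM : PwL A M m) : Pw A M m := by
  induction hM with
  | zero M hM => exact Pw.zero _ hM
  | ext M' M n h1 h2 ih =>
    rw [add_comm]
    exact (Pw.one A).app ih h2

end

/-- Vanishing of morphisms from an iterated extension. -/
theorem Fil.from_zero {M X : C} {m : I →₀ ℕ} (hM : Fil S M m) (h : ∀ j (f : S j ⟶ X), f = 0)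
    (f : M ⟶ X) : f = 0 := by
  induction hM with
  | zero M hM => exact hM.eq_of_src _ _
  | ext M' M j n h1 h2 ih => exact h2.from_mid ih (h j) f

/-- Vanishing of morphisms to an iterated extension. -/
theorem Fil.to_zero {M X : C} {m : I →₀ ℕ} (hM : Fil S M m) (q : ℤ)
    (h : ∀ j (f : X ⟶ (S j)⟦q⟧), f = 0) (f : X ⟶ M⟦q⟧) : f = 0 := by
  induction hM with
  | zero M hM => exact ((shiftFunctor C q).map_isZero hM).eq_of_tgt _ _
  | ext M' M j n h1 h2 ih => exact (h2.shift q).to_mid ih (h j) f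

end Pool.Agent.H749
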