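import Pool.Agent.H749.GWord

set_option autoImplicit false
set_option linter.unusedSectionVars false
set_option linter.unusedVariables false
set_option linter.unusedTactic false

open CategoryTheory CategoryTheory.Limits CategoryTheory.Pretriangulated
open scoped ZeroObject

namespace Pool.Agent.H749

universe v u w t

variable {C : Type u} [Category.{v} C] [Preadditive C] [HasZeroObject C] [HasShift C ℤ]
  [∀ n : ℤ, (shiftFunctor C n).Additive] [Pretriangulated C] [IsTriangulated C]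
variable {k : Type w} [Field k] [Linear k C] [∀ n : ℤ, (shiftFunctor C n).Linear k]
variable {I : Type t}
variable {σ : Slicing C} {A : I → C} {φ : I → ℝ}

theorem GFam.comp_zero (hA : GFam k σ A φ) {i j : I} (hij : i ≠ j) {n q : ℤ}
    (u : (A i)⟦n⟧ ⟶ (A j)⟦q⟧) (v : (A j)⟦q⟧ ⟶ (A i)⟦n⟧) : u ≫ v = 0 := by
  rcases le_total (φ j + q) (φ i + n) with h | h
  · rw [hA.hom_zero hij h u, Limits.zero_comp]
  · rw [hA.hom_zero (Ne.symm hij) h v, Limits.comp_zero]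

theorem GFam.base (hA : GFam k σ A φ) {i j : I} (hij : i ≠ j) (q : ℤ) (t : TP C)
    (ht : t.L ((A j)⟦q⟧) ∨ t.R ((A j)⟦q⟧)) {X Y : C} {a : X ⟶ (A j)⟦q⟧} {b : (A j)⟦q⟧ ⟶ Y}
    {δ : Y ⟶ X⟦(1 : ℤ)⟧} (hX : t.L X) (hY : t.R Y) (hT : Triangle.mk a b δ ∈ distTriang C)
    (n : ℤ) :
    (∀ (f : (A i)⟦n⟧ ⟶ X) (z : X ⟶ (A i)⟦n⟧), f ≫ z = 0) ∧
    (∀ (f : (A i)⟦n⟧ ⟶ Y) (z : Y ⟶ (A i)⟦n⟧), f ≫ z = 0) := by
  rcases ht with ht | ht
  · -- `Y = 0`
    have hb : b = 0 := t.hom ht hY b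
    have hYz : IsZero Y := by
      refine isZero_of_id ?_
      obtain ⟨r, hr⟩ : ∃ r : X⟦(1 : ℤ)⟧ ⟶ Y, 𝟙 Y = δ ≫ r :=
        Triangle.yoneda_exact₃ _ hT (𝟙 Y) (by change b ≫ 𝟙 Y = 0; rw [hb, Limits.zero_comp])
      rw [hr, t.hom (t.shL hX) hY r, Limits.comp_zero]
    have hi : IsIso a := (Triangle.isZero₃_iff_isIso₁ _ hT).1 hYz
    refine ⟨fun f z => ?_, fun f z => ?_⟩
    · have h1 := hA.comp_zero hij (f ≫ a) (inv a ≫ z)
      rw [Category.assoc, IsIso.hom_inv_id_assoc] at h1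
      exact h1
    · rw [hYz.eq_of_tgt f 0, Limits.zero_comp]
  · have ha : a = 0 := t.hom hX ht a
    have hXz : IsZero (X⟦(1 : ℤ)⟧) := by
      refine isZero_of_id ?_
      obtain ⟨r, hr⟩ : ∃ r : X⟦(1 : ℤ)⟧ ⟶ Y, 𝟙 (X⟦(1 : ℤ)⟧) = r ≫ δ :=
        Triangle.coyoneda_exact₁ _ hT (𝟙 (X⟦(1 : ℤ)⟧)) (by
          change 𝟙 (X⟦(1 : ℤ)⟧) ≫ a⟦1⟧' = 0
          rw [ha, Functor.map_zero, Limits.comp_zero])
      rw [hr, t.hom (t.shL hX) hY r, Limits.zero_comp]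
    have hX0 : IsZero X := ((shiftFunctor C (-1 : ℤ)).map_isZero hXz).of_iso
      (shz X (by norm_num)).symm
    have hi : IsIso b := (Triangle.isZero₁_iff_isIso₂ _ hT).1 hX0
    refine ⟨fun f z => ?_, fun f z => ?_⟩
    · rw [hX0.eq_of_tgt f 0, Limits.zero_comp]
    · have h1 := hA.comp_zero hij (f ≫ inv b) (b ≫ z)
      rw [Category.assoc, IsIso.inv_hom_id_assoc] at h1
      exact h1

theorem cut_mem {S : C} {β : ℝ} (hS : σ.P β S) (q : ℤ) (U : ℝ → Prop)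
    (hU : ∀ x y, x ≤ y → U x → U y) :
    (σ.cut U hU).L (S⟦q⟧) ∨ (σ.cut U hU).R (S⟦q⟧) := by
  by_cases h : U (β + q)
  · exact Or.inl (Slicing.Ext.of (σ.shiftInt β S hS q) h)
  · exact Or.inr (Slicing.Ext.of (σ.shiftInt β S hS q) h)

theorem tm_mem {S : C} {β : ℝ} (hS : σ.P β S) (q : ℤ) (α : ℝ) (n : ℤ) :
    (tm σ α n).L (S⟦q⟧) ∨ (tm σ α n).R (S⟦q⟧) :=
  cut_mem hS q (fun x => α + n ≤ x) (fun x y h h' => le_trans h' h)

theorem tp_mem {S : C} {β : ℝ} (hS : σ.P β S) (q : ℤ) (α : ℝ) (n : ℤ) :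
    (tp σ α n).L (S⟦q⟧) ∨ (tp σ α n).R (S⟦q⟧) :=
  cut_mem hS q (fun x => α + n - 1 < x) (fun x y h h' => lt_of_lt_of_le h' h)

theorem GFam.low (hA : GFam k σ A φ) {i j : I} (hij : i ≠ j) (q : ℤ) :
    Low3 σ (A i) (φ i) ((A j)⟦q⟧) ∧ Low2 σ (A i) (φ i) ((A j)⟦q⟧) := by
  refine ⟨⟨?_, ?_⟩, ⟨?_, ?_⟩⟩
  · intro n X Y a b δ hX hY hT f z
    exact (hA.base hij q _ (tp_mem (hA.mem j) q _ _) hX hY hT n).1 f z
  · intro n m hm X Y a b δ hX hY hT f z
    exact (hA.base hij q _ (tm_mem (hA.mem j) q _ _) hX hY hT n).2 f z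
  · intro n X Y a b δ hX hY hT f z
    exact (hA.base hij q _ (tm_mem (hA.mem j) q _ _) hX hY hT n).1 f z
  · intro n m hm X Y a b δ hX hY hT f z
    exact (hA.base hij q _ (tp_mem (hA.mem j) q _ _) hX hY hT n).2 f z

theorem not_DN {S B : C} {α β : ℝ} (hB : σ.P β B) {p q : ℤ} {u : S⟦p⟧ ⟶ B} (hu : u ≠ 0)
    (h : β < α + p + 2) : ¬ DN σ S α (B⟦q⟧) := by
  intro hD
  obtain ⟨G, a, b, hG, hab⟩ := hD (p + q) (p + q + 2) rfl
    ((sha S (rfl : p + q = p + q)).inv ≫ u⟦q⟧')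
  refine shift_src_ne u hu q ?_
  rw [← hab]
  have hb : b = 0 := by
    refine Slicing.Ext.hom_from hG (σ.shiftInt β B hB q)
      (fun ψ (hψ : α + ((p + q + 2 : ℤ) : ℝ) ≤ ψ) => ?_) b
    push_cast at hψ
    linarith
  rw [hb, Limits.comp_zero]

theorem not_DP {S B : C} {α β : ℝ} (hB : σ.P β B) {p q : ℤ} {u : B ⟶ S⟦p⟧} (hu : u ≠ 0)
    (h : α + p < β + 2) : ¬ DP σ S α (B⟦q⟧) := by
  intro hD
  obtain ⟨G, a, b, hG, hab⟩ := hD (p + q) (p + q + 1 - 2) rfl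
    (u⟦q⟧' ≫ (sha S (rfl : p + q = p + q)).hom)
  refine shift_tgt_ne u hu q ?_
  rw [← hab]
  have ha : a = 0 := by
    refine Slicing.Ext.hom_to (σ.shiftInt β B hB q) hG
      (fun ψ (hψ : ¬ α + ((p + q + 1 - 2 : ℤ) : ℝ) - 1 < ψ) => ?_) a
    push_cast at hψ
    linarith
  rw [ha, Limits.zero_comp]

theorem GFam.not_dom (hA : GFam k σ A φ) (i j : I) (q : ℤ) :
    ¬ (DN σ (A i) (φ i) ((A j)⟦q⟧) ∨ DP σ (A i) (φ i) ((A j)⟦q⟧)) := by
  by_cases hij : i = j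
  · subst hij
    have hne : (sh0 (A i)).hom ≠ 0 := by
      intro h0
      exact (hA.sph i).not_isZero k ((IsZero.iff_id_eq_zero _).2
        (by rw [← (sh0 (A i)).inv_hom_id, h0, Limits.comp_zero]))
    have hne' : (sh0 (A i)).inv ≠ 0 := by
      intro h0
      exact (hA.sph i).not_isZero k ((IsZero.iff_id_eq_zero _).2
        (by rw [← (sh0 (A i)).inv_hom_id, h0, Limits.zero_comp]))
    rintro (h | h)
    · exact not_DN (hA.mem i) hne (by push_cast; linarith) h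
    · exact not_DP (hA.mem i) hne' (by push_cast; linarith) h
  · -- `g : A i⟦p⟧ ⟶ A j`, `g' : A j ⟶ A i⟦p + 2⟧`
    obtain ⟨p, g, g', hg, hg'⟩ := hA.conn' (Ne.symm hij)
    have h1 := hA.lt_of_ne' (Ne.symm hij) hg
    have h2 := hA.lt_of_ne (Ne.symm hij) hg'
    push_cast at h2
    rintro (h | h)
    · exact not_DN (hA.mem j) hg (by linarith) h
    · exact not_DP (hA.mem j) hg' (by push_cast; linarith) h

section

variable {S : C} (hS : IsSpherical k S) {T : C ≌ C} (hT : IsTwist k S T)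
variable [T.functor.CommShift ℤ] [T.functor.IsTriangulated] [T.functor.Additive]
  [T.functor.Linear k]

include hS hT

theorem perm_shift (a m : ℤ) : (isoPerm T ^ m) (cl (S⟦a⟧)) = cl (S⟦a - m⟧) := by
  have h1 : ∀ a b : ℤ, a = b + 1 → isoPerm T (cl (S⟦a⟧)) = cl (S⟦b⟧) := by
    intro a b hab
    exact cl_eq.2 (twist_shift hS hT hab)
  have h2 : ∀ (K : ℕ) (a : ℤ), (isoPerm T ^ K) (cl (S⟦a⟧)) = cl (S⟦a - K⟧) := by
    intro K
    induction K with
    | zero => intro a; simp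
    | succ K ih =>
      intro a
      rw [pow_succ', Equiv.Perm.mul_apply, ih]
      exact h1 _ _ (by push_cast; ring)
  rcases Int.natAbs_eq m with hm | hm
  · conv_lhs => rw [hm]
    rw [zpow_natCast, h2, ← hm]
  · conv_lhs => rw [hm]
    have h3 : a - m - (m.natAbs : ℤ) = a := by omega
    rw [zpow_neg, zpow_natCast, Equiv.Perm.inv_eq_iff_eq, h2, h3]

variable {α : ℝ} (hα : σ.P α S)

include hα

theorem zpowG {F : C} {m : ℤ} (h : (2 ≤ m.natAbs ∧ Low2 σ S α F) ∨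
    (3 ≤ m.natAbs ∧ Low3 σ S α F)) :
    ∃ F' : C, (isoPerm T ^ m) (cl F) = cl F' ∧ (DN σ S α F' ∨ DP σ S α F') := by
  have hf : ∀ F, isoPerm T (cl F) = cl (T.functor.obj F) := fun F => rfl
  have hg : ∀ F, (isoPerm T)⁻¹ (cl F) = cl (T.inverse.obj F) := fun F => rfl
  rcases Int.natAbs_eq m with hm | hm
  · refine ⟨T.functor.obj^[m.natAbs] F, ?_, Or.inl ?_⟩
    · conv_lhs => rw [hm]
      rw [zpow_natCast, pow_cl hf]
    · rcases h with ⟨h1, h2⟩ | ⟨h1, h2⟩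
      · have := powX2 hS hT hα h2.1 (m.natAbs - 2)
        rwa [Nat.sub_add_cancel h1] at this
      · have := powX3 hS hT hα h2.1 (m.natAbs - 3)
        rwa [Nat.sub_add_cancel h1] at this
  · refine ⟨T.inverse.obj^[m.natAbs] F, ?_, Or.inr ?_⟩
    · conv_lhs => rw [hm]
      rw [zpow_neg, zpow_natCast, ← inv_pow, pow_cl hg]
    · rcases h with ⟨h1, h2⟩ | ⟨h1, h2⟩
      · have := powY2 hS hT hα h2.2 (m.natAbs - 2)
        rwa [Nat.sub_add_cancel h1] at this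
      · have := powY3 hS hT hα h2.2 (m.natAbs - 3)
        rwa [Nat.sub_add_cancel h1] at this

end

/-- The state of `A j` after a reduced word. -/
theorem GFam.word (hA : GFam k σ A φ) (T : I → (C ≌ C)) [∀ i, (T i).functor.CommShift ℤ]
    [∀ i, (T i).functor.IsTriangulated] [∀ i, (T i).functor.Additive]
    [∀ i, (T i).functor.Linear k] (hT : ∀ i, IsTwist k (A i) (T i)) (N : I → ℕ)
    (hN : ∀ i, 2 ≤ N i ∧ (3 ≤ N i ∨ ∀ j, j ≠ i → Two A φ i j)) (j : I) (L : List (I × ℤ))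
    (hL : Red (fun _ _ : I => False) L) :
    (∃ q : ℤ, FreeGroup.lift (fun i => isoPerm (T i) ^ N i) (wd L) (cl (A j)) =
        cl ((A j)⟦q⟧) ∧ (L = [] ∨ ∃ κ, L = [(j, κ)])) ∨
    (∃ (i : I) (κ : ℤ) (L' : List (I × ℤ)) (F : C), L = (i, κ) :: L' ∧
      FreeGroup.lift (fun i => isoPerm (T i) ^ N i) (wd L) (cl (A j)) = cl F ∧
      (DN σ (A i) (φ i) F ∨ DP σ (A i) (φ i) F)) := by
  induction L with
  | nil =>
    refine Or.inl ⟨0, ?_, Or.inl rfl⟩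
    simp only [wd, List.map_nil, List.prod_nil, map_one, Equiv.Perm.one_apply]
    exact cl_eq.2 ⟨(sh0 (A j)).symm⟩
  | cons x L ih =>
    obtain ⟨i, κ⟩ := x
    obtain ⟨hκ, hL', hbad⟩ := hL
    have hstep : ∀ F : C, FreeGroup.lift (fun i => isoPerm (T i) ^ N i) (wd L) (cl (A j)) =
        cl F → FreeGroup.lift (fun i => isoPerm (T i) ^ N i) (wd ((i, κ) :: L)) (cl (A j)) =
        (isoPerm (T i) ^ ((N i : ℤ) * κ)) (cl F) := by
      intro F hF
      rw [wd_cons, map_mul, Equiv.Perm.mul_apply, hF, map_zpow, FreeGroup.lift_apply_of,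
        ← zpow_natCast (isoPerm (T i)) (N i), ← zpow_mul]
    have hκ' : 1 ≤ κ.natAbs := Int.natAbs_pos.2 hκ
    have hnat : N i ≤ ((N i : ℤ) * κ).natAbs := by
      rw [Int.natAbs_mul, Int.natAbs_natCast]
      exact Nat.le_mul_of_pos_right _ hκ'
    have hready : ∀ F : C, Low3 σ (A i) (φ i) F →
        ((∀ j, j ≠ i → Two A φ i j) → Low2 σ (A i) (φ i) F) →
        ∃ F' : C, (isoPerm (T i) ^ ((N i : ℤ) * κ)) (cl F) = cl F' ∧
          (DN σ (A i) (φ i) F' ∨ DP σ (A i) (φ i) F') := by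
      intro F h3 h2
      refine zpowG (hA.sph i) (hT i) (hA.mem i) ?_
      rcases (hN i).2 with h | h
      · exact Or.inr ⟨le_trans h hnat, h3⟩
      · exact Or.inl ⟨le_trans (hN i).1 hnat, h2 h⟩
    rcases ih hL' with ⟨q, h1, h2⟩ | ⟨i', κ', L'', F, h1, h2, h3⟩
    · by_cases hij : i = j
      · subst hij
        refine Or.inl ⟨q - (N i : ℤ) * κ, ?_, Or.inr ⟨κ, ?_⟩⟩
        · rw [hstep _ h1, perm_shift (hA.sph i) (hT i)]
        · rcases h2 with rfl | ⟨κ', rfl⟩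
          · rfl
          · exact absurd ⟨[], κ', [], rfl, by simp⟩ hbad
      · obtain ⟨hl3, hl2⟩ := hA.low hij q
        obtain ⟨F', h4, h5⟩ := hready _ hl3 (fun _ => hl2)
        exact Or.inr ⟨i, κ, L, F', rfl, by rw [hstep _ h1, h4], h5⟩
    · have hii : i ≠ i' := by
        rintro rfl
        exact hbad ⟨[], κ', L'', h1, by simp⟩
      obtain ⟨hl3, hl2⟩ := hA.prev hii h3
      obtain ⟨F', h4, h5⟩ := hready _ hl3 (fun h => hl2 (h i' (Ne.symm hii)))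
      exact Or.inr ⟨i, κ, L, F', rfl, by rw [hstep _ h2, h4], h5⟩

theorem GFam.free (hA : GFam k σ A φ) (T : I → (C ≌ C)) [∀ i, (T i).functor.CommShift ℤ]
    [∀ i, (T i).functor.IsTriangulated] [∀ i, (T i).functor.Additive]
    [∀ i, (T i).functor.Linear k] (hT : ∀ i, IsTwist k (A i) (T i)) (N : I → ℕ)
    (hN : ∀ i, 2 ≤ N i ∧ (3 ≤ N i ∨ ∀ j, j ≠ i → Two A φ i j)) [Nontrivial I]
    (x : FreeGroup I)
    (hx : ∀ j, ∃ (l : I) (q : ℤ), FreeGroup.lift (fun i => isoPerm (T i) ^ N i) x (cl (A j)) =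
      cl ((A l)⟦q⟧)) : x = 1 := by
  obtain ⟨L, hL, hLx⟩ := exists_red' (c := fun _ _ : I => False) x
  have hrel : relators (fun _ _ : I => False) = ∅ := by
    ext y
    simp [relators]
  have hwx : wd L = x := by
    have h1 : (wd L)⁻¹ * x ∈ Subgroup.normalClosure (relators (fun _ _ : I => False)) := by
      rw [← QuotientGroup.eq]
      exact hLx
    rw [hrel, Subgroup.normalClosure_empty, Subgroup.mem_bot, inv_mul_eq_one] at h1
    exact h1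
  subst hwx
  match L, hL with
  | [], _ => rfl
  | (i, κ) :: L', hL =>
    exfalso
    obtain ⟨j, hj⟩ := exists_ne i
    obtain ⟨l, q, hlq⟩ := hx j
    rcases hA.word T hT N hN j _ hL with ⟨q', -, h2 | ⟨κ', h2⟩⟩ | ⟨i', κ', L'', F, h1, h2, h3⟩
    · exact absurd h2 (by simp)
    · rw [List.cons.injEq, Prod.mk.injEq] at h2
      exact hj h2.1.1.symm
    · rw [h2] at hlq
      obtain ⟨e⟩ := cl_eq.1 hlq
      refine hA.not_dom i' l q ?_
      rcases h3 with h3 | h3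
      · exact Or.inl (FlX.iso h3 e)
      · exact Or.inr (FlY.iso h3 e)

end Pool.Agent.H749
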