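import Pool.Agent.H749.Prev

set_option autoImplicit false
set_option linter.unusedSectionVars false
set_option linter.unusedVariables false

open CategoryTheory CategoryTheory.Limits CategoryTheory.Pretriangulated
open scoped ZeroObject

namespace Pool.Agent.H749

universe v u w t

variable {C : Type u} [Category.{v} C] [Preadditive C] [HasZeroObject C] [HasShift C ℤ]
  [∀ n : ℤ, (shiftFunctor C n).Additive] [Pretriangulated C] [IsTriangulated C]
variable {k : Type w} [Field k] [Linear k C] [∀ n : ℤ, (shiftFunctor C n).Linear k]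

/-- The t-structures in which `S`, of phase `α`, is at the bottom of the heart. -/
def tm (σ : Slicing C) (α : ℝ) (n : ℤ) : TP C := σ.ge (α + n)

/-- The t-structures in which `S`, of phase `α`, is at the top of the heart. -/
def tp (σ : Slicing C) (α : ℝ) (n : ℤ) : TP C := σ.gt (α + n - 1)

variable {σ : Slicing C}

theorem ord_tm {S : C} {α : ℝ} (hS : σ.P α S) : Ord (tm σ α) S where
  pos n m hnm := by
    have h1 : (m : ℝ) + 1 = n := by exact_mod_cast hnm
    refine ⟨fun c hc => ?_, fun c hc => ?_⟩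
    · have h2 : (m : ℝ) + 1 ≤ c := by exact_mod_cast hc
      exact Slicing.Ext.of (σ.shiftInt α S hS c) (by linarith : α + (n : ℝ) ≤ α + c)
    · have h2 : (c : ℝ) ≤ m := by exact_mod_cast hc
      exact Slicing.Ext.of (σ.shiftInt α S hS c) (fun h : α + (n : ℝ) ≤ α + c => by linarith)
  mono n X hX := by
    refine Slicing.Ext.mono hX fun ψ (hψ : α + ((n + 1 : ℤ) : ℝ) ≤ ψ) => ?_
    change α + (n : ℝ) ≤ ψ
    push_cast at hψ
    linarith

theorem ord_tp {S : C} {α : ℝ} (hS : σ.P α S) : Ord (tp σ α) S where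
  pos n m hnm := by
    have h1 : (m : ℝ) + 1 = n := by exact_mod_cast hnm
    refine ⟨fun c hc => ?_, fun c hc => ?_⟩
    · have h2 : (m : ℝ) + 1 ≤ c := by exact_mod_cast hc
      exact Slicing.Ext.of (σ.shiftInt α S hS c) (by linarith : α + (n : ℝ) - 1 < α + c)
    · have h2 : (c : ℝ) ≤ m := by exact_mod_cast hc
      exact Slicing.Ext.of (σ.shiftInt α S hS c) (fun h : α + (n : ℝ) - 1 < α + c => by linarith)
  mono n X hX := by
    refine Slicing.Ext.mono hX fun ψ (hψ : α + ((n + 1 : ℤ) : ℝ) - 1 < ψ) => ?_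
    change α + (n : ℝ) - 1 < ψ
    push_cast at hψ
    linarith

/-- all morphisms from `S⟦n⟧` come from phases at least `α + n + 2` -/
def DN (σ : Slicing C) (S : C) (α : ℝ) (F : C) : Prop := FlX (tm σ α) S F 2

/-- all morphisms to `S⟦n⟧` come from phases at most `α + n - 2` -/
def DP (σ : Slicing C) (S : C) (α : ℝ) (F : C) : Prop := FlY (tp σ α) S F 2

section

variable {S : C} (hS : IsSpherical k S) {T : C ≌ C} (hT : IsTwist k S T)
variable [T.functor.CommShift ℤ] [T.functor.IsTriangulated] [T.functor.Additive]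
  [T.functor.Linear k]
variable {α : ℝ} (hα : σ.P α S)

include hS hT hα

theorem cross1 (n : ℤ) (G : C) (hG : (tp σ α (n + 1)).L G) :
    (tm σ α n).L (T.functor.obj G) := by
  have hG' : σ.Ext (fun x => α + (n : ℝ) < x) G :=
    Slicing.Ext.mono hG fun ψ (hψ : α + ((n + 1 : ℤ) : ℝ) - 1 < ψ) => by
      push_cast at hψ
      linarith
  refine ampL hT _ (Slicing.Ext.mono hG' fun ψ hψ => hψ.le) fun c => ?_
  by_cases hc : n ≤ c + 1
  · refine Or.inr (Slicing.Ext.of (σ.shiftInt α S hα (c + 1)) ?_)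
    have h2 : (n : ℝ) ≤ ((c + 1 : ℤ) : ℝ) := by exact_mod_cast hc
    change α + (n : ℝ) ≤ α + ((c + 1 : ℤ) : ℝ)
    linarith
  · refine Or.inl fun x => hS.zero_src' (d := c + 2) rfl (fun y => ?_) x
    refine Slicing.Ext.hom_from hG' (σ.shiftInt α S hα (c + 2)) (fun ψ hψ => ?_) y
    have h2 : ((c + 2 : ℤ) : ℝ) ≤ n := by
      have : c + 2 ≤ n := by omega
      exact_mod_cast this
    linarith

theorem cross2 (n : ℤ) (Y : C) (hY : (tm σ α n).R (T.functor.obj Y)) :
    (tp σ α (n + 1)).R Y := by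
  refine (tp σ α (n + 1)).memR fun X hX f => ?_
  have h1 : T.functor.map f = 0 := (tm σ α n).hom (cross1 hS hT hα n X hX) hY _
  exact T.functor.map_injective (by rw [h1, Functor.map_zero])

theorem powX2 {F : C} (h : LowX (tm σ α) S F) (K : ℕ) : DN σ S α (T.functor.obj^[K + 2] F) := by
  induction K with
  | zero => exact stepX2 hS hT (ord_tm hα) (stepX1 hS hT (ord_tm hα) h)
  | succ K ih =>
    rw [show K + 1 + 2 = (K + 2) + 1 by ring, Function.iterate_succ_apply']
    exact stepX2 hS hT (ord_tm hα) (FlX.down ih (ord_tm hα))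

theorem powX3 {F : C} (h : LowX (tp σ α) S F) (K : ℕ) : DN σ S α (T.functor.obj^[K + 3] F) := by
  induction K with
  | zero => exact stepX2 hS hT (ord_tm hα) (crossX hS hT (cross1 hS hT hα)
      (stepX1 hS hT (ord_tp hα) h))
  | succ K ih =>
    rw [show K + 1 + 3 = (K + 3) + 1 by ring, Function.iterate_succ_apply']
    exact stepX2 hS hT (ord_tm hα) (FlX.down ih (ord_tm hα))

theorem powY2 {F : C} (h : LowY (tp σ α) S F) (K : ℕ) : DP σ S α (T.inverse.obj^[K + 2] F) := by
  induction K with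
  | zero =>
    have h1 : FlY (tp σ α) S (T.inverse.obj F) 1 :=
      stepY1 hS hT (ord_tp hα) (h.iso (T.counitIso.app F).symm)
    exact stepY2 hS hT (ord_tp hα) (h1.iso (T.counitIso.app (T.inverse.obj F)).symm)
  | succ K ih =>
    rw [show K + 1 + 2 = (K + 2) + 1 by ring, Function.iterate_succ_apply']
    exact stepY2 hS hT (ord_tp hα) ((FlY.down ih (ord_tp hα)).iso (T.counitIso.app _).symm)

theorem powY3 {F : C} (h : LowY (tm σ α) S F) (K : ℕ) : DP σ S α (T.inverse.obj^[K + 3] F) := by
  induction K with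
  | zero =>
    have h1 : FlY (tm σ α) S (T.inverse.obj F) 1 :=
      stepY1 hS hT (ord_tm hα) (h.iso (T.counitIso.app F).symm)
    have h2 : FlY (tp σ α) S (T.inverse.obj (T.inverse.obj F)) 1 :=
      crossY hS hT (cross2 hS hT hα) (h1.iso (T.counitIso.app (T.inverse.obj F)).symm)
    exact stepY2 hS hT (ord_tp hα) (h2.iso (T.counitIso.app _).symm)
  | succ K ih =>
    rw [show K + 1 + 3 = (K + 3) + 1 by ring, Function.iterate_succ_apply']
    exact stepY2 hS hT (ord_tp hα) ((FlY.down ih (ord_tp hα)).iso (T.counitIso.app _).symm)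

end

end Pool.Agent.H749
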