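import Pool.Agent.H749.S1

set_option autoImplicit false
set_option linter.unusedSectionVars false
set_option linter.unusedVariables false
set_option linter.unusedTactic false

open CategoryTheory CategoryTheory.Limits CategoryTheory.Pretriangulated
open scoped ZeroObject

namespace Pool.Agent.H749

universe v u w t

variable {C : Type u} [Category.{v} C] [Preadditive C] [HasZeroObject C] [HasShift C ℤ]
  [∀ n : ℤ, (shiftFunctor C n).Additive] [Pretriangulated C] [IsTriangulated C]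
variable {k : Type w} [Field k] [Linear k C] [∀ n : ℤ, (shiftFunctor C n).Linear k]
variable {I : Type t}

/-- A family of 2-spherical objects which are semistable for a slicing, pairwise non-orthogonal,
and without morphisms between two different ones of the same phase. -/
structure GFam (k : Type w) [Field k] [Linear k C] [∀ n : ℤ, (shiftFunctor C n).Linear k]
    (σ : Slicing C) (A : I → C) (φ : I → ℝ) : Prop where
  mem : ∀ i, σ.P (φ i) (A i)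
  sph : ∀ i, IsSpherical k (A i)
  stable : ∀ i j, i ≠ j → ∀ n : ℤ, φ i = φ j + n → ∀ f : A i ⟶ (A j)⟦n⟧, f = 0
  conn : ∀ i j, i ≠ j → ∃ (n : ℤ) (f : A i ⟶ (A j)⟦n⟧), f ≠ 0

variable {σ : Slicing C} {A : I → C} {φ : I → ℝ}

theorem GFam.hom_zero (hA : GFam k σ A φ) {i j : I} (hij : i ≠ j) {a b : ℤ}
    (h : φ j + b ≤ φ i + a) (f : (A i)⟦a⟧ ⟶ (A j)⟦b⟧) : f = 0 := by
  rcases lt_or_eq_of_le h with h | h
  · exact σ.hom h (σ.shiftInt _ _ (hA.mem i) a) (σ.shiftInt _ _ (hA.mem j) b) f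
  · refine zero_shift k (A i) (A j) (c := b - a) (by ring) ?_ f
    refine hA.stable i j hij (b - a) ?_
    push_cast
    linarith

theorem GFam.lt_of_ne (hA : GFam k σ A φ) {i j : I} (hij : i ≠ j) {n : ℤ}
    {f : A i ⟶ (A j)⟦n⟧} (hf : f ≠ 0) : φ i < φ j + n := by
  by_contra hcon
  have h1 : (sh0 (A i)).hom ≫ f = 0 := hA.hom_zero hij (by push_cast; linarith) _
  apply hf
  rw [← cancel_epi (sh0 (A i)).hom, h1, comp_zero]

theorem GFam.lt_of_ne' (hA : GFam k σ A φ) {i j : I} (hij : i ≠ j) {n : ℤ}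
    {f : (A j)⟦n⟧ ⟶ A i} (hf : f ≠ 0) : φ j + n < φ i := by
  by_contra hcon
  have h1 : f ≫ (sh0 (A i)).inv = 0 := hA.hom_zero (Ne.symm hij) (by push_cast; linarith) _
  apply hf
  rw [← cancel_mono (sh0 (A i)).inv, h1, zero_comp]

/-- the dual of a non-zero morphism -/
theorem GFam.dual (hA : GFam k σ A φ) {i j : I} {n p : ℤ} (hp : p + 2 = n)
    {f : A i ⟶ (A j)⟦n⟧} (hf : f ≠ 0) : ∃ g : (A j)⟦p⟧ ⟶ A i, g ≠ 0 := by
  by_contra hcon
  push Not at hcon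
  exact hf ((hA.sph j).zero_tgt' hp hcon f)

theorem GFam.conn' (hA : GFam k σ A φ) {i j : I} (hij : i ≠ j) :
    ∃ (p : ℤ) (g : (A j)⟦p⟧ ⟶ A i) (g' : A i ⟶ (A j)⟦p + 2⟧), g ≠ 0 ∧ g' ≠ 0 := by
  obtain ⟨n, f, hf⟩ := hA.conn i j hij
  obtain ⟨p, rfl⟩ : ∃ p : ℤ, p + 2 = n := ⟨n - 2, by ring⟩
  obtain ⟨g, hg⟩ := hA.dual rfl hf
  exact ⟨p, g, f, hg, hf⟩

/-- ready for a third power -/
def Low3 (σ : Slicing C) (S : C) (α : ℝ) (F : C) : Prop :=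
  LowX (tp σ α) S F ∧ LowY (tm σ α) S F

/-- ready for a square -/
def Low2 (σ : Slicing C) (S : C) (α : ℝ) (F : C) : Prop :=
  LowX (tm σ α) S F ∧ LowY (tp σ α) S F

variable (k) in
/-- The phases are congruent, or there are morphisms in two degrees. -/
def Two (A : I → C) (φ : I → ℝ) (i j : I) : Prop :=
  (∃ n : ℤ, φ i = φ j + n) ∨ ∃ n : ℤ, (∃ f : A i ⟶ (A j)⟦n⟧, f ≠ 0) ∧
    ∃ f : A i ⟶ (A j)⟦n + 1⟧, f ≠ 0

theorem GFam.two (hA : GFam k σ A φ) {i j : I} (hij : i ≠ j) (h : Two A φ i j) :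
    (∃ (p : ℤ) (g : (A j)⟦p⟧ ⟶ A i) (g' : A i ⟶ (A j)⟦p + 2⟧), g ≠ 0 ∧ g' ≠ 0 ∧
      φ i - 1 ≤ φ j + p) ∧
    (∃ (p : ℤ) (g : (A j)⟦p⟧ ⟶ A i) (g' : A i ⟶ (A j)⟦p + 2⟧), g ≠ 0 ∧ g' ≠ 0 ∧
      φ j + p ≤ φ i - 1) := by
  rcases h with ⟨n, hn⟩ | ⟨n, ⟨f, hf⟩, ⟨f', hf'⟩⟩
  · obtain ⟨p, g, g', hg, hg'⟩ := hA.conn' hij
    have h1 := hA.lt_of_ne' hij hg
    have h2 := hA.lt_of_ne hij hg'
    have h3 : (p : ℝ) < n := by linarith
    have h4 : (n : ℝ) < ((p + 2 : ℤ) : ℝ) := by linarith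
    have h5 : p < n := by exact_mod_cast h3
    have h6 : n < p + 2 := by exact_mod_cast h4
    have h7 : n = p + 1 := by omega
    subst h7
    push_cast at hn
    exact ⟨⟨p, g, g', hg, hg', by linarith⟩, ⟨p, g, g', hg, hg', by linarith⟩⟩
  · obtain ⟨p, rfl⟩ : ∃ p : ℤ, p + 2 = n := ⟨n - 2, by ring⟩
    obtain ⟨g, hg⟩ := hA.dual rfl hf
    obtain ⟨q, hq⟩ : ∃ q : ℤ, q + 2 = p + 2 + 1 := ⟨p + 1, by ring⟩
    obtain ⟨g₁, hg₁⟩ := hA.dual hq hf'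
    have h1 := hA.lt_of_ne hij hf
    have h2 := hA.lt_of_ne' hij hg₁
    have h3 : (q : ℝ) + 2 = p + 2 + 1 := by exact_mod_cast hq
    push_cast at h1
    rw [← hq] at f'
    refine ⟨⟨q, g₁, ?_⟩, ⟨p, g, f, hg, hf, by linarith⟩⟩
    obtain ⟨q', rfl⟩ : ∃ q' : ℤ, q' = q := ⟨q, rfl⟩
    have h4 : ∃ g' : A i ⟶ (A j)⟦q' + 2⟧, g' ≠ 0 := by
      rw [hq]
      exact ⟨_, hf'⟩
    obtain ⟨g', hg'⟩ := h4
    exact ⟨g', hg₁, hg', by linarith⟩

theorem GFam.prev (hA : GFam k σ A φ) {i j : I} (hij : i ≠ j) {F : C}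
    (h : DN σ (A j) (φ j) F ∨ DP σ (A j) (φ j) F) :
    Low3 σ (A i) (φ i) F ∧ (Two A φ i j → Low2 σ (A i) (φ i) F) := by
  have key : ∀ (p : ℤ) (g : (A j)⟦p⟧ ⟶ A i) (g' : A i ⟶ (A j)⟦p + 2⟧), g ≠ 0 → g' ≠ 0 →
      Low3 σ (A i) (φ i) F ∧ (φ i - 1 ≤ φ j + p → LowX (tm σ (φ i)) (A i) F) ∧
        (φ j + p ≤ φ i - 1 → LowY (tp σ (φ i)) (A i) F) := by
    intro p g g' hg hg'
    have h1 := hA.lt_of_ne' hij hg
    have h2 := hA.lt_of_ne hij hg'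
    push_cast at h2
    rcases h with h | h
    · exact ⟨⟨h.lowX_tp (hA.sph i) (hA.sph j) (hA.mem i) (hA.mem j) hg (by linarith) h1,
        h.lowY_tm (hA.sph i) (hA.sph j) (hA.mem i) (hA.mem j) hg (by linarith) h1⟩,
        fun h3 => h.lowX_tm (hA.sph i) (hA.sph j) (hA.mem i) (hA.mem j) hg (by linarith) h1 h3,
        fun h3 => h.lowY_tp (hA.sph i) (hA.sph j) (hA.mem i) (hA.mem j) hg (by linarith) h1 h3⟩
    · exact ⟨⟨h.lowX_tp (hA.sph i) (hA.sph j) (hA.mem i) (hA.mem j) hg' (by push_cast; linarith)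
          (by push_cast; linarith),
        h.lowY_tm (hA.sph i) (hA.sph j) (hA.mem i) (hA.mem j) hg' (by push_cast; linarith)
          (by push_cast; linarith)⟩,
        fun h3 => h.lowX_tm (hA.sph i) (hA.sph j) (hA.mem i) (hA.mem j) hg'
          (by push_cast; linarith) (by push_cast; linarith) (by push_cast; linarith),
        fun h3 => h.lowY_tp (hA.sph i) (hA.sph j) (hA.mem i) (hA.mem j) hg'
          (by push_cast; linarith) (by push_cast; linarith) (by push_cast; linarith)⟩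
  obtain ⟨p, g, g', hg, hg'⟩ := hA.conn' hij
  refine ⟨(key p g g' hg hg').1, fun h2 => ?_⟩
  obtain ⟨⟨p₁, g₁, g₁', h3, h4, h5⟩, ⟨p₂, g₂, g₂', h6, h7, h8⟩⟩ := hA.two hij h2
  exact ⟨(key p₁ g₁ g₁' h3 h4).2.1 h5, (key p₂ g₂ g₂' h6 h7).2.2 h8⟩

end Pool.Agent.H749
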