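import Pool.Agent.H749.Tri

set_option autoImplicit false
set_option linter.unusedSectionVars false
set_option linter.unusedVariables false

open CategoryTheory CategoryTheory.Limits CategoryTheory.Pretriangulated

namespace Pool.Agent.H749

universe v u w

section

variable (k : Type w) [Field k]

variable {T : Type u} [Category.{v} T] [Preadditive T] [HasZeroObject T] [HasShift T ℤ]
  [∀ n : ℤ, (shiftFunctor T n).Additive] [Pretriangulated T] [Linear k T]
  [∀ n : ℤ, (shiftFunctor T n).Linear k]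

/-- The Euler form of a linear triangulated category: the alternating sum of the dimensions of
the spaces of morphisms `E ⟶ F⟦i⟧`. -/
noncomputable def chi (E F : T) : ℤ :=
  ∑ᶠ i : ℤ, (i.negOnePow : ℤ) * (Module.finrank k (E ⟶ F⟦i⟧) : ℤ)

/-- Transfer of shifts. -/
noncomputable def homShift (E F : T) (i : ℤ) : (E ⟶ F⟦i⟧) ≃ₗ[k] (E⟦-i⟧ ⟶ F) :=
  LinearEquiv.ofBijective
    { toFun := fun g => g⟦-i⟧' ≫ (shiftFunctorCompIsoId T i (-i) (by lia)).hom.app F
      map_add' := by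
        intro g g'
        rw [Functor.map_add, Preadditive.add_comp]
      map_smul' := by
        intro r g
        rw [Functor.map_smul, Linear.smul_comp]
        rfl } (by
    constructor
    · intro g g' h
      have h' : g⟦-i⟧' ≫ (shiftFunctorCompIsoId T i (-i) (by lia)).hom.app F =
        g'⟦-i⟧' ≫ (shiftFunctorCompIsoId T i (-i) (by lia)).hom.app F := h
      rw [cancel_mono] at h'
      exact (shiftFunctor T (-i)).map_injective h'
    · intro g
      obtain ⟨g', hg'⟩ := (shiftFunctor T (-i)).map_surjective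
        (g ≫ (shiftFunctorCompIsoId T i (-i) (by lia)).inv.app F)
      refine ⟨g', ?_⟩
      change g'⟦-i⟧' ≫ (shiftFunctorCompIsoId T i (-i) (by lia)).hom.app F = g
      rw [hg', Category.assoc, Iso.inv_hom_id_app]
      exact Category.comp_id g)

/-- Composition on the left with an isomorphism. -/
def precompEquiv {E E' : T} (e : E ≅ E') (F : T) : (E' ⟶ F) ≃ₗ[k] (E ⟶ F) where
  toFun g := e.hom ≫ g
  map_add' g g' := Preadditive.comp_add _ _ _ _ _ _
  map_smul' r g := Linear.comp_smul _ _ _ _ _ _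
  invFun g := e.inv ≫ g
  left_inv g := by simp
  right_inv g := by simp

/-- Composition on the right with an isomorphism. -/
def postcompEquiv {F F' : T} (e : F ≅ F') (E : T) : (E ⟶ F) ≃ₗ[k] (E ⟶ F') where
  toFun g := g ≫ e.hom
  map_add' g g' := Preadditive.add_comp _ _ _ _ _ _
  map_smul' r g := Linear.smul_comp _ _ _ _ _ _
  invFun g := g ≫ e.inv
  left_inv g := by simp
  right_inv g := by simp

lemma chi_iso_right {E F F' : T} (e : F ≅ F') : chi k E F = chi k E F' := by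
  refine finsum_congr fun i => ?_
  rw [(postcompEquiv k ((shiftFunctor T i).mapIso e) E).finrank_eq]

lemma chi_iso_left {E E' F : T} (e : E ≅ E') : chi k E F = chi k E' F := by
  refine finsum_congr fun i => ?_
  rw [(precompEquiv k e (F⟦i⟧)).finrank_eq]

/-- Finite-dimensionality and boundedness of the morphisms between two objects. -/
structure Nice (E F : T) : Prop where
  fin : ∀ i : ℤ, Module.Finite k (E ⟶ F⟦i⟧)
  bdd : ∃ N : ℤ, ∀ i : ℤ, i < -N ∨ N < i → ∀ g : E ⟶ F⟦i⟧, g = 0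

lemma chi_eq_sum {E F : T} (N : ℤ) (h : ∀ i : ℤ, i < -N ∨ N < i → ∀ g : E ⟶ F⟦i⟧, g = 0) :
    chi k E F = ∑ i ∈ Finset.Icc (-N) N,
      (i.negOnePow : ℤ) * (Module.finrank k (E ⟶ F⟦i⟧) : ℤ) := by
  refine finsum_eq_finsetSum_of_support_subset _ ?_
  intro i hi
  rw [Finset.coe_Icc, Set.mem_Icc]
  by_contra h2
  apply hi
  have h3 : ∀ g : E ⟶ F⟦i⟧, g = 0 := h i (by lia)
  have : Subsingleton (E ⟶ F⟦i⟧) := ⟨fun a b => by rw [h3 a, h3 b]⟩
  change (i.negOnePow : ℤ) * (Module.finrank k (E ⟶ F⟦i⟧) : ℤ) = 0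
  rw [Module.finrank_zero_of_subsingleton]
  simp

/-- Postcomposition. -/
def post (E : T) {X Y : T} (g : X ⟶ Y) : (E ⟶ X) →ₗ[k] (E ⟶ Y) where
  toFun x := x ≫ g
  map_add' x y := Preadditive.add_comp _ _ _ _ _ _
  map_smul' r x := Linear.smul_comp _ _ _ _ _ _

open Opposite in
lemma tri_exact₂ (Δ : Triangle T) (hΔ : Δ ∈ distTriang T) (E : T) (i : ℤ) :
    LinearMap.range (post k E (Δ.mor₁⟦i⟧')) = LinearMap.ker (post k E (Δ.mor₂⟦i⟧')) := by
  have h := (preadditiveCoyoneda.obj (op E)).homologySequence_exact₂ Δ hΔ i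
  rw [ShortComplex.ab_exact_iff] at h
  apply le_antisymm
  · rintro _ ⟨x, rfl⟩
    rw [LinearMap.mem_ker]
    change (x ≫ Δ.mor₁⟦i⟧') ≫ Δ.mor₂⟦i⟧' = 0
    rw [Category.assoc, ← Functor.map_comp, comp_distTriang_mor_zero₁₂ _ hΔ, Functor.map_zero,
      comp_zero]
  · intro x hx
    obtain ⟨y, hy⟩ := h x hx
    exact ⟨y, hy⟩

/-- The connecting morphism after a shift. -/
noncomputable def connT (Δ : Triangle T) (i : ℤ) : Δ.obj₃⟦i⟧ ⟶ Δ.obj₁⟦i + 1⟧ :=
  Δ.mor₃⟦i⟧' ≫ (shiftFunctorAdd' T 1 i (i + 1) (by lia)).inv.app _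

open Opposite in
lemma tri_exact₃ (Δ : Triangle T) (hΔ : Δ ∈ distTriang T) (E : T) (i : ℤ) :
    LinearMap.range (post k E (Δ.mor₂⟦i⟧')) = LinearMap.ker (post k E (connT Δ i)) := by
  have h := (preadditiveCoyoneda.obj (op E)).homologySequence_exact₃ Δ hΔ i (i + 1) rfl
  rw [ShortComplex.ab_exact_iff] at h
  apply le_antisymm
  · rintro _ ⟨x, rfl⟩
    rw [LinearMap.mem_ker]
    change (x ≫ Δ.mor₂⟦i⟧') ≫ Δ.mor₃⟦i⟧' ≫ _ = 0
    rw [Category.assoc, ← Functor.map_comp_assoc, comp_distTriang_mor_zero₂₃ _ hΔ,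
      Functor.map_zero, zero_comp, comp_zero]
  · intro x hx
    obtain ⟨y, hy⟩ := h x ((preadditiveCoyoneda_homologySequenceδ_apply Δ i (i + 1) rfl
      (A := op E) x).trans hx)
    exact ⟨y, hy⟩

open Opposite in
lemma tri_exact₁ (Δ : Triangle T) (hΔ : Δ ∈ distTriang T) (E : T) (i : ℤ) :
    LinearMap.range (post k E (connT Δ i)) = LinearMap.ker (post k E (Δ.mor₁⟦i + 1⟧')) := by
  have h := (preadditiveCoyoneda.obj (op E)).homologySequence_exact₁ Δ hΔ i (i + 1) rfl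
  apply le_antisymm
  · rintro _ ⟨x, rfl⟩
    have h2 := (preadditiveCoyoneda.obj (op E)).homologySequenceδ_comp Δ hΔ i (i + 1) rfl
    have h3 := congrArg (fun g => g x) (congrArg AddCommGrpCat.Hom.hom h2)
    have h4 := preadditiveCoyoneda_homologySequenceδ_apply Δ i (i + 1) rfl (A := op E) x
    rw [LinearMap.mem_ker]
    change (x ≫ connT Δ i) ≫ Δ.mor₁⟦i + 1⟧' = 0
    rw [connT, ← h4]
    exact h3
  · rw [ShortComplex.ab_exact_iff] at h
    intro x hx
    obtain ⟨y, hy⟩ := h x hx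
    refine ⟨y, ?_⟩
    exact (preadditiveCoyoneda_homologySequenceδ_apply Δ i (i + 1) rfl (A := op E) y).symm.trans hy

lemma finite_of_exact {U V W : Type*} [AddCommGroup U] [AddCommGroup V] [AddCommGroup W]
    [Module k U] [Module k V] [Module k W] (f : U →ₗ[k] V) (g : V →ₗ[k] W)
    (h : LinearMap.range f = LinearMap.ker g) (hU : Module.Finite k U) (hW : Module.Finite k W) :
    Module.Finite k V := by
  have : IsNoetherian k U := inferInstance
  have : IsNoetherian k W := inferInstance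
  have : IsNoetherian k V := isNoetherian_of_range_eq_ker f g h
  infer_instance

lemma zero_of_exact {U V W : Type*} [AddCommGroup U] [AddCommGroup V] [AddCommGroup W]
    [Module k U] [Module k V] [Module k W] (f : U →ₗ[k] V) (g : V →ₗ[k] W)
    (h : LinearMap.range f = LinearMap.ker g) (hU : ∀ x : U, x = 0) (hW : ∀ x : W, x = 0)
    (x : V) : x = 0 := by
  have h1 : x ∈ LinearMap.ker g := by rw [LinearMap.mem_ker]; exact hW _
  rw [← h] at h1
  obtain ⟨y, rfl⟩ := h1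
  rw [hU y, map_zero]

lemma Nice.mid {Δ : Triangle T} (hΔ : Δ ∈ distTriang T) {E : T} (h1 : Nice k E Δ.obj₁)
    (h3 : Nice k E Δ.obj₃) : Nice k E Δ.obj₂ where
  fin i := finite_of_exact k _ _ (tri_exact₂ k Δ hΔ E i) (h1.fin i) (h3.fin i)
  bdd := by
    obtain ⟨N, hN⟩ := h1.bdd
    obtain ⟨M, hM⟩ := h3.bdd
    exact ⟨max N M, fun i hi => zero_of_exact k _ _ (tri_exact₂ k Δ hΔ E i) (hN i (by lia))
      (hM i (by lia))⟩

lemma Nice.left {Δ : Triangle T} (hΔ : Δ ∈ distTriang T) {E : T} (h2 : Nice k E Δ.obj₂)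
    (h3 : Nice k E Δ.obj₃) : Nice k E Δ.obj₁ where
  fin i := by
    obtain ⟨j, rfl⟩ : ∃ j, i = j + 1 := ⟨i - 1, by ring⟩
    exact finite_of_exact k _ _ (tri_exact₁ k Δ hΔ E j) (h3.fin j) (h2.fin (j + 1))
  bdd := by
    obtain ⟨N, hN⟩ := h2.bdd
    obtain ⟨M, hM⟩ := h3.bdd
    refine ⟨max N M + 1, fun i hi => ?_⟩
    obtain ⟨j, rfl⟩ : ∃ j, i = j + 1 := ⟨i - 1, by ring⟩
    exact zero_of_exact k _ _ (tri_exact₁ k Δ hΔ E j) (hM j (by lia)) (hN (j + 1) (by lia))

lemma tele_sum (g : ℤ → ℤ) (a b : ℤ) (h : a ≤ b) :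
    ∑ i ∈ Finset.Icc a b, (g i - g (i - 1)) = g b - g (a - 1) := by
  induction b, h using Int.leInduction with
  | base => simp
  | succ b hb ih =>
    have : Finset.Icc a (b + 1) = insert (b + 1) (Finset.Icc a b) := by
      ext i
      simp only [Finset.mem_Icc, Finset.mem_insert]
      lia
    rw [this, Finset.sum_insert (by simp), ih]
    simp

theorem chi_add {Δ : Triangle T} (hΔ : Δ ∈ distTriang T) {E : T} (h1 : Nice k E Δ.obj₁)
    (h2 : Nice k E Δ.obj₂) (h3 : Nice k E Δ.obj₃) :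
    chi k E Δ.obj₂ = chi k E Δ.obj₁ + chi k E Δ.obj₃ := by
  obtain ⟨N₁, hN₁⟩ := h1.bdd
  obtain ⟨N₂, hN₂⟩ := h2.bdd
  obtain ⟨N₃, hN₃⟩ := h3.bdd
  let N := max 0 (max N₁ (max N₂ N₃)) + 1
  have fin1 := h1.fin
  have fin2 := h2.fin
  have fin3 := h3.fin
  rw [chi_eq_sum k N (fun i hi => hN₁ i (by lia)), chi_eq_sum k N (fun i hi => hN₂ i (by lia)),
    chi_eq_sum k N (fun i hi => hN₃ i (by lia))]
  let r : ℤ → ℤ := fun i => Module.finrank k (LinearMap.range (post k E (Δ.mor₁⟦i⟧')))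
  let s : ℤ → ℤ := fun i => Module.finrank k (LinearMap.range (post k E (Δ.mor₂⟦i⟧')))
  let t : ℤ → ℤ := fun i => Module.finrank k (LinearMap.range (post k E (connT Δ i)))
  have e2 : ∀ i, (Module.finrank k (E ⟶ Δ.obj₂⟦i⟧) : ℤ) = r i + s i := by
    intro i
    have h := LinearMap.finrank_range_add_finrank_ker (post k E (Δ.mor₂⟦i⟧'))
    rw [← tri_exact₂ k Δ hΔ E i] at h
    simp only [r, s]
    lia
  have e3 : ∀ i, (Module.finrank k (E ⟶ Δ.obj₃⟦i⟧) : ℤ) = s i + t i := by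
    intro i
    have h := LinearMap.finrank_range_add_finrank_ker (post k E (connT Δ i))
    rw [← tri_exact₃ k Δ hΔ E i] at h
    simp only [s, t]
    lia
  have e1 : ∀ i, (Module.finrank k (E ⟶ Δ.obj₁⟦i + 1⟧) : ℤ) = t i + r (i + 1) := by
    intro i
    have h := LinearMap.finrank_range_add_finrank_ker (post k E (Δ.mor₁⟦i + 1⟧'))
    rw [← tri_exact₁ k Δ hΔ E i] at h
    simp only [r, t]
    lia
  have e1' : ∀ i, (Module.finrank k (E ⟶ Δ.obj₁⟦i⟧) : ℤ) = t (i - 1) + r i := by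
    intro i
    obtain ⟨j, rfl⟩ : ∃ j, i = j + 1 := ⟨i - 1, by ring⟩
    rw [e1 j]
    simp
  simp only [e1', e2, e3]
  have key : ∀ i : ℤ, (i.negOnePow : ℤ) * (t (i - 1) + r i) + (i.negOnePow : ℤ) * (s i + t i) -
      (i.negOnePow : ℤ) * (r i + s i) =
      (i.negOnePow : ℤ) * t i - ((i - 1).negOnePow : ℤ) * t (i - 1) := by
    intro i
    have : ((i - 1).negOnePow : ℤ) = - (i.negOnePow : ℤ) := by
      rw [Int.negOnePow_sub]
      simp
    rw [this]
    ring
  have tele : ∑ i ∈ Finset.Icc (-N) N, ((i.negOnePow : ℤ) * t i -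
      ((i - 1).negOnePow : ℤ) * t (i - 1)) = (N.negOnePow : ℤ) * t N -
        ((-N - 1).negOnePow : ℤ) * t (-N - 1) :=
    tele_sum (fun i => (i.negOnePow : ℤ) * t i) (-N) N (by lia)
  have z : ∀ i, (∀ x : E ⟶ Δ.obj₃⟦i⟧, x = 0) → t i = 0 := by
    intro i hi
    have h5 : post k E (connT Δ i) = 0 := by
      refine LinearMap.ext fun x => ?_
      rw [hi x, map_zero, map_zero]
    simp only [t]
    rw [h5, LinearMap.range_zero, finrank_bot]
    rfl
  have z1 : t N = 0 := z N (hN₃ N (by lia))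
  have z2 : t (-N - 1) = 0 := z (-N - 1) (hN₃ (-N - 1) (by lia))
  rw [z1, z2] at tele
  have h := Finset.sum_congr (rfl : Finset.Icc (-N) N = Finset.Icc (-N) N) (fun i _ => key i)
  rw [tele, Finset.sum_sub_distrib, Finset.sum_add_distrib] at h
  lia


end

end Pool.Agent.H749
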