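import Pool.Agent.H749.Hom

set_option autoImplicit false
set_option linter.unusedSectionVars false
set_option linter.unusedVariables false

open CategoryTheory CategoryTheory.Limits CategoryTheory.Pretriangulated

namespace Pool.Agent.H749

universe v u w

variable {C : Type u} [Category.{v} C] [Preadditive C] [HasZeroObject C] [HasShift C ℤ]
  [∀ n : ℤ, (shiftFunctor C n).Additive] [Pretriangulated C]

theorem Tri.to_mid {A B D S : C} (h : Tri A B D) (hA : ∀ f : S ⟶ A, f = 0)
    (hD : ∀ f : S ⟶ D, f = 0) (f : S ⟶ B) : f = 0 := by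
  obtain ⟨a, b, c, hT⟩ := h
  obtain ⟨g, hg⟩ := Triangle.coyoneda_exact₂ _ hT f (hD _)
  rw [hg, hA g]
  exact zero_comp

theorem Tri.from_mid {A B D S : C} (h : Tri A B D) (hA : ∀ f : A ⟶ S, f = 0)
    (hD : ∀ f : D ⟶ S, f = 0) (f : B ⟶ S) : f = 0 := by
  obtain ⟨a, b, c, hT⟩ := h
  obtain ⟨g, hg⟩ := Triangle.yoneda_exact₂ _ hT f (hA _)
  rw [hg, hD g]
  exact comp_zero

section

variable (k : Type w) [Field k] [Linear k C] [∀ n : ℤ, (shiftFunctor C n).Linear k]

/-- Precomposition. -/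
def pre {X Y : C} (g : X ⟶ Y) (S : C) : (Y ⟶ S) →ₗ[k] (X ⟶ S) where
  toFun x := g ≫ x
  map_add' x y := Preadditive.comp_add _ _ _ _ _ _
  map_smul' r x := Linear.comp_smul _ _ _ _ _ _

/-- If `range f = ker g` the middle dimension is at most the sum of the outer ones. -/
theorem rank_le_of_exact {U V W : Type*} [AddCommGroup U] [AddCommGroup V] [AddCommGroup W]
    [Module k U] [Module k V] [Module k W] (f : U →ₗ[k] V) (g : V →ₗ[k] W)
    (h : LinearMap.range f = LinearMap.ker g) (hU : Module.Finite k U) (hW : Module.Finite k W) :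
    Module.finrank k V ≤ Module.finrank k U + Module.finrank k W := by
  have hV := finite_of_exact k f g h hU hW
  have h1 := LinearMap.finrank_range_add_finrank_ker g
  have h2 := LinearMap.finrank_range_add_finrank_ker f
  have h3 : Module.finrank k (LinearMap.range g) ≤ Module.finrank k W := Submodule.finrank_le _
  rw [← h] at h1
  omega

theorem to_exact {A B D : C} {a : A ⟶ B} {b : B ⟶ D} {c : D ⟶ A⟦(1 : ℤ)⟧}
    (hT : Triangle.mk a b c ∈ distTriang C) (S : C) :
    LinearMap.range (post k S a) = LinearMap.ker (post k S b) := by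
  apply le_antisymm
  · rintro _ ⟨x, rfl⟩
    have h1 : a ≫ b = 0 := comp_distTriang_mor_zero₁₂ _ hT
    change (x ≫ a) ≫ b = 0
    rw [Category.assoc, h1, comp_zero]
  · intro x hx
    obtain ⟨y, hy⟩ := Triangle.coyoneda_exact₂ _ hT x hx
    exact ⟨y, hy.symm⟩

theorem from_exact {A B D : C} {a : A ⟶ B} {b : B ⟶ D} {c : D ⟶ A⟦(1 : ℤ)⟧}
    (hT : Triangle.mk a b c ∈ distTriang C) (S : C) :
    LinearMap.range (pre k b S) = LinearMap.ker (pre k a S) := by
  apply le_antisymm
  · rintro _ ⟨x, rfl⟩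
    have h1 : a ≫ b = 0 := comp_distTriang_mor_zero₁₂ _ hT
    change a ≫ (b ≫ x) = 0
    rw [← Category.assoc, h1, zero_comp]
  · intro x hx
    obtain ⟨y, hy⟩ := Triangle.yoneda_exact₂ _ hT x hx
    exact ⟨y, hy.symm⟩

theorem Tri.to_fin {A B D S : C} (h : Tri A B D) (hA : Module.Finite k (S ⟶ A))
    (hD : Module.Finite k (S ⟶ D)) : Module.Finite k (S ⟶ B) := by
  obtain ⟨a, b, c, hT⟩ := h
  exact finite_of_exact k _ _ (to_exact k hT S) hA hD

theorem Tri.from_fin {A B D S : C} (h : Tri A B D) (hA : Module.Finite k (A ⟶ S))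
    (hD : Module.Finite k (D ⟶ S)) : Module.Finite k (B ⟶ S) := by
  obtain ⟨a, b, c, hT⟩ := h
  exact finite_of_exact k _ _ (from_exact k hT S) hD hA

theorem Tri.to_rank {A B D S : C} (h : Tri A B D) (hA : Module.Finite k (S ⟶ A))
    (hD : Module.Finite k (S ⟶ D)) :
    Module.finrank k (S ⟶ B) ≤ Module.finrank k (S ⟶ A) + Module.finrank k (S ⟶ D) := by
  obtain ⟨a, b, c, hT⟩ := h
  exact rank_le_of_exact k _ _ (to_exact k hT S) hA hD

theorem Tri.from_rank {A B D S : C} (h : Tri A B D) (hA : Module.Finite k (A ⟶ S))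
    (hD : Module.Finite k (D ⟶ S)) :
    Module.finrank k (B ⟶ S) ≤ Module.finrank k (A ⟶ S) + Module.finrank k (D ⟶ S) := by
  obtain ⟨a, b, c, hT⟩ := h
  rw [add_comm]
  exact rank_le_of_exact k _ _ (from_exact k hT S) hD hA

theorem rank_zero_of {X Y : C} (h : ∀ f : X ⟶ Y, f = 0) : Module.finrank k (X ⟶ Y) = 0 := by
  have : Subsingleton (X ⟶ Y) := ⟨fun a b => by rw [h a, h b]⟩
  exact Module.finrank_zero_of_subsingleton

theorem fin_zero_of {X Y : C} (h : ∀ f : X ⟶ Y, f = 0) : Module.Finite k (X ⟶ Y) := by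
  have : Subsingleton (X ⟶ Y) := ⟨fun a b => by rw [h a, h b]⟩
  infer_instance

/-- shifting both entries -/
noncomputable def shiftLin (X Y : C) (n : ℤ) : (X ⟶ Y) ≃ₗ[k] (X⟦n⟧ ⟶ Y⟦n⟧) :=
  LinearEquiv.ofBijective
    { toFun := fun g : X ⟶ Y => g⟦n⟧'
      map_add' := fun g g' => Functor.map_add _
      map_smul' := fun r g => Functor.map_smul _ _ _ }
    ⟨fun g g' h => (shiftFunctor C n).map_injective h,
      fun g => (shiftFunctor C n).map_surjective g⟩

/-- changing both entries by isomorphisms -/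
noncomputable def isoLin {X X' Y Y' : C} (e : X ≅ X') (f : Y ≅ Y') : (X ⟶ Y) ≃ₗ[k] (X' ⟶ Y') :=
  (precompEquiv k e.symm Y).trans (postcompEquiv k f X')

/-- `Hom(X⟦a⟧, Y⟦b⟧) ≃ Hom(X, Y⟦b - a⟧)` -/
noncomputable def shLin (X Y : C) {a b c : ℤ} (h : a + c = b) :
    (X ⟶ Y⟦c⟧) ≃ₗ[k] (X⟦a⟧ ⟶ Y⟦b⟧) :=
  (shiftLin k X (Y⟦c⟧) a).trans (isoLin k (Iso.refl _) (sha Y (by omega)))

/-- the linear equivalence given by a linear equivalence of categories -/
noncomputable def eqvLin (E : C ≌ C) [E.functor.Additive] [E.functor.Linear k] (X Y : C) :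
    (X ⟶ Y) ≃ₗ[k] (E.functor.obj X ⟶ E.functor.obj Y) :=
  LinearEquiv.ofBijective
    { toFun := fun g : X ⟶ Y => E.functor.map g
      map_add' := fun g g' => Functor.map_add _
      map_smul' := fun r g => Functor.map_smul _ _ _ }
    ⟨fun g g' h => E.functor.map_injective h, fun g => E.functor.map_surjective g⟩

end

end Pool.Agent.H749
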