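import Pool.Agent.H749.Tow

set_option autoImplicit false
set_option linter.unusedSectionVars false
set_option linter.unusedVariables false

open CategoryTheory CategoryTheory.Limits CategoryTheory.Pretriangulated
open scoped ZeroObject

namespace Pool.Agent.H749

universe v u w t

variable {C : Type u} [Category.{v} C] [Preadditive C] [HasZeroObject C] [HasShift C ℤ]
  [∀ n : ℤ, (shiftFunctor C n).Additive] [Pretriangulated C] [IsTriangulated C]
variable {k : Type w} [Field k] [Linear k C] [∀ n : ℤ, (shiftFunctor C n).Linear k]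
variable {I : Type t} {S : I → C} (hS : Conf k S)

include hS

omit [IsTriangulated C] in
theorem Conf.En_congr {i : I} {n n' : I →₀ ℕ} (hl : ∀ l, l ≠ i → n' l = n l) :
    En k S i n' = En k S i n := by
  classical
  have hh : ∀ m : I →₀ ℕ, En k S i m = En k S i (m.erase i) := by
    intro m
    conv_lhs => rw [← Finsupp.single_add_erase i m]
    rw [En_add, En_single, hS.ee_self, Nat.mul_zero, Nat.zero_add]
  rw [hh n', hh n]
  congr 1
  ext l
  by_cases hli : l = i
  · subst hli; simp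
  · rw [Finsupp.erase_ne hli, Finsupp.erase_ne hli, hl l hli]

/-- Growth of the multiplicity under the powers of a twist. -/
theorem Conf.powPlus {f : C → C} (hf : Op k f) {i : I} (hp : Plus k S i f) {b : ℤ} {F : C}
    {n : I →₀ ℕ} {s t : ℕ} (h : Tow k S i b F n s t) (K : ℕ) :
    ∃ (b' : ℤ) (n' : I →₀ ℕ) (s' t' : ℕ), Tow k S i b' (f^[K] F) n' s' t' ∧
      (∀ l, l ≠ i → n' l = n l) ∧
      (n i : ℤ) + K * ((En k S i n : ℤ) - 2 * n i) ≤ n' i ∧ (En k S i n = 0 → n i ≤ n' i) ∧
      ((K = 0 ∧ n' i = n i) ∨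
        2 * (s' : ℤ) + ((En k S i n : ℤ) - 2 * n i) + En k S i n ≤ 2 * n' i) := by
  induction K with
  | zero =>
    exact ⟨b, n, s, t, h, fun l _ => rfl, by simp, fun _ => le_refl _, Or.inl ⟨rfl, rfl⟩⟩
  | succ K ih =>
    obtain ⟨b', n', s', t', h', hl, hg, h0, hs⟩ := ih
    obtain ⟨n₂, s₂, t₂, ρ, h2, hl2, hi2, hs2, ht2⟩ := hS.towPlus hf hp h'
    have hE : En k S i n' = En k S i n := hS.En_congr hl
    have htwo := hS.tow_two h'
    have hle := hS.tow_le h'
    rw [hE] at hi2 htwo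
    have key : (n' i : ℤ) + ((En k S i n : ℤ) - 2 * n i) ≤ n₂ i := by
      rcases hs with ⟨rfl, hs⟩ | hs
      · rw [hs] at hi2 ⊢; omega
      · omega
    refine ⟨b' + 1, n₂, s₂, t₂, ?_, ?_, ?_, ?_, Or.inr ?_⟩
    · rw [Function.iterate_succ_apply']; exact h2
    · intro l hli; rw [hl2 l hli, hl l hli]
    · have e1 : ((K + 1 : ℕ) : ℤ) * ((En k S i n : ℤ) - 2 * n i) =
        K * ((En k S i n : ℤ) - 2 * n i) + ((En k S i n : ℤ) - 2 * n i) := by push_cast; ring
      rw [e1]
      linarith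
    · intro hz
      have := h0 hz
      rw [hz] at hi2 htwo
      omega
    · omega

/-- Growth of the multiplicity under the powers of an inverse twist. -/
theorem Conf.powMinus {f : C → C} (hf : Op k f) {i : I} (hp : Minus k S i f) {b : ℤ} {F : C}
    {n : I →₀ ℕ} {s t : ℕ} (h : Tow k S i b F n s t) (K : ℕ) :
    ∃ (b' : ℤ) (n' : I →₀ ℕ) (s' t' : ℕ), Tow k S i b' (f^[K] F) n' s' t' ∧
      (∀ l, l ≠ i → n' l = n l) ∧
      (n i : ℤ) + K * ((En k S i n : ℤ) - 2 * n i) ≤ n' i ∧ (En k S i n = 0 → n i ≤ n' i) ∧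
      ((K = 0 ∧ n' i = n i) ∨
        2 * (t' : ℤ) + ((En k S i n : ℤ) - 2 * n i) + En k S i n ≤ 2 * n' i) := by
  induction K with
  | zero =>
    exact ⟨b, n, s, t, h, fun l _ => rfl, by simp, fun _ => le_refl _, Or.inl ⟨rfl, rfl⟩⟩
  | succ K ih =>
    obtain ⟨b', n', s', t', h', hl, hg, h0, hs⟩ := ih
    obtain ⟨n₂, s₂, t₂, ρ, h2, hl2, hi2, hs2, ht2⟩ := hS.towMinus hf hp h'
    have hE : En k S i n' = En k S i n := hS.En_congr hl
    have htwo := hS.tow_two h'
    have hle := hS.tow_le h'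
    rw [hE] at hi2 htwo
    have key : (n' i : ℤ) + ((En k S i n : ℤ) - 2 * n i) ≤ n₂ i := by
      rcases hs with ⟨rfl, hs⟩ | hs
      · rw [hs] at hi2 ⊢; omega
      · omega
    refine ⟨b', n₂, s₂, t₂, ?_, ?_, ?_, ?_, Or.inr ?_⟩
    · rw [Function.iterate_succ_apply']; exact h2
    · intro l hli; rw [hl2 l hli, hl l hli]
    · have e1 : ((K + 1 : ℕ) : ℤ) * ((En k S i n : ℤ) - 2 * n i) =
        K * ((En k S i n : ℤ) - 2 * n i) + ((En k S i n : ℤ) - 2 * n i) := by push_cast; ring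
      rw [e1]
      linarith
    · intro hz
      have := h0 hz
      rw [hz] at hi2 htwo
      omega
    · omega

omit [IsTriangulated C]

/-! ### Uniqueness for the objects of the family -/

/-- an extension of two non-zero objects of the heart is never one of the `S j` -/
theorem Conf.fil_zero {M : C} {n : I →₀ ℕ} (h : Fil S M n) (hM : IsZero M) : n = 0 := by
  cases h with
  | zero _ _ => rfl
  | ext M' _ j n h1 h2 =>
    exfalso
    -- `M' ≅ S j⟦-1⟧`
    obtain ⟨e⟩ := h2.invRot.iso_of_zero_right hM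
    have h3 : e.inv = 0 := hS.fil_neg' j h1 (-1) (by norm_num) e.inv
    have h4 : IsZero ((S j)⟦(-1 : ℤ)⟧) := by
      rw [IsZero.iff_id_eq_zero, ← e.hom_inv_id, h3, comp_zero]
    have h5 : IsZero (S j) :=
      ((shiftFunctor C (1 : ℤ)).map_isZero h4).of_iso (shz (S j) (by norm_num)).symm
    exact (hS.sph j).not_isZero k h5

theorem Conf.fil_simple {M : C} {n : I →₀ ℕ} (h : Fil S M n) {j : I} (e : M ≅ S j) :
    n = Finsupp.single j 1 := by
  cases h with
  | zero _ hM => exact absurd (hM.of_iso e.symm) ((hS.sph j).not_isZero k)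
  | ext M' _ l n h1 h2 =>
    have h3 : Tri M' (S j) (S l) := h2.iso (Iso.refl _) e (Iso.refl _)
    obtain ⟨a, b, c, hT⟩ := h3
    have hb : b ≠ 0 := by
      rintro rfl
      -- then `S l` is a retract of `M'⟦1⟧`
      obtain ⟨r, hr⟩ := Triangle.yoneda_exact₃ _ hT (𝟙 (S l)) zero_comp
      have hr0 : r = 0 := by
        have h6 : ∀ g : M'⟦(1 : ℤ)⟧ ⟶ S l, g = 0 := by
          intro g
          refine zero_of_equiv (k := k) ⟨(shLin k M' (S l)
            (show (1 : ℤ) + (-1) = 0 by norm_num)).trans (isoLin k (Iso.refl _) (sh0 (S l)))⟩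
            (fun g => ?_) g
          exact hS.fil_neg' l h1 (-1) (by norm_num) g
        exact h6 r
      rw [hr0, comp_zero] at hr
      exact (hS.sph l).not_isZero k ((IsZero.iff_id_eq_zero (S l)).2 hr)
    obtain ⟨hjl, hiso⟩ := hS.isIso hb
    subst hjl
    have hz : IsZero M' := Triangle.isZero₁_of_isIso₂ _ hT hiso
    rw [hS.fil_zero h1 hz, zero_add]

end Pool.Agent.H749
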