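import Pool.Agent.H749.Stat

set_option autoImplicit false
set_option linter.unusedSectionVars false
set_option linter.unusedVariables false

open CategoryTheory CategoryTheory.Limits CategoryTheory.Pretriangulated
open scoped ZeroObject

namespace Pool.Agent.H749

universe v u w t

variable {C : Type u} [Category.{v} C] [Preadditive C] [HasZeroObject C] [HasShift C ℤ]
  [∀ n : ℤ, (shiftFunctor C n).Additive] [Pretriangulated C]
variable {k : Type w} [Field k] [Linear k C] [∀ n : ℤ, (shiftFunctor C n).Linear k]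

section

variable {A B F X Y : C} (hA : ∀ e : A ⟶ A, e ≠ 0 → IsIso e)
  {a : X ⟶ F} {b : F ⟶ Y} {δ : Y ⟶ X⟦(1 : ℤ)⟧} (hT : Triangle.mk a b δ ∈ distTriang C)
  {Q : C → Prop} (t : TP C)

include hA hT

theorem prevX {g : B ⟶ A} (hg : g ≠ 0) (hY : t.R Y) (hvia : ∀ u : B ⟶ F, Via Q u)
    (hQL : ∀ G, Q G → t.L G) (hQA : ∀ G, Q G → ∀ v : G ⟶ A, v = 0)
    (hB : ∀ v : B ⟶ Y⟦(-1 : ℤ)⟧, v = 0) (f : A ⟶ X) (z : X ⟶ A) : f ≫ z = 0 := by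
  by_contra hne
  have hi := hA _ hne
  obtain ⟨G, u, v, hG, huv⟩ := hvia (g ≫ f ≫ a)
  obtain ⟨v', hv'⟩ := TP.lift hT hY (hQL G hG) v
  have h1 : g ≫ f = u ≫ v' := lift_unique hT hB (by
    rw [Category.assoc, Category.assoc, hv', huv])
  have h2 : g ≫ (f ≫ z) = 0 := by
    rw [← Category.assoc, h1, Category.assoc, hQA G hG (v' ≫ z), comp_zero]
  apply hg
  rw [← cancel_mono (f ≫ z), h2, zero_comp]

theorem prevY {g : B ⟶ A} (hg : g ≠ 0) (hvia : ∀ u : B ⟶ F, Via Q u)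
    (hQA : ∀ G, Q G → ∀ v : G ⟶ A, v = 0)
    (hB : ∀ v : B ⟶ X⟦(1 : ℤ)⟧, v = 0) (f : A ⟶ Y) (z : Y ⟶ A) : f ≫ z = 0 := by
  by_contra hne
  have hi := hA _ hne
  obtain ⟨h, hh⟩ := lift_mid hT hB (g ≫ f)
  obtain ⟨G, u, v, hG, huv⟩ := hvia h
  have h2 : g ≫ (f ≫ z) = 0 := by
    rw [← Category.assoc, ← hh, ← huv, Category.assoc, Category.assoc, hQA G hG (v ≫ b ≫ z),
      comp_zero]
  apply hg
  rw [← cancel_mono (f ≫ z), h2, zero_comp]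

theorem nextY {g : A ⟶ B} (hg : g ≠ 0) (hX : t.L X) (hvia : ∀ u : F ⟶ B, Via Q u)
    (hQR : ∀ G, Q G → t.R G) (hQA : ∀ G, Q G → ∀ v : A ⟶ G, v = 0)
    (hB : ∀ v : X⟦(1 : ℤ)⟧ ⟶ B, v = 0) (f : A ⟶ Y) (z : Y ⟶ A) : f ≫ z = 0 := by
  by_contra hne
  have hi := hA _ hne
  obtain ⟨G, u, v, hG, huv⟩ := hvia (b ≫ z ≫ g)
  obtain ⟨u', hu'⟩ := TP.desc hT hX (hQR G hG) u
  have h1 : z ≫ g = u' ≫ v := desc_unique hT hB (by
    rw [← huv, ← hu', Category.assoc])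
  have h2 : (f ≫ z) ≫ g = 0 := by
    rw [Category.assoc, h1, ← Category.assoc, hQA G hG (f ≫ u'), zero_comp]
  apply hg
  rw [← cancel_epi (f ≫ z), h2, comp_zero]

theorem nextX {g : A ⟶ B} (hg : g ≠ 0) (hvia : ∀ u : F ⟶ B, Via Q u)
    (hQA : ∀ G, Q G → ∀ v : A ⟶ G, v = 0)
    (hB : ∀ v : Y⟦(-1 : ℤ)⟧ ⟶ B, v = 0) (f : A ⟶ X) (z : X ⟶ A) : f ≫ z = 0 := by
  by_contra hne
  have hi := hA _ hne
  obtain ⟨h, hh⟩ := desc_mid hT hB (z ≫ g)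
  obtain ⟨G, u, v, hG, huv⟩ := hvia h
  have h2 : (f ≫ z) ≫ g = 0 := by
    rw [Category.assoc, ← hh, ← huv, ← Category.assoc, ← Category.assoc,
      hQA G hG ((f ≫ a) ≫ u), zero_comp]
  apply hg
  rw [← cancel_epi (f ≫ z), h2, comp_zero]

end

end Pool.Agent.H749
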