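import Pool.Agent.H749.GStat

set_option autoImplicit false
set_option linter.unusedSectionVars false
set_option linter.unusedVariables false
set_option linter.unusedTactic false

open CategoryTheory CategoryTheory.Limits CategoryTheory.Pretriangulated
open scoped ZeroObject

namespace Pool.Agent.H749

universe v u w t

variable {C : Type u} [Category.{v} C] [Preadditive C] [HasZeroObject C] [HasShift C ℤ]
  [∀ n : ℤ, (shiftFunctor C n).Additive] [Pretriangulated C] [IsTriangulated C]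
variable {k : Type w} [Field k] [Linear k C] [∀ n : ℤ, (shiftFunctor C n).Linear k]
variable {σ : Slicing C}

theorem shift_src_ne {A B : C} {p : ℤ} (g : B⟦p⟧ ⟶ A) (hg : g ≠ 0) (n : ℤ) :
    (sha B (rfl : p + n = p + n)).inv ≫ g⟦n⟧' ≠ 0 := by
  intro h
  apply hg
  apply (shiftFunctor C n).map_injective
  rw [Functor.map_zero, ← cancel_epi (sha B (rfl : p + n = p + n)).inv, h, comp_zero]

theorem shift_tgt_ne {A B : C} {p : ℤ} (g : A ⟶ B⟦p⟧) (hg : g ≠ 0) (n : ℤ) :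
    g⟦n⟧' ≫ (sha B (rfl : p + n = p + n)).hom ≠ 0 := by
  intro h
  apply hg
  apply (shiftFunctor C n).map_injective
  rw [Functor.map_zero, ← cancel_mono (sha B (rfl : p + n = p + n)).hom, h, zero_comp]

section

variable {A B : C} (hA : IsSpherical k A) (hB : IsSpherical k B) {α β : ℝ} (hα : σ.P α A)
  (hβ : σ.P β B) {F : C}

include hA hB hα hβ

section

variable (h : DN σ B β F) {p : ℤ} {g : B⟦p⟧ ⟶ A} (hg : g ≠ 0) (h1 : α - 2 < β + p)
  (h2 : β + p < α)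

include h hg h1 h2

theorem DN.lowX_tp : LowX (tp σ α) A F := by
  intro n X Y a b δ hX hY hT f z
  refine prevX (Q := (tm σ β (p + n + 2)).L) (fun e he => hA.sh_isIso e he) hT
    (tp σ α n) (shift_src_ne g hg n) hY (h (p + n) (p + n + 2) rfl) (fun G hG => ?_)
    (fun G hG v => ?_) (fun v => ?_) f z
  · refine Slicing.Ext.mono hG fun ψ (hψ : β + ((p + n + 2 : ℤ) : ℝ) ≤ ψ) => ?_
    change α + (n : ℝ) - 1 < ψ
    push_cast at hψ
    linarith
  · refine Slicing.Ext.hom_from hG (σ.shiftInt α A hα n)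
      (fun ψ (hψ : β + ((p + n + 2 : ℤ) : ℝ) ≤ ψ) => ?_) v
    push_cast at hψ
    linarith
  · have hY' : σ.Ext (fun x => x ≤ α + (n : ℝ) - 2) (Y⟦(-1 : ℤ)⟧) :=
      Slicing.Ext.shiftInt hY (-1) fun ψ (hψ : ¬ α + (n : ℝ) - 1 < ψ) => by
        push_cast
        linarith
    refine Slicing.Ext.hom_to (σ.shiftInt β B hβ (p + n)) hY' (fun ψ hψ => ?_) v
    push_cast
    linarith

theorem DN.lowX_tm (h3 : α - 1 ≤ β + p) : LowX (tm σ α) A F := by
  intro n X Y a b δ hX hY hT f z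
  refine prevX (Q := (tm σ β (p + n + 2)).L) (fun e he => hA.sh_isIso e he) hT
    (tm σ α n) (shift_src_ne g hg n) hY (h (p + n) (p + n + 2) rfl) (fun G hG => ?_)
    (fun G hG v => ?_) (fun v => ?_) f z
  · refine Slicing.Ext.mono hG fun ψ (hψ : β + ((p + n + 2 : ℤ) : ℝ) ≤ ψ) => ?_
    change α + (n : ℝ) ≤ ψ
    push_cast at hψ
    linarith
  · refine Slicing.Ext.hom_from hG (σ.shiftInt α A hα n)
      (fun ψ (hψ : β + ((p + n + 2 : ℤ) : ℝ) ≤ ψ) => ?_) v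
    push_cast at hψ
    linarith
  · have hY' : σ.Ext (fun x => x < α + (n : ℝ) - 1) (Y⟦(-1 : ℤ)⟧) :=
      Slicing.Ext.shiftInt hY (-1) fun ψ (hψ : ¬ α + (n : ℝ) ≤ ψ) => by
        push_cast
        linarith
    refine Slicing.Ext.hom_to (σ.shiftInt β B hβ (p + n)) hY' (fun ψ hψ => ?_) v
    push_cast
    linarith

theorem DN.lowY_tm : LowY (tm σ α) A F := by
  intro n m hm X Y a b δ hX hY hT f z
  subst hm
  refine prevY (Q := (tm σ β (p + n + 2)).L) (fun e he => hA.sh_isIso e he) hT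
    (shift_src_ne g hg n) (h (p + n) (p + n + 2) rfl) (fun G hG v => ?_) (fun v => ?_) f z
  · refine Slicing.Ext.hom_from hG (σ.shiftInt α A hα n)
      (fun ψ (hψ : β + ((p + n + 2 : ℤ) : ℝ) ≤ ψ) => ?_) v
    push_cast at hψ
    linarith
  · refine hB.zero_src' (d := p + n + 2) rfl (fun y => ?_) v
    have hX' : σ.Ext (fun x => α + (n : ℝ) + 2 ≤ x) (X⟦(1 : ℤ)⟧) :=
      Slicing.Ext.shiftInt hX 1 fun ψ (hψ : α + ((n + 1 : ℤ) : ℝ) ≤ ψ) => by
        push_cast at hψ ⊢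
        linarith
    refine Slicing.Ext.hom_from hX' (σ.shiftInt β B hβ (p + n + 2)) (fun ψ hψ => ?_) y
    push_cast
    linarith

theorem DN.lowY_tp (h3 : β + p ≤ α - 1) : LowY (tp σ α) A F := by
  intro n m hm X Y a b δ hX hY hT f z
  subst hm
  refine prevY (Q := (tm σ β (p + n + 2)).L) (fun e he => hA.sh_isIso e he) hT
    (shift_src_ne g hg n) (h (p + n) (p + n + 2) rfl) (fun G hG v => ?_) (fun v => ?_) f z
  · refine Slicing.Ext.hom_from hG (σ.shiftInt α A hα n)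
      (fun ψ (hψ : β + ((p + n + 2 : ℤ) : ℝ) ≤ ψ) => ?_) v
    push_cast at hψ
    linarith
  · refine hB.zero_src' (d := p + n + 2) rfl (fun y => ?_) v
    have hX' : σ.Ext (fun x => α + (n : ℝ) + 1 < x) (X⟦(1 : ℤ)⟧) :=
      Slicing.Ext.shiftInt hX 1 fun ψ (hψ : α + ((n + 1 : ℤ) : ℝ) - 1 < ψ) => by
        push_cast at hψ ⊢
        linarith
    refine Slicing.Ext.hom_from hX' (σ.shiftInt β B hβ (p + n + 2)) (fun ψ hψ => ?_) y
    push_cast
    linarith

end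

section

variable (h : DP σ B β F) {p : ℤ} {g : A ⟶ B⟦p⟧} (hg : g ≠ 0) (h1 : α < β + p)
  (h2 : β + p < α + 2)

include h hg h1 h2

theorem DP.lowX_tp : LowX (tp σ α) A F := by
  intro n X Y a b δ hX hY hT f z
  refine nextX (Q := (tp σ β (p + n + 1 - 2)).R) (fun e he => hA.sh_isIso e he) hT
    (shift_tgt_ne g hg n) (h (p + n) (p + n + 1 - 2) rfl) (fun G hG v => ?_) (fun v => ?_) f z
  · refine Slicing.Ext.hom_to (σ.shiftInt α A hα n) hG
      (fun ψ (hψ : ¬ β + ((p + n + 1 - 2 : ℤ) : ℝ) - 1 < ψ) => ?_) v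
    push_cast at hψ
    linarith
  · refine hB.zero_tgt' (c := p + n - 2) (by ring) (fun y => ?_) v
    have hY' : σ.Ext (fun x => x ≤ α + (n : ℝ) - 2) (Y⟦(-1 : ℤ)⟧) :=
      Slicing.Ext.shiftInt hY (-1) fun ψ (hψ : ¬ α + (n : ℝ) - 1 < ψ) => by
        push_cast
        linarith
    refine Slicing.Ext.hom_to (σ.shiftInt β B hβ (p + n - 2)) hY' (fun ψ hψ => ?_) y
    push_cast
    linarith

theorem DP.lowX_tm (h3 : α + 1 ≤ β + p) : LowX (tm σ α) A F := by
  intro n X Y a b δ hX hY hT f z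
  refine nextX (Q := (tp σ β (p + n + 1 - 2)).R) (fun e he => hA.sh_isIso e he) hT
    (shift_tgt_ne g hg n) (h (p + n) (p + n + 1 - 2) rfl) (fun G hG v => ?_) (fun v => ?_) f z
  · refine Slicing.Ext.hom_to (σ.shiftInt α A hα n) hG
      (fun ψ (hψ : ¬ β + ((p + n + 1 - 2 : ℤ) : ℝ) - 1 < ψ) => ?_) v
    push_cast at hψ
    linarith
  · refine hB.zero_tgt' (c := p + n - 2) (by ring) (fun y => ?_) v
    have hY' : σ.Ext (fun x => x < α + (n : ℝ) - 1) (Y⟦(-1 : ℤ)⟧) :=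
      Slicing.Ext.shiftInt hY (-1) fun ψ (hψ : ¬ α + (n : ℝ) ≤ ψ) => by
        push_cast
        linarith
    refine Slicing.Ext.hom_to (σ.shiftInt β B hβ (p + n - 2)) hY' (fun ψ hψ => ?_) y
    push_cast
    linarith

theorem DP.lowY_tm : LowY (tm σ α) A F := by
  intro n m hm X Y a b δ hX hY hT f z
  subst hm
  refine nextY (Q := (tp σ β (p + n + 1 - 2)).R) (fun e he => hA.sh_isIso e he) hT
    (tm σ α (n + 1)) (shift_tgt_ne g hg n) hX (h (p + n) (p + n + 1 - 2) rfl)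
    (fun G hG => ?_) (fun G hG v => ?_) (fun v => ?_) f z
  · refine Slicing.Ext.mono hG fun ψ (hψ : ¬ β + ((p + n + 1 - 2 : ℤ) : ℝ) - 1 < ψ) => ?_
    change ¬ α + ((n + 1 : ℤ) : ℝ) ≤ ψ
    push_cast at hψ ⊢
    linarith
  · refine Slicing.Ext.hom_to (σ.shiftInt α A hα n) hG
      (fun ψ (hψ : ¬ β + ((p + n + 1 - 2 : ℤ) : ℝ) - 1 < ψ) => ?_) v
    push_cast at hψ
    linarith
  · have hX' : σ.Ext (fun x => α + (n : ℝ) + 2 ≤ x) (X⟦(1 : ℤ)⟧) :=
      Slicing.Ext.shiftInt hX 1 fun ψ (hψ : α + ((n + 1 : ℤ) : ℝ) ≤ ψ) => by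
        push_cast at hψ ⊢
        linarith
    refine Slicing.Ext.hom_from hX' (σ.shiftInt β B hβ (p + n)) (fun ψ hψ => ?_) v
    push_cast
    linarith

theorem DP.lowY_tp (h3 : β + p ≤ α + 1) : LowY (tp σ α) A F := by
  intro n m hm X Y a b δ hX hY hT f z
  subst hm
  refine nextY (Q := (tp σ β (p + n + 1 - 2)).R) (fun e he => hA.sh_isIso e he) hT
    (tp σ α (n + 1)) (shift_tgt_ne g hg n) hX (h (p + n) (p + n + 1 - 2) rfl)
    (fun G hG => ?_) (fun G hG v => ?_) (fun v => ?_) f z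
  · refine Slicing.Ext.mono hG fun ψ (hψ : ¬ β + ((p + n + 1 - 2 : ℤ) : ℝ) - 1 < ψ) => ?_
    change ¬ α + ((n + 1 : ℤ) : ℝ) - 1 < ψ
    push_cast at hψ ⊢
    linarith
  · refine Slicing.Ext.hom_to (σ.shiftInt α A hα n) hG
      (fun ψ (hψ : ¬ β + ((p + n + 1 - 2 : ℤ) : ℝ) - 1 < ψ) => ?_) v
    push_cast at hψ
    linarith
  · have hX' : σ.Ext (fun x => α + (n : ℝ) + 1 < x) (X⟦(1 : ℤ)⟧) :=
      Slicing.Ext.shiftInt hX 1 fun ψ (hψ : α + ((n + 1 : ℤ) : ℝ) - 1 < ψ) => by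
        push_cast at hψ ⊢
        linarith
    refine Slicing.Ext.hom_from hX' (σ.shiftInt β B hβ (p + n)) (fun ψ hψ => ?_) v
    push_cast
    linarith

end

end

end Pool.Agent.H749
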