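import Pool.Agent.H749.TP

set_option autoImplicit false
set_option linter.unusedSectionVars false
set_option linter.unusedVariables false

open CategoryTheory CategoryTheory.Limits CategoryTheory.Pretriangulated
open scoped ZeroObject

namespace Pool.Agent.H749

universe v u w t

variable {C : Type u} [Category.{v} C] [Preadditive C] [HasZeroObject C] [HasShift C ℤ]
  [∀ n : ℤ, (shiftFunctor C n).Additive] [Pretriangulated C]

/-- `HN P ψ X`: the object `X` has a finite filtration `0 = E₀ → E₁ → ⋯ → Eₙ = X` whose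
successive quotients lie in `P φ₁`, ..., `P φₙ` with `φ₁ > ⋯ > φₙ = ψ` (or `X` is zero). -/
inductive HN (P : ℝ → C → Prop) : ℝ → C → Prop
  | zero (ψ : ℝ) (X : C) : IsZero X → HN P ψ X
  | cons (ψ ψ' : ℝ) (X' X M : C) : ψ < ψ' → HN P ψ' X' → P ψ M → Tri X' X M → HN P ψ X

variable (C) in
/-- A slicing of a triangulated category. -/
structure Slicing where
  P : ℝ → C → Prop
  iso : ∀ {φ : ℝ} {X Y : C}, P φ X → (X ≅ Y) → P φ Y
  shift : ∀ (φ : ℝ) (X : C), P (φ + 1) (X⟦(1 : ℤ)⟧) ↔ P φ X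
  hom : ∀ {φ ψ : ℝ} {X Y : C}, ψ < φ → P φ X → P ψ Y → ∀ f : X ⟶ Y, f = 0
  hn : ∀ X : C, ∃ ψ : ℝ, HN P ψ X

variable (σ : Slicing C)

namespace Slicing

theorem shift' (φ : ℝ) (X : C) (h : σ.P φ X) : σ.P (φ - 1) (X⟦(-1 : ℤ)⟧) := by
  rw [← σ.shift]
  have e : X⟦(-1 : ℤ)⟧⟦(1 : ℤ)⟧ ≅ X := shz X (by norm_num)
  have h2 : φ - 1 + 1 = φ := by ring
  rw [h2]
  exact σ.iso h e.symm

theorem shiftNat (φ : ℝ) (X : C) (h : σ.P φ X) (n : ℕ) : σ.P (φ + n) (X⟦(n : ℤ)⟧) := by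
  induction n with
  | zero =>
    have h2 : φ + ((0 : ℕ) : ℝ) = φ := by simp
    rw [h2]
    exact σ.iso h ((sh0 X).symm ≪≫ (shiftFunctorZero' C (((0 : ℕ) : ℤ)) (by simp) ≪≫
            (shiftFunctorZero C ℤ).symm).symm.app X)
  | succ n ih =>
    have h2 : φ + ((n + 1 : ℕ) : ℝ) = φ + n + 1 := by push_cast; ring
    rw [h2]
    exact σ.iso ((σ.shift _ _).2 ih) (sha X (by push_cast; ring))

theorem shiftNeg (φ : ℝ) (X : C) (h : σ.P φ X) (n : ℕ) : σ.P (φ - n) (X⟦-(n : ℤ)⟧) := by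
  induction n with
  | zero =>
    have h2 : φ - ((0 : ℕ) : ℝ) = φ := by simp
    rw [h2]
    exact σ.iso h ((sh0 X).symm ≪≫ (shiftFunctorZero' C (-((0 : ℕ) : ℤ)) (by simp) ≪≫
            (shiftFunctorZero C ℤ).symm).symm.app X)
  | succ n ih =>
    have h2 : φ - ((n + 1 : ℕ) : ℝ) = φ - n - 1 := by push_cast; ring
    rw [h2]
    exact σ.iso (σ.shift' _ _ ih) (sha X (by push_cast; ring))

theorem shiftInt (φ : ℝ) (X : C) (h : σ.P φ X) (n : ℤ) : σ.P (φ + n) (X⟦n⟧) := by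
  rcases Int.natAbs_eq n with hn | hn
  · have h1 := σ.shiftNat φ X h n.natAbs
    rw [← hn] at h1
    have h2 : ((n.natAbs : ℕ) : ℝ) = (n : ℝ) :=
      (Int.cast_natCast n.natAbs).symm.trans (congrArg (fun m : ℤ => (m : ℝ)) hn.symm)
    rwa [h2] at h1
  · have h1 := σ.shiftNeg φ X h n.natAbs
    rw [← hn] at h1
    have h3 : (n : ℝ) = -((n.natAbs : ℕ) : ℝ) :=
      (congrArg (fun m : ℤ => (m : ℝ)) hn).trans (by rw [Int.cast_neg, Int.cast_natCast])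
    have h2 : φ - ((n.natAbs : ℕ) : ℝ) = φ + (n : ℝ) := by rw [h3]; ring
    rwa [h2] at h1

/-- Iterated extensions of objects of the categories `P ψ` with `ψ` in `U`. -/
inductive Ext (U : ℝ → Prop) : C → Prop
  | zero (X : C) : IsZero X → Ext U X
  | ext (X' X M : C) (ψ : ℝ) : Ext U X' → U ψ → σ.P ψ M → Tri X' X M → Ext U X

variable {σ}

theorem Ext.iso {U : ℝ → Prop} {X Y : C} (h : σ.Ext U X) (e : X ≅ Y) : σ.Ext U Y := by
  cases h with
  | zero _ hX => exact Ext.zero _ (hX.of_iso e.symm)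
  | ext X' _ M ψ h1 h2 h3 h4 => exact Ext.ext _ _ _ _ h1 h2 h3 (h4.iso (Iso.refl _) e (Iso.refl _))

theorem Ext.mono {U V : ℝ → Prop} {X : C} (h : σ.Ext U X) (hUV : ∀ ψ, U ψ → V ψ) :
    σ.Ext V X := by
  induction h with
  | zero X hX => exact Ext.zero _ hX
  | ext X' X M ψ h1 h2 h3 h4 ih => exact Ext.ext _ _ _ _ ih (hUV _ h2) h3 h4

theorem Ext.of {U : ℝ → Prop} {X : C} {ψ : ℝ} (h : σ.P ψ X) (hU : U ψ) : σ.Ext U X :=
  Ext.ext 0 X X ψ (Ext.zero _ (isZero_zero C)) hU h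
    (Tri.zero_left (isZero_zero C) (Iso.refl _))

theorem Ext.hom_to {U : ℝ → Prop} {X Y : C} {φ : ℝ} (hX : σ.P φ X) (hY : σ.Ext U Y)
    (h : ∀ ψ, U ψ → ψ < φ) (f : X ⟶ Y) : f = 0 := by
  induction hY with
  | zero Y hY => exact hY.eq_of_tgt f 0
  | ext X' X M ψ h1 h2 h3 h4 ih => exact h4.to_mid ih (σ.hom (h _ h2) hX h3) f

theorem Ext.hom_zero {U V : ℝ → Prop} {X Y : C} (hX : σ.Ext U X) (hY : σ.Ext V Y)
    (h : ∀ φ ψ, U φ → V ψ → ψ < φ) (f : X ⟶ Y) : f = 0 := by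
  induction hX with
  | zero X hX => exact hX.eq_of_src f 0
  | ext X' X M ψ h1 h2 h3 h4 ih =>
    exact h4.from_mid ih (fun g => Ext.hom_to h3 hY (fun ψ' => h ψ ψ' h2) g) f

theorem Ext.hom_from {U : ℝ → Prop} {X Y : C} {φ : ℝ} (hX : σ.Ext U X) (hY : σ.P φ Y)
    (h : ∀ ψ, U ψ → φ < ψ) (f : X ⟶ Y) : f = 0 := by
  induction hX with
  | zero Y hX => exact hX.eq_of_src f 0
  | ext X' X M ψ h1 h2 h3 h4 ih => exact h4.from_mid ih (σ.hom (h _ h2) h3 hY) f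

theorem Ext.shiftInt {U V : ℝ → Prop} {X : C} (h : σ.Ext U X) (n : ℤ)
    (hUV : ∀ ψ, U ψ → V (ψ + n)) : σ.Ext V (X⟦n⟧) := by
  induction h with
  | zero X hX => exact Ext.zero _ ((shiftFunctor C n).map_isZero hX)
  | ext X' X M ψ h1 h2 h3 h4 ih =>
    exact Ext.ext _ _ _ _ ih (hUV _ h2) (σ.shiftInt _ _ h3 n) (h4.shift n)

theorem Ext.of_hn {ψ : ℝ} {X : C} (h : HN σ.P ψ X) : σ.Ext (fun x => ψ ≤ x) X := by
  induction h with
  | zero ψ X hX => exact Ext.zero _ hX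
  | cons ψ ψ' X' X M h1 h2 h3 h4 ih =>
    exact Ext.ext _ _ _ ψ (ih.mono fun x hx => by linarith) le_rfl h3 h4

section

variable [IsTriangulated C]

theorem Ext.app {U : ℝ → Prop} {A X B : C} (hA : σ.Ext U A) (hB : σ.Ext U B)
    (h : Tri A X B) : σ.Ext U X := by
  induction hB generalizing X with
  | zero N hN =>
    obtain ⟨e⟩ := h.iso_of_zero_right hN
    exact hA.iso e
  | ext N' N M ψ h1 h2 h3 h4 ih =>
    obtain ⟨Z, hZ, hZX⟩ := Tri.assoc₁ h h4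
    exact Ext.ext _ _ _ _ (ih hZ) h2 h3 hZX

theorem exists_cut (U : ℝ → Prop) (hU : ∀ x y, x ≤ y → U x → U y) {ψ : ℝ} {X : C}
    (h : HN σ.P ψ X) :
    ∃ A B : C, σ.Ext U A ∧ σ.Ext (fun x => ¬ U x) B ∧ Tri A X B := by
  induction h with
  | zero ψ X hX =>
    exact ⟨0, X, Ext.zero _ (isZero_zero C), Ext.zero _ hX,
      Tri.zero_left (isZero_zero C) (Iso.refl _)⟩
  | cons ψ ψ' X' X M h1 h2 h3 h4 ih =>
    by_cases hψ : U ψ
    · refine ⟨X, 0, ?_, Ext.zero _ (isZero_zero C),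
        Tri.zero_right (isZero_zero C) (Iso.refl _)⟩
      exact Ext.ext _ _ _ ψ ((Ext.of_hn h2).mono fun x hx => hU ψ x (by linarith) hψ) hψ h3 h4
    · obtain ⟨A, B, hA, hB, hT⟩ := ih
      obtain ⟨Y, hY, hYM⟩ := Tri.assoc₂ h4 hT
      exact ⟨A, Y, hA, Ext.ext _ _ _ ψ hB hψ h3 hYM, hY⟩

variable (σ)

/-- The t-structure given by an upper set of phases. -/
def cut (U : ℝ → Prop) (hU : ∀ x y, x ≤ y → U x → U y) : TP C where
  L := σ.Ext U
  R := σ.Ext (fun x => ¬ U x)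
  isoL := Ext.iso
  isoR := Ext.iso
  hom hX hY f := Ext.hom_zero hX hY (fun φ ψ h1 h2 => by
    by_contra h
    exact h2 (hU φ ψ (not_lt.1 h) h1)) f
  shL h := h.shiftInt 1 fun ψ hψ => hU ψ _ (by push_cast; linarith) hψ
  shR h := h.shiftInt (-1) fun ψ hψ hψ' => hψ (hU _ ψ (by push_cast; linarith) hψ')
  tri X := by
    obtain ⟨ψ, h⟩ := σ.hn X
    exact exists_cut U hU h

/-- phases `≥ a` and phases `< a` -/
def ge (a : ℝ) : TP C := σ.cut (fun x => a ≤ x) fun x y h h' => le_trans h' h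

/-- phases `> a` and phases `≤ a` -/
def gt (a : ℝ) : TP C := σ.cut (fun x => a < x) fun x y h h' => lt_of_lt_of_le h' h

end

end Slicing

end Pool.Agent.H749
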