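import Pool.Agent.H749.AmpR

set_option autoImplicit false
set_option linter.unusedSectionVars false
set_option linter.unusedVariables false

open CategoryTheory CategoryTheory.Limits CategoryTheory.Pretriangulated
open scoped ZeroObject

namespace Pool.Agent.H749

universe v u w t

variable {C : Type u} [Category.{v} C] [Preadditive C] [HasZeroObject C] [HasShift C ℤ]
  [∀ n : ℤ, (shiftFunctor C n).Additive] [Pretriangulated C]
variable {k : Type w} [Field k] [Linear k C] [∀ n : ℤ, (shiftFunctor C n).Linear k]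

theorem IsSpherical.selfNeg {S : C} (hS : IsSpherical k S) (n : ℤ)
    (f : S⟦n⟧⟦(-1 : ℤ)⟧ ⟶ S⟦n⟧) : f = 0 := by
  rw [← cancel_epi (sha S (show n + -1 = n - 1 by ring)).inv, comp_zero]
  exact hS.sh_zero (by omega) (by omega) _

theorem IsSpherical.selfPos {S : C} (hS : IsSpherical k S) (n : ℤ)
    (f : S⟦n⟧ ⟶ S⟦n⟧⟦(1 : ℤ)⟧) : f = 0 := by
  rw [← cancel_mono (sha S (show n + 1 = n + 1 from rfl)).hom, zero_comp]
  exact hS.sh_zero (by omega) (by omega) _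

/-- The morphism `f` factors through an object with the property `Q`. -/
def Via (Q : C → Prop) {X Y : C} (f : X ⟶ Y) : Prop :=
  ∃ (G : C) (a : X ⟶ G) (b : G ⟶ Y), Q G ∧ a ≫ b = f

theorem Via.mono {Q Q' : C → Prop} {X Y : C} {f : X ⟶ Y} (h : Via Q f) (hQ : ∀ G, Q G → Q' G) :
    Via Q' f := by
  obtain ⟨G, a, b, h1, h2⟩ := h
  exact ⟨G, a, b, hQ G h1, h2⟩

theorem Via.comp {Q : C → Prop} {X Y Z : C} {f : X ⟶ Y} (h : Via Q f) (g : Y ⟶ Z) :
    Via Q (f ≫ g) := by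
  obtain ⟨G, a, b, h1, h2⟩ := h
  exact ⟨G, a, b ≫ g, h1, by rw [← Category.assoc, h2]⟩

theorem Via.precomp {Q : C → Prop} {X Y Z : C} {f : X ⟶ Y} (h : Via Q f) (g : Z ⟶ X) :
    Via Q (g ≫ f) := by
  obtain ⟨G, a, b, h1, h2⟩ := h
  exact ⟨G, g ≫ a, b, h1, by rw [Category.assoc, h2]⟩

/-- No shift of `S` splits off the lower truncations. -/
def LowX (τ : ℤ → TP C) (S F : C) : Prop :=
  ∀ (n : ℤ) (X Y : C) (a : X ⟶ F) (b : F ⟶ Y) (δ : Y ⟶ X⟦(1 : ℤ)⟧), (τ n).L X → (τ n).R Y →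
    Triangle.mk a b δ ∈ distTriang C → ∀ (f : S⟦n⟧ ⟶ X) (z : X ⟶ S⟦n⟧), f ≫ z = 0

/-- No shift of `S` splits off the upper truncations. -/
def LowY (τ : ℤ → TP C) (S F : C) : Prop :=
  ∀ (n m : ℤ), n + 1 = m → ∀ (X Y : C) (a : X ⟶ F) (b : F ⟶ Y) (δ : Y ⟶ X⟦(1 : ℤ)⟧),
    (τ m).L X → (τ m).R Y →
    Triangle.mk a b δ ∈ distTriang C → ∀ (f : S⟦n⟧ ⟶ Y) (z : Y ⟶ S⟦n⟧), f ≫ z = 0

/-- Every morphism from `S⟦n⟧` factors through the aisle `τ (n + m)`. -/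
def FlX (τ : ℤ → TP C) (S F : C) (m : ℤ) : Prop :=
  ∀ (n l : ℤ), n + m = l → ∀ f : S⟦n⟧ ⟶ F, Via (τ l).L f

/-- Every morphism to `S⟦n⟧` factors through the coaisle `τ (n + 1 - m)`. -/
def FlY (τ : ℤ → TP C) (S F : C) (m : ℤ) : Prop :=
  ∀ (n l : ℤ), n + 1 - m = l → ∀ f : F ⟶ S⟦n⟧, Via (τ l).R f

theorem FlX.iso {τ : ℤ → TP C} {S F F' : C} {m : ℤ} (h : FlX τ S F m) (e : F ≅ F') :
    FlX τ S F' m := by
  intro n l hl f
  have h1 := (h n l hl (f ≫ e.inv)).comp e.hom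
  rwa [Category.assoc, e.inv_hom_id, Category.comp_id] at h1

theorem FlY.iso {τ : ℤ → TP C} {S F F' : C} {m : ℤ} (h : FlY τ S F m) (e : F ≅ F') :
    FlY τ S F' m := by
  intro n l hl f
  have h1 := (h n l hl (e.hom ≫ f)).precomp e.inv
  rwa [← Category.assoc, e.inv_hom_id, Category.id_comp] at h1

theorem tri_mid_iso {X F Y F' : C} {a : X ⟶ F} {b : F ⟶ Y} {δ : Y ⟶ X⟦(1 : ℤ)⟧}
    (hT : Triangle.mk a b δ ∈ distTriang C) (e : F ≅ F') :
    Triangle.mk (a ≫ e.hom) (e.inv ≫ b) δ ∈ distTriang C := by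
  refine isomorphic_distinguished _ hT _ (Triangle.isoMk _ _ (Iso.refl _) e.symm (Iso.refl _)
    ?_ ?_ ?_)
  · change (a ≫ e.hom) ≫ e.inv = 𝟙 _ ≫ a
    simp
  · change (e.inv ≫ b) ≫ 𝟙 _ = e.inv ≫ b
    simp
  · change δ ≫ (𝟙 X)⟦(1 : ℤ)⟧' = 𝟙 _ ≫ δ
    simp

theorem LowX.iso {τ : ℤ → TP C} {S F F' : C} (h : LowX τ S F) (e : F ≅ F') : LowX τ S F' := by
  intro n X Y a b δ hX hY hT f z
  exact h n X Y _ _ _ hX hY (tri_mid_iso hT e.symm) f z

theorem LowY.iso {τ : ℤ → TP C} {S F F' : C} (h : LowY τ S F) (e : F ≅ F') : LowY τ S F' := by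
  intro n m hm X Y a b δ hX hY hT f z
  exact h n m hm X Y _ _ _ hX hY (tri_mid_iso hT e.symm) f z

/-- The position of the shifts of `S` in a sequence of t-structures. -/
structure Ord (τ : ℤ → TP C) (S : C) : Prop where
  pos : ∀ n m : ℤ, m + 1 = n → At (τ n) S m
  mono : ∀ (n : ℤ) (X : C), (τ (n + 1)).L X → (τ n).L X

theorem Ord.monoL {τ : ℤ → TP C} {S : C} (h : Ord τ S) {a b : ℤ} (hab : a ≤ b) {X : C}
    (hX : (τ b).L X) : (τ a).L X := by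
  obtain ⟨n, rfl⟩ := Int.le.dest hab
  clear hab
  induction n with
  | zero => simpa using hX
  | succ n ih =>
    refine ih (h.mono _ _ ?_)
    have : a + n + 1 = a + (n + 1 : ℕ) := by push_cast; ring
    rwa [this]

theorem Ord.monoR {τ : ℤ → TP C} {S : C} (h : Ord τ S) {a b : ℤ} (hab : a ≤ b) {X : C}
    (hX : (τ a).R X) : (τ b).R X :=
  (τ b).memR fun Y hY f => (τ a).hom (h.monoL hab hY) hX f

theorem FlX.down {τ : ℤ → TP C} {S F : C} (h : FlX τ S F 2) (hτ : Ord τ S) : FlX τ S F 1 := by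
  intro n l hl f
  exact (h n (n + 2) rfl f).mono fun G hG => hτ.monoL (by omega) hG

theorem FlY.down {τ : ℤ → TP C} {S F : C} (h : FlY τ S F 2) (hτ : Ord τ S) : FlY τ S F 1 := by
  intro n l hl f
  exact (h n (n + 1 - 2) rfl f).mono fun G hG => hτ.monoR (by omega) hG

section

variable [IsTriangulated C]
variable {S : C} (hS : IsSpherical k S) {T : C ≌ C} (hT : IsTwist k S T)
variable [T.functor.CommShift ℤ] [T.functor.IsTriangulated] [T.functor.Additive]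
  [T.functor.Linear k]
variable {τ τ' : ℤ → TP C}

include hS hT

theorem stepX1 (hτ : Ord τ S) {F : C} (h : LowX τ S F) : FlX τ S (T.functor.obj F) 1 := by
  intro n l hl g
  subst hl
  obtain ⟨e⟩ := twist_shift hS hT (show n + 1 = n + 1 from rfl)
  obtain ⟨f', hf'⟩ := T.functor.map_surjective (e.hom ≫ g)
  obtain ⟨X, Y, a, b, δ, hX, hY, hTr⟩ := (τ (n + 1)).trunc F
  obtain ⟨f₁, hf₁⟩ := TP.lift hTr hY ((hτ.pos (n + 1) n rfl).L (n + 1) (by omega)) f'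
  obtain ⟨N, R, a', p, δ', hN, hR, hTr'⟩ := (τ (n + 1)).trunc (T.functor.obj X)
  obtain ⟨r, hr⟩ := amp hS hT (τ (n + 1)) (hτ.pos (n + 1) n rfl) hX hN hR hTr'
  have hx : e.inv ≫ T.functor.map f₁ ≫ p = 0 := by
    by_contra hne
    obtain ⟨z', hz'⟩ := hr.split (hS.selfNeg n) _ hne
    obtain ⟨z, hz⟩ := T.functor.map_surjective (p ≫ z' ≫ e.inv)
    have h0 : f₁ ≫ z = 0 := h (n + 1) X Y a b δ hX hY hTr f₁ z
    apply hz'
    rw [← cancel_mono e.inv, zero_comp, Category.assoc, Category.assoc, Category.assoc, ← hz,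
      ← Functor.map_comp, h0, Functor.map_zero, comp_zero]
  have hx' : T.functor.map f₁ ≫ p = 0 := by
    rw [← cancel_epi e.inv, hx, comp_zero]
  obtain ⟨u, hu⟩ : ∃ u : T.functor.obj (S⟦n + 1⟧) ⟶ N, T.functor.map f₁ = u ≫ a' :=
    Triangle.coyoneda_exact₂ _ hTr' _ hx'
  refine ⟨N, e.inv ≫ u, a' ≫ T.functor.map a, hN, ?_⟩
  rw [← cancel_epi e.hom, ← hf', ← hf₁, Functor.map_comp, hu]
  simp

theorem stepX2 (hτ : Ord τ S) {F : C} (h : FlX τ S F 1) : FlX τ S (T.functor.obj F) 2 := by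
  intro n l hl g
  subst hl
  obtain ⟨e⟩ := twist_shift hS hT (show n + 1 = n + 1 from rfl)
  obtain ⟨f', hf'⟩ := T.functor.map_surjective (e.hom ≫ g)
  obtain ⟨X, u, v, hX, huv⟩ := h (n + 1) (n + 2) (by omega) f'
  obtain ⟨N, R, a', p, δ', hN, hR, hTr'⟩ := (τ (n + 2)).trunc (T.functor.obj X)
  obtain ⟨r, hr⟩ := amp hS hT (τ (n + 2)) (hτ.pos (n + 2) (n + 1) (by omega)) hX hN hR hTr'
  have hx : e.inv ≫ T.functor.map u ≫ p = 0 :=
    hr.to_zero (fun y => hS.sh_zero (by omega) (by omega) y) _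
  have hx' : T.functor.map u ≫ p = 0 := by
    rw [← cancel_epi e.inv, hx, comp_zero]
  obtain ⟨u', hu'⟩ : ∃ u' : T.functor.obj (S⟦n + 1⟧) ⟶ N, T.functor.map u = u' ≫ a' :=
    Triangle.coyoneda_exact₂ _ hTr' _ hx'
  refine ⟨N, e.inv ≫ u', a' ≫ T.functor.map v, hN, ?_⟩
  rw [← cancel_epi e.hom, ← hf', ← huv, Functor.map_comp, hu']
  simp

theorem crossX {F : C} (hc : ∀ (n : ℤ) (G : C), (τ' (n + 1)).L G → (τ n).L (T.functor.obj G))
    (h : FlX τ' S F 1) : FlX τ S (T.functor.obj F) 1 := by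
  intro n l hl g
  subst hl
  obtain ⟨e⟩ := twist_shift hS hT (show n + 1 = n + 1 from rfl)
  obtain ⟨f', hf'⟩ := T.functor.map_surjective (e.hom ≫ g)
  obtain ⟨X, u, v, hX, huv⟩ := h (n + 1) (n + 1 + 1) rfl f'
  refine ⟨T.functor.obj X, e.inv ≫ T.functor.map u, T.functor.map v, hc _ _ hX, ?_⟩
  rw [← cancel_epi e.hom, ← hf', ← huv, Functor.map_comp]
  simp

theorem stepY1 (hτ : Ord τ S) {G : C} (h : LowY τ S (T.functor.obj G)) : FlY τ S G 1 := by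
  intro n l hl z
  obtain rfl : n = l := by omega
  obtain ⟨e⟩ := twist_shift hS hT (show n = (n - 1) + 1 by omega)
  obtain ⟨X, Y, a, b, δ, hX, hY, hTr⟩ := (τ n).trunc (T.functor.obj G)
  obtain ⟨w₁, hw₁⟩ := TP.desc hTr hX ((hτ.pos n (n - 1) (by omega)).R (n - 1) (by omega))
    (T.functor.map z ≫ e.hom)
  let Y₀ : C := T.inverse.obj Y
  let c : T.functor.obj Y₀ ≅ Y := T.counitIso.app Y
  obtain ⟨b₀, hb₀⟩ := T.functor.map_surjective (b ≫ c.inv : T.functor.obj G ⟶ T.functor.obj Y₀)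
  obtain ⟨z₀, hz₀⟩ := T.functor.map_surjective (c.hom ≫ w₁ ≫ e.inv)
  have hz : b₀ ≫ z₀ = z := by
    apply T.functor.map_injective
    rw [Functor.map_comp, hb₀, hz₀]
    simp only [Category.assoc, Iso.inv_hom_id_assoc]
    rw [← Category.assoc, hw₁, Category.assoc, e.hom_inv_id, Category.comp_id]
  obtain ⟨N, R, a', p', δ', hN, hR, hTr'⟩ := (τ n).trunc Y₀
  obtain ⟨r, hr⟩ := ampR hS hT (τ n) (hτ.pos n (n - 1) (by omega))
    ((τ n).isoR hY c.symm) hN hR hTr'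
  rw [show n - 1 + 1 = n by omega] at hr
  have hx : a' ≫ z₀ = 0 := by
    by_contra hne
    obtain ⟨x, hx⟩ := hr.toL.split (hS.selfPos n) _ hne
    have h0 : (e.inv ≫ T.functor.map (x ≫ a') ≫ c.hom) ≫ w₁ = 0 :=
      h (n - 1) n (by omega) X Y a b δ hX hY hTr _ w₁
    apply hx
    apply T.functor.map_injective
    rw [Functor.map_zero, ← Category.assoc, Functor.map_comp, hz₀, ← cancel_epi e.inv,
      ← cancel_mono e.hom, comp_zero, zero_comp]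
    rw [← h0]
    simp
  obtain ⟨z₁, hz₁⟩ : ∃ z₁ : R ⟶ S⟦n⟧, z₀ = p' ≫ z₁ := Triangle.yoneda_exact₂ _ hTr' _ hx
  exact ⟨R, b₀ ≫ p', z₁, hR, by rw [Category.assoc, ← hz₁, hz]⟩

theorem stepY2 (hτ : Ord τ S) {G : C} (h : FlY τ S (T.functor.obj G) 1) : FlY τ S G 2 := by
  intro n l hl z
  obtain rfl : l = n - 1 := by omega
  obtain ⟨e⟩ := twist_shift hS hT (show n = (n - 1) + 1 by omega)
  obtain ⟨Y, b, w₁, hY, hbw⟩ := h (n - 1) (n - 1) (by omega) (T.functor.map z ≫ e.hom)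
  let Y₀ : C := T.inverse.obj Y
  let c : T.functor.obj Y₀ ≅ Y := T.counitIso.app Y
  obtain ⟨b₀, hb₀⟩ := T.functor.map_surjective (b ≫ c.inv : T.functor.obj G ⟶ T.functor.obj Y₀)
  obtain ⟨z₀, hz₀⟩ := T.functor.map_surjective (c.hom ≫ w₁ ≫ e.inv)
  have hz : b₀ ≫ z₀ = z := by
    apply T.functor.map_injective
    rw [Functor.map_comp, hb₀, hz₀]
    simp only [Category.assoc, Iso.inv_hom_id_assoc]
    rw [← Category.assoc, hbw, Category.assoc, e.hom_inv_id, Category.comp_id]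
  obtain ⟨N, R, a', p', δ', hN, hR, hTr'⟩ := (τ (n - 1)).trunc Y₀
  obtain ⟨r, hr⟩ := ampR hS hT (τ (n - 1)) (hτ.pos (n - 1) (n - 2) (by omega))
    ((τ (n - 1)).isoR hY c.symm) hN hR hTr'
  rw [show n - 2 + 1 = n - 1 by omega] at hr
  have hx : a' ≫ z₀ = 0 :=
    hr.from_zero (fun y => hS.sh_zero (by omega) (by omega) y) _
  obtain ⟨z₁, hz₁⟩ : ∃ z₁ : R ⟶ S⟦n⟧, z₀ = p' ≫ z₁ := Triangle.yoneda_exact₂ _ hTr' _ hx
  exact ⟨R, b₀ ≫ p', z₁, hR, by rw [Category.assoc, ← hz₁, hz]⟩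

theorem crossY {G : C}
    (hc : ∀ (n : ℤ) (Y : C), (τ n).R (T.functor.obj Y) → (τ' (n + 1)).R Y)
    (h : FlY τ S (T.functor.obj G) 1) : FlY τ' S G 1 := by
  intro n l hl z
  obtain rfl : n = l := by omega
  obtain ⟨e⟩ := twist_shift hS hT (show n = (n - 1) + 1 by omega)
  obtain ⟨Y, b, w₁, hY, hbw⟩ := h (n - 1) (n - 1) (by omega) (T.functor.map z ≫ e.hom)
  let Y₀ : C := T.inverse.obj Y
  let c : T.functor.obj Y₀ ≅ Y := T.counitIso.app Y
  obtain ⟨b₀, hb₀⟩ := T.functor.map_surjective (b ≫ c.inv : T.functor.obj G ⟶ T.functor.obj Y₀)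
  obtain ⟨z₀, hz₀⟩ := T.functor.map_surjective (c.hom ≫ w₁ ≫ e.inv)
  have hz : b₀ ≫ z₀ = z := by
    apply T.functor.map_injective
    rw [Functor.map_comp, hb₀, hz₀]
    simp only [Category.assoc, Iso.inv_hom_id_assoc]
    rw [← Category.assoc, hbw, Category.assoc, e.hom_inv_id, Category.comp_id]
  have h1 := hc (n - 1) Y₀ ((τ (n - 1)).isoR hY c.symm)
  rw [show n - 1 + 1 = n by omega] at h1
  exact ⟨Y₀, b₀, z₀, h1, hz⟩

end

end Pool.Agent.H749
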