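import Pool.Agent.H749.Swap

set_option autoImplicit false
set_option linter.unusedSectionVars false
set_option linter.unusedVariables false

open CategoryTheory CategoryTheory.Limits CategoryTheory.Pretriangulated
open scoped ZeroObject

namespace Pool.Agent.H749

universe v u w t

variable {C : Type u} [Category.{v} C] [Preadditive C] [HasZeroObject C] [HasShift C ℤ]
  [∀ n : ℤ, (shiftFunctor C n).Additive] [Pretriangulated C]
variable (k : Type w) [Field k] [Linear k C] [∀ n : ℤ, (shiftFunctor C n).Linear k]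
variable {I : Type t}

/-- The properties of the action on objects of a linear triangulated autoequivalence. -/
structure Op (f : C → C) : Prop where
  tri : ∀ {A B D : C}, Tri A B D → Tri (f A) (f B) (f D)
  iso : ∀ {A B : C}, Nonempty (A ≅ B) → Nonempty (f A ≅ f B)
  shift : ∀ (A : C) (n : ℤ), Nonempty (f (A⟦n⟧) ≅ (f A)⟦n⟧)
  zero : ∀ {A : C}, IsZero A → IsZero (f A)
  hom : ∀ A B : C, Nonempty ((A ⟶ B) ≃ₗ[k] (f A ⟶ f B))

/-- The action of the twist along `S i` on the family. -/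
structure Plus (S : I → C) (i : I) (f : C → C) : Prop where
  self : Nonempty (f (S i) ≅ (S i)⟦(-1 : ℤ)⟧)
  other : ∀ j, j ≠ i → ∃ V, Pw (S i) V (ee k S i j) ∧ Tri (S j) (f (S j)) V

/-- The action of the inverse of the twist along `S i` on the family. -/
structure Minus (S : I → C) (i : I) (f : C → C) : Prop where
  self : Nonempty (f (S i) ≅ (S i)⟦(1 : ℤ)⟧)
  other : ∀ j, j ≠ i → ∃ V, Pw (S i) V (ee k S i j) ∧ Tri V (f (S j)) (S j)

variable {k}

theorem Op.rank {f : C → C} (hf : Op k f) (A B : C) :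
    Module.finrank k (f A ⟶ f B) = Module.finrank k (A ⟶ B) := by
  obtain ⟨e⟩ := hf.hom A B
  exact e.finrank_eq.symm

variable {S : I → C} (hS : Conf k S)

include hS

variable [IsTriangulated C]

/-- The twist applied to an object of the heart. -/
theorem Conf.stepPlus {f : C → C} (hf : Op k f) {i : I} (hp : Plus k S i f) {M : C}
    {n : I →₀ ℕ} (hM : Fil S M n) :
    ∃ (N R : C) (m : I →₀ ℕ) (r : ℕ), Tri N (f M) (R⟦(-1 : ℤ)⟧) ∧ Fil S N m ∧ Pw (S i) R r ∧
      (∀ l, l ≠ i → m l = n l) ∧ m i + n i = En k S i n + r := by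
  classical
  induction hM with
  | zero M hM =>
    refine ⟨0, 0, 0, 0, ?_, Fil.zero _ (isZero_zero C), Pw.zero _ (isZero_zero C),
      fun l _ => rfl, ?_⟩
    · exact Tri.zero_left (isZero_zero C) ((hf.zero hM).iso
        ((shiftFunctor C (-1 : ℤ)).map_isZero (isZero_zero C)))
    · rw [En_zero]; rfl
  | ext M' M j n h1 h2 ih =>
    obtain ⟨N, R, m, r, hN, hNf, hR, hml, hmi⟩ := ih
    have h3 := hf.tri h2
    by_cases hj : j = i
    · subst hj
      obtain ⟨e⟩ := hp.self
      obtain ⟨Y, hY1, hY2⟩ := Tri.assoc₂ h3 hN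
      have h4 : Tri R (Y⟦(1 : ℤ)⟧) (S j) :=
        (hY2.shift 1).iso (shz _ (by norm_num)) (Iso.refl _)
          ((shiftFunctor C (1 : ℤ)).mapIso e ≪≫ shz _ (by norm_num))
      refine ⟨N, Y⟦(1 : ℤ)⟧, m, r + 1, hY1.iso (Iso.refl _) (Iso.refl _)
        (shz Y (by norm_num)).symm, hNf, Pw.ext _ _ _ hR h4, ?_, ?_⟩
      · intro l hl
        rw [hml l hl, Finsupp.add_apply, Finsupp.single_eq_of_ne hl, add_zero]
      · rw [Finsupp.add_apply, Finsupp.single_eq_same, En_add, En_single, hS.ee_self]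
        omega
    · obtain ⟨V, hV1, hV2⟩ := hp.other j hj
      obtain ⟨Y, hY1, hY2⟩ := Tri.assoc₂ h3 hN
      have hB : Fil S (f (S j)) (Finsupp.single j 1 + Finsupp.single i (ee k S i j)) :=
        (Fil.single j).app hV1.fil hV2
      obtain ⟨K, Q, m₂, q, hK, hKf, hQ, hm⟩ := hS.swapR i hR hB hY2
      obtain ⟨Z, hZ1, hZ2⟩ := Tri.assoc₁ hY1 hK
      refine ⟨Z, Q, m + m₂, q, hZ2, hNf.app hKf hZ1, hQ, ?_, ?_⟩
      · intro l hl
        have h5 := DFunLike.congr_fun hm l
        simp only [Finsupp.add_apply, Finsupp.single_eq_of_ne hl, add_zero] at h5 ⊢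
        rw [hml l hl, h5]
      · have h5 := DFunLike.congr_fun hm i
        simp only [Finsupp.add_apply, Finsupp.single_eq_same,
          Finsupp.single_eq_of_ne (Ne.symm hj)] at h5 ⊢
        rw [En_add, En_single]
        omega

/-- The inverse twist applied to an object of the heart. -/
theorem Conf.stepMinus {f : C → C} (hf : Op k f) {i : I} (hp : Minus k S i f) {M : C}
    {n : I →₀ ℕ} (hM : FilL S M n) :
    ∃ (N R : C) (m : I →₀ ℕ) (r : ℕ), Tri (R⟦(1 : ℤ)⟧) (f M) N ∧ Fil S N m ∧ PwL (S i) R r ∧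
      (∀ l, l ≠ i → m l = n l) ∧ m i + n i = En k S i n + r := by
  classical
  induction hM with
  | zero M hM =>
    refine ⟨0, 0, 0, 0, ?_, Fil.zero _ (isZero_zero C), PwL.zero _ (isZero_zero C),
      fun l _ => rfl, ?_⟩
    · exact Tri.zero_left ((shiftFunctor C (1 : ℤ)).map_isZero (isZero_zero C))
        ((hf.zero hM).iso (isZero_zero C))
    · rw [En_zero]; rfl
  | ext M' M j n h1 h2 ih =>
    obtain ⟨N, R, m, r, hN, hNf, hR, hml, hmi⟩ := ih
    have h3 := hf.tri h2
    by_cases hj : j = i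
    · subst hj
      obtain ⟨e⟩ := hp.self
      obtain ⟨Y, hY1, hY2⟩ := Tri.assoc₁ h3 hN
      have h4 : Tri (S j) (Y⟦(-1 : ℤ)⟧) R :=
        (hY1.shift (-1)).iso ((shiftFunctor C (-1 : ℤ)).mapIso e ≪≫ shz _ (by norm_num))
          (Iso.refl _) (shz _ (by norm_num))
      refine ⟨N, Y⟦(-1 : ℤ)⟧, m, r + 1, hY2.iso (shz Y (by norm_num)).symm (Iso.refl _)
        (Iso.refl _), hNf, PwL.ext _ _ _ hR h4, ?_, ?_⟩
      · intro l hl
        rw [hml l hl, Finsupp.add_apply, Finsupp.single_eq_of_ne hl, zero_add]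
      · rw [Finsupp.add_apply, Finsupp.single_eq_same, En_add, En_single, hS.ee_self]
        omega
    · obtain ⟨V, hV1, hV2⟩ := hp.other j hj
      obtain ⟨Y, hY1, hY2⟩ := Tri.assoc₁ h3 hN
      have hB : Fil S (f (S j)) (Finsupp.single i (ee k S i j) + Finsupp.single j 1) :=
        hV1.fil.app (Fil.single j) hV2
      obtain ⟨K, Q, m₂, q, hK, hKf, hQ, hm⟩ := hS.swapR' i hR hB.toL hY1
      obtain ⟨Z, hZ1, hZ2⟩ := Tri.assoc₂ hY2 hK
      refine ⟨Z, Q, m₂ + m, q, hZ1, hKf.app hNf hZ2, hQ, ?_, ?_⟩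
      · intro l hl
        have h5 := DFunLike.congr_fun hm l
        simp only [Finsupp.add_apply, Finsupp.single_eq_of_ne hl, add_zero, zero_add] at h5 ⊢
        rw [hml l hl, h5]
      · have h5 := DFunLike.congr_fun hm i
        simp only [Finsupp.add_apply, Finsupp.single_eq_same,
          Finsupp.single_eq_of_ne (Ne.symm hj)] at h5 ⊢
        rw [En_add, En_single]
        omega

end Pool.Agent.H749
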