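import Pool.Agent.H749.Conf

set_option autoImplicit false
set_option linter.unusedSectionVars false
set_option linter.unusedVariables false

open CategoryTheory CategoryTheory.Limits CategoryTheory.Pretriangulated
open scoped ZeroObject

namespace Pool.Agent.H749

universe v u w t

variable {C : Type u} [Category.{v} C] [Preadditive C] [HasZeroObject C] [HasShift C ℤ]
  [∀ n : ℤ, (shiftFunctor C n).Additive] [Pretriangulated C]
variable {k : Type w} [Field k] [Linear k C] [∀ n : ℤ, (shiftFunctor C n).Linear k]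
variable {I : Type t} {S : I → C} (hS : Conf k S)

include hS

/-- an extension of `S j` by `S i⟦-1⟧` splits or is zero -/
theorem Conf.base (i j : I) {Y : C} (h : Tri ((S i)⟦(-1 : ℤ)⟧) Y (S j)) :
    Tri (S j) Y ((S i)⟦(-1 : ℤ)⟧) ∨ (j = i ∧ IsZero Y) := by
  obtain ⟨a, b, c, hT⟩ := h
  by_cases hc : c = 0
  · subst hc
    exact Or.inl (Tri.swap hT)
  · right
    have e : (S i)⟦(-1 : ℤ)⟧⟦(1 : ℤ)⟧ ≅ S i := shz (S i) (by norm_num)
    have h1 : c ≫ e.hom ≠ 0 := by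
      intro h0
      apply hc
      rw [← cancel_mono e.hom, h0, zero_comp]
    obtain ⟨h2, h3⟩ := hS.isIso h1
    have h4 : IsIso c := by
      have h5 : c = (c ≫ e.hom) ≫ e.inv := by rw [Category.assoc, e.hom_inv_id, Category.comp_id]
      rw [h5]
      infer_instance
    exact ⟨h2, Triangle.isZero₂_of_isIso₃ _ hT h4⟩

/-- an extension of `S i⟦1⟧` by `S j` splits or is zero -/
theorem Conf.base' (i j : I) {Y : C} (h : Tri (S j) Y ((S i)⟦(1 : ℤ)⟧)) :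
    Tri ((S i)⟦(1 : ℤ)⟧) Y (S j) ∨ (j = i ∧ IsZero Y) := by
  obtain ⟨a, b, c, hT⟩ := h
  by_cases hc : c = 0
  · subst hc
    exact Or.inl (Tri.swap hT)
  · right
    obtain ⟨c', hc'⟩ := (shiftFunctor C (1 : ℤ)).map_surjective c
    have h1 : c' ≠ 0 := by
      rintro rfl
      rw [Functor.map_zero] at hc'
      exact hc hc'.symm
    obtain ⟨h2, h3⟩ := hS.isIso h1
    have h4 : IsIso c := by
      rw [← hc']
      infer_instance
    exact ⟨h2.symm, Triangle.isZero₂_of_isIso₃ _ hT h4⟩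

variable [IsTriangulated C]

theorem Conf.swapS (i j : I) {Q Y : C} {q : ℕ} (hQ : Pw (S i) Q q)
    (h : Tri (Q⟦(-1 : ℤ)⟧) Y (S j)) :
    ∃ (K Q' : C) (m : I →₀ ℕ) (q' : ℕ), Tri K Y (Q'⟦(-1 : ℤ)⟧) ∧ Fil S K m ∧ Pw (S i) Q' q' ∧
      m + Finsupp.single i q = Finsupp.single j 1 + Finsupp.single i q' := by
  induction hQ generalizing Y with
  | zero Q hQ =>
    obtain ⟨e⟩ := h.iso_of_zero_left ((shiftFunctor C (-1 : ℤ)).map_isZero hQ)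
    refine ⟨S j, 0, _, 0, ?_, Fil.single j, Pw.zero _ (isZero_zero C), rfl⟩
    exact Tri.zero_right ((shiftFunctor C (-1 : ℤ)).map_isZero (isZero_zero C)) e.symm
  | ext Q' Q q h1 h2 ih =>
    obtain ⟨Y1, hY1, hY2⟩ := Tri.assoc₂ h (h2.shift (-1))
    rcases hS.base i j hY2 with hb | ⟨rfl, hb⟩
    · obtain ⟨Z, hZ, hZY⟩ := Tri.assoc₁ hY1 hb
      obtain ⟨K, Q₂, m, q₂, hK, hKf, hQ₂, hm⟩ := ih hZ
      obtain ⟨Y2, hY3, hY4⟩ := Tri.assoc₂ hZY hK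
      have h5 : Tri Q₂ (Y2⟦(1 : ℤ)⟧) (S i) :=
        (hY4.shift 1).iso (shz _ (by norm_num)) (Iso.refl _) (shz _ (by norm_num))
      refine ⟨K, Y2⟦(1 : ℤ)⟧, m, q₂ + 1, ?_, hKf, Pw.ext _ _ _ hQ₂ h5, ?_⟩
      · exact hY3.iso (Iso.refl _) (Iso.refl _) (shz Y2 (by norm_num)).symm
      · rw [Finsupp.single_add, Finsupp.single_add, ← add_assoc, hm, ← add_assoc]
    · obtain ⟨e⟩ := hY1.iso_of_zero_right hb
      refine ⟨0, Q', 0, q, ?_, Fil.zero _ (isZero_zero C), h1, ?_⟩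
      · exact Tri.zero_left (isZero_zero C) e.symm
      · rw [zero_add, Finsupp.single_add, add_comm]

/-- Reordering: an extension of an object of the heart by `R⟦-1⟧`. -/
theorem Conf.swapR (i : I) {R X B : C} {r : ℕ} {n : I →₀ ℕ} (hR : Pw (S i) R r)
    (hB : Fil S B n) (h : Tri (R⟦(-1 : ℤ)⟧) X B) :
    ∃ (K Q : C) (m : I →₀ ℕ) (q : ℕ), Tri K X (Q⟦(-1 : ℤ)⟧) ∧ Fil S K m ∧ Pw (S i) Q q ∧
      m + Finsupp.single i r = n + Finsupp.single i q := by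
  induction hB generalizing X with
  | zero B hB =>
    obtain ⟨e⟩ := h.iso_of_zero_right hB
    exact ⟨0, R, 0, r, Tri.zero_left (isZero_zero C) e.symm, Fil.zero _ (isZero_zero C), hR, rfl⟩
  | ext B' B j n h1 h2 ih =>
    obtain ⟨Z, hZ, hZX⟩ := Tri.assoc₁ h h2
    obtain ⟨K, Q, m, q, hK, hKf, hQ, hm⟩ := ih hZ
    obtain ⟨Y, hY1, hY2⟩ := Tri.assoc₂ hZX hK
    obtain ⟨K₂, Q₂, m₂, q₂, hK₂, hKf₂, hQ₂, hm₂⟩ := hS.swapS i j hQ hY2
    obtain ⟨Z₂, hZ1, hZ2⟩ := Tri.assoc₁ hY1 hK₂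
    refine ⟨Z₂, Q₂, m + m₂, q₂, hZ2, hKf.app hKf₂ hZ1, hQ₂, ?_⟩
    rw [add_right_comm, hm, add_assoc, add_comm (Finsupp.single i q) m₂, hm₂, ← add_assoc]

theorem Conf.swapS' (i j : I) {Q Y : C} {q : ℕ} (hQ : PwL (S i) Q q)
    (h : Tri (S j) Y (Q⟦(1 : ℤ)⟧)) :
    ∃ (K Q' : C) (m : I →₀ ℕ) (q' : ℕ), Tri (Q'⟦(1 : ℤ)⟧) Y K ∧ Fil S K m ∧ PwL (S i) Q' q' ∧
      m + Finsupp.single i q = Finsupp.single j 1 + Finsupp.single i q' := by
  induction hQ generalizing Y with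
  | zero Q hQ =>
    obtain ⟨e⟩ := h.iso_of_zero_right ((shiftFunctor C (1 : ℤ)).map_isZero hQ)
    refine ⟨S j, 0, _, 0, ?_, Fil.single j, PwL.zero _ (isZero_zero C), rfl⟩
    exact Tri.zero_left ((shiftFunctor C (1 : ℤ)).map_isZero (isZero_zero C)) e.symm
  | ext Q' Q q h1 h2 ih =>
    obtain ⟨Y1, hY2, hY1⟩ := Tri.assoc₁ h (h2.shift 1)
    rcases hS.base' i j hY2 with hb | ⟨rfl, hb⟩
    · obtain ⟨Z, hZY, hZ⟩ := Tri.assoc₂ hY1 hb
      obtain ⟨K, Q₂, m, q₂, hK, hKf, hQ₂, hm⟩ := ih hZ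
      obtain ⟨Y2, hY3, hY4⟩ := Tri.assoc₁ hZY hK
      have h5 : Tri (S i) (Y2⟦(-1 : ℤ)⟧) Q₂ :=
        (hY3.shift (-1)).iso (shz _ (by norm_num)) (Iso.refl _) (shz _ (by norm_num))
      refine ⟨K, Y2⟦(-1 : ℤ)⟧, m, q₂ + 1, ?_, hKf, PwL.ext _ _ _ hQ₂ h5, ?_⟩
      · exact hY4.iso (shz Y2 (by norm_num)).symm (Iso.refl _) (Iso.refl _)
      · rw [Finsupp.single_add, Finsupp.single_add, ← add_assoc, hm, ← add_assoc]
    · obtain ⟨e⟩ := hY1.iso_of_zero_left hb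
      refine ⟨0, Q', 0, q, ?_, Fil.zero _ (isZero_zero C), h1, ?_⟩
      · exact Tri.zero_right (isZero_zero C) e.symm
      · rw [zero_add, Finsupp.single_add, add_comm]

/-- Reordering: an extension of `R⟦1⟧` by an object of the heart. -/
theorem Conf.swapR' (i : I) {R X B : C} {r : ℕ} {n : I →₀ ℕ} (hR : PwL (S i) R r)
    (hB : FilL S B n) (h : Tri B X (R⟦(1 : ℤ)⟧)) :
    ∃ (K Q : C) (m : I →₀ ℕ) (q : ℕ), Tri (Q⟦(1 : ℤ)⟧) X K ∧ Fil S K m ∧ PwL (S i) Q q ∧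
      m + Finsupp.single i r = n + Finsupp.single i q := by
  induction hB generalizing X with
  | zero B hB =>
    obtain ⟨e⟩ := h.iso_of_zero_left hB
    exact ⟨0, R, 0, r, Tri.zero_right (isZero_zero C) e.symm, Fil.zero _ (isZero_zero C), hR, rfl⟩
  | ext B' B j n h1 h2 ih =>
    obtain ⟨Z, hZX, hZ⟩ := Tri.assoc₂ h h2
    obtain ⟨K, Q, m, q, hK, hKf, hQ, hm⟩ := ih hZ
    obtain ⟨Y, hY1, hY2⟩ := Tri.assoc₁ hZX hK
    obtain ⟨K₂, Q₂, m₂, q₂, hK₂, hKf₂, hQ₂, hm₂⟩ := hS.swapS' i j hQ hY1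
    obtain ⟨Z₂, hZ1, hZ2⟩ := Tri.assoc₂ hY2 hK₂
    refine ⟨Z₂, Q₂, m₂ + m, q₂, hZ1, hKf₂.app hKf hZ2, hQ₂, ?_⟩
    rw [add_comm m₂ m, add_right_comm, hm, add_assoc, add_comm (Finsupp.single i q) m₂, hm₂,
      ← add_assoc, add_comm n (Finsupp.single j 1)]

end Pool.Agent.H749
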