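import Pool.Agent.H749.TwistPM

set_option autoImplicit false
set_option linter.unusedSectionVars false
set_option linter.unusedVariables false

open CategoryTheory CategoryTheory.Limits CategoryTheory.Pretriangulated
open scoped ZeroObject

namespace Pool.Agent.H749

universe v u w t

variable {C : Type u} [Category.{v} C] [Preadditive C] [HasZeroObject C] [HasShift C ℤ]
  [∀ n : ℤ, (shiftFunctor C n).Additive] [Pretriangulated C]

variable (C) in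
/-- A t-structure, given by its aisle `L` and its coaisle `R` (shifted by one). -/
structure TP where
  L : C → Prop
  R : C → Prop
  isoL : ∀ {X Y : C}, L X → (X ≅ Y) → L Y
  isoR : ∀ {X Y : C}, R X → (X ≅ Y) → R Y
  hom : ∀ {X Y : C}, L X → R Y → ∀ f : X ⟶ Y, f = 0
  shL : ∀ {X : C}, L X → L (X⟦(1 : ℤ)⟧)
  shR : ∀ {X : C}, R X → R (X⟦(-1 : ℤ)⟧)
  tri : ∀ X : C, ∃ A B : C, L A ∧ R B ∧ Tri A X B

theorem isZero_of_id {X : C} (h : 𝟙 X = 0) : IsZero X := (IsZero.iff_id_eq_zero X).2 h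

namespace TP

variable (t : TP C)

theorem memL {X : C} (h : ∀ Y, t.R Y → ∀ f : X ⟶ Y, f = 0) : t.L X := by
  obtain ⟨A, B, hA, hB, f, g, δ, hT⟩ := t.tri X
  have hg : g = 0 := h B hB g
  obtain ⟨r, hr⟩ : ∃ r : A⟦(1 : ℤ)⟧ ⟶ B, 𝟙 B = δ ≫ r :=
    Triangle.yoneda_exact₃ _ hT (𝟙 B) (by change g ≫ 𝟙 B = 0; rw [hg, zero_comp])
  have hr0 : r = 0 := t.hom (t.shL hA) hB r
  have hBz : IsZero B := isZero_of_id (by rw [hr, hr0, comp_zero])
  have h3 : Tri A X B := ⟨_, _, _, hT⟩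
  obtain ⟨e⟩ := h3.iso_of_zero_right hBz
  exact t.isoL hA e

theorem memR {Y : C} (h : ∀ X, t.L X → ∀ f : X ⟶ Y, f = 0) : t.R Y := by
  obtain ⟨A, B, hA, hB, f, g, δ, hT⟩ := t.tri Y
  have hf : f = 0 := h A hA f
  obtain ⟨r, hr⟩ : ∃ r : A⟦(1 : ℤ)⟧ ⟶ B, 𝟙 (A⟦(1 : ℤ)⟧) = r ≫ δ :=
    Triangle.coyoneda_exact₁ _ hT (𝟙 (A⟦(1 : ℤ)⟧)) (by
      change 𝟙 (A⟦(1 : ℤ)⟧) ≫ f⟦1⟧' = 0
      rw [hf, Functor.map_zero, comp_zero])
  have hr0 : r = 0 := t.hom (t.shL hA) hB r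
  have hz : IsZero (A⟦(1 : ℤ)⟧) := isZero_of_id (by rw [hr, hr0, zero_comp])
  have hA0 : IsZero A := ((shiftFunctor C (-1 : ℤ)).map_isZero hz).of_iso
    (shz A (by norm_num)).symm
  have h3 : Tri A Y B := ⟨_, _, _, hT⟩
  obtain ⟨e⟩ := h3.iso_of_zero_left hA0
  exact t.isoR hB e.symm

theorem extL {A X B : C} (hA : t.L A) (hB : t.L B) (h : Tri A X B) : t.L X :=
  t.memL fun Y hY f => h.from_mid (fun g => t.hom hA hY g) (fun g => t.hom hB hY g) f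

theorem extR {A X B : C} (hA : t.R A) (hB : t.R B) (h : Tri A X B) : t.R X :=
  t.memR fun Y hY f => h.to_mid (fun g => t.hom hY hA g) (fun g => t.hom hY hB g) f

theorem zeroL {X : C} (h : IsZero X) : t.L X := t.memL fun Y _ f => h.eq_of_src f 0

theorem zeroR {X : C} (h : IsZero X) : t.R X := t.memR fun Y _ f => h.eq_of_tgt f 0

theorem zero_of {X : C} (h : t.L X) (h' : t.R X) : IsZero X := isZero_of_id (t.hom h h' _)

theorem PwL {Z M : C} {n : ℕ} (h : Pw Z M n) (hZ : t.L Z) : t.L M := by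
  induction h with
  | zero M hM => exact t.zeroL hM
  | ext M' M n _ h2 ih => exact t.extL ih hZ h2

theorem PwR {Z M : C} {n : ℕ} (h : Pw Z M n) (hZ : t.R Z) : t.R M := by
  induction h with
  | zero M hM => exact t.zeroR hM
  | ext M' M n _ h2 ih => exact t.extR ih hZ h2

/-- the truncation triangle, with its morphisms -/
theorem trunc (X : C) : ∃ (A B : C) (a : A ⟶ X) (b : X ⟶ B) (δ : B ⟶ A⟦(1 : ℤ)⟧),
    t.L A ∧ t.R B ∧ Triangle.mk a b δ ∈ distTriang C := by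
  obtain ⟨A, B, hA, hB, a, b, δ, hT⟩ := t.tri X
  exact ⟨A, B, a, b, δ, hA, hB, hT⟩

variable {t}

/-- a morphism from the aisle factors through the truncation -/
theorem lift {A X B G : C} {a : A ⟶ X} {b : X ⟶ B} {δ : B ⟶ A⟦(1 : ℤ)⟧}
    (hT : Triangle.mk a b δ ∈ distTriang C) (hB : t.R B) (hG : t.L G) (f : G ⟶ X) :
    ∃ g : G ⟶ A, g ≫ a = f := by
  obtain ⟨g, hg⟩ := Triangle.coyoneda_exact₂ _ hT f (t.hom hG hB _)
  exact ⟨g, hg.symm⟩

/-- a morphism to the coaisle factors through the truncation -/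
theorem desc {A X B G : C} {a : A ⟶ X} {b : X ⟶ B} {δ : B ⟶ A⟦(1 : ℤ)⟧}
    (hT : Triangle.mk a b δ ∈ distTriang C) (hA : t.L A) (hG : t.R G) (f : X ⟶ G) :
    ∃ g : B ⟶ G, b ≫ g = f := by
  obtain ⟨g, hg⟩ := Triangle.yoneda_exact₂ _ hT f (t.hom hA hG _)
  exact ⟨g, hg.symm⟩

end TP

/-- `Hom(X⟦1⟧, Y) = 0` if `Hom(X, Y⟦-1⟧) = 0` -/
theorem zero_sh1 {X Y : C} (h : ∀ f : X ⟶ Y⟦(-1 : ℤ)⟧, f = 0) (g : X⟦(1 : ℤ)⟧ ⟶ Y) : g = 0 := by
  have h1 := h ((shz X (by norm_num : (1 : ℤ) + -1 = 0)).inv ≫ g⟦(-1 : ℤ)⟧')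
  have h2 : g⟦(-1 : ℤ)⟧' = 0 := by
    rw [← cancel_epi (shz X (by norm_num : (1 : ℤ) + -1 = 0)).inv, h1, comp_zero]
  exact (shiftFunctor C (-1 : ℤ)).map_injective (by rw [h2, Functor.map_zero])

/-- A morphism killed by the second morphism of a triangle lifts uniquely if there are no
morphisms to the shift of the third object. -/
theorem lift_unique {A X B G : C} {a : A ⟶ X} {b : X ⟶ B} {δ : B ⟶ A⟦(1 : ℤ)⟧}
    (hT : Triangle.mk a b δ ∈ distTriang C) (h : ∀ f : G ⟶ B⟦(-1 : ℤ)⟧, f = 0) {f f' : G ⟶ A}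
    (hf : f ≫ a = f' ≫ a) : f = f' := by
  rw [← sub_eq_zero]
  obtain ⟨r, hr⟩ : ∃ r : G ⟶ B⟦(-1 : ℤ)⟧, f - f' = r ≫ _ :=
    Triangle.coyoneda_exact₂ _ (inv_rot_of_distTriang _ hT) (f - f') (by
      change (f - f') ≫ a = 0
      rw [Preadditive.sub_comp, hf, sub_self])
  rw [hr, h r]
  exact zero_comp

/-- A morphism from the third object is determined by its composition with the second morphism
if there are no morphisms from the shift of the first object. -/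
theorem desc_unique {A X B G : C} {a : A ⟶ X} {b : X ⟶ B} {δ : B ⟶ A⟦(1 : ℤ)⟧}
    (hT : Triangle.mk a b δ ∈ distTriang C) (h : ∀ f : A⟦(1 : ℤ)⟧ ⟶ G, f = 0) {f f' : B ⟶ G}
    (hf : b ≫ f = b ≫ f') : f = f' := by
  rw [← sub_eq_zero]
  obtain ⟨r, hr⟩ : ∃ r : A⟦(1 : ℤ)⟧ ⟶ G, f - f' = δ ≫ r :=
    Triangle.yoneda_exact₃ _ hT (f - f') (by
      change b ≫ (f - f') = 0
      rw [Preadditive.comp_sub, hf, sub_self])
  rw [hr, h r, comp_zero]

/-- A morphism to the third object lifts to the middle if there are no morphisms to the shift of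
the first object. -/
theorem lift_mid {A X B G : C} {a : A ⟶ X} {b : X ⟶ B} {δ : B ⟶ A⟦(1 : ℤ)⟧}
    (hT : Triangle.mk a b δ ∈ distTriang C) (h : ∀ f : G ⟶ A⟦(1 : ℤ)⟧, f = 0) (f : G ⟶ B) :
    ∃ g : G ⟶ X, g ≫ b = f := by
  obtain ⟨g, hg⟩ := Triangle.coyoneda_exact₃ _ hT f (h _)
  exact ⟨g, hg.symm⟩

/-- A morphism from the first object extends to the middle if there are no morphisms from the
shift of the third object. -/
theorem desc_mid {A X B G : C} {a : A ⟶ X} {b : X ⟶ B} {δ : B ⟶ A⟦(1 : ℤ)⟧}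
    (hT : Triangle.mk a b δ ∈ distTriang C) (h : ∀ f : B⟦(-1 : ℤ)⟧ ⟶ G, f = 0) (f : A ⟶ G) :
    ∃ g : X ⟶ G, a ≫ g = f := by
  obtain ⟨g, hg⟩ := Triangle.yoneda_exact₂ _ (inv_rot_of_distTriang _ hT) f (h _)
  exact ⟨g, hg.symm⟩

end Pool.Agent.H749
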