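import Pool.Agent.H749.Step

set_option autoImplicit false
set_option linter.unusedSectionVars false
set_option linter.unusedVariables false

open CategoryTheory CategoryTheory.Limits CategoryTheory.Pretriangulated
open scoped ZeroObject

namespace Pool.Agent.H749

universe v u w t

variable {C : Type u} [Category.{v} C] [Preadditive C] [HasZeroObject C] [HasShift C ℤ]
  [∀ n : ℤ, (shiftFunctor C n).Additive] [Pretriangulated C]
variable (k : Type w) [Field k] [Linear k C] [∀ n : ℤ, (shiftFunctor C n).Linear k]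
variable {I : Type t}

/-- Ordered towers: `F` is an iterated extension of objects `M_c⟦-c⟧`, with `c ≤ b` increasing and
`M_c` in the heart; the data are the total multiplicities, and the sums of the dimensions of
`Hom(S i, M_c)` and of `Hom(M_c, S i)`. -/
inductive Tow (S : I → C) (i : I) : ℤ → C → (I →₀ ℕ) → ℕ → ℕ → Prop
  | nil (b : ℤ) (F : C) : IsZero F → Tow S i b F 0 0 0
  | cons (b : ℤ) (F' F M : C) (n m : I →₀ ℕ) (s t : ℕ) : Tow S i (b - 1) F' n s t →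
      Fil S M m → Tri F' F (M⟦-b⟧) →
      Tow S i b F (n + m) (s + Module.finrank k (S i ⟶ M)) (t + Module.finrank k (M ⟶ S i))

variable {k} {S : I → C}

theorem Tow.forget {i : I} {b : ℤ} {F : C} {n : I →₀ ℕ} {s t : ℕ} (h : Tow k S i b F n s t)
    (j : I) : ∃ s' t', Tow k S j b F n s' t' := by
  induction h with
  | nil b F hF => exact ⟨0, 0, Tow.nil b F hF⟩
  | cons b F' F M n m s t h1 h2 h3 ih =>
    obtain ⟨s', t', h4⟩ := ih
    exact ⟨_, _, Tow.cons b F' F M n m s' t' h4 h2 h3⟩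

theorem Tow.iso {i : I} {b : ℤ} {F G : C} {n : I →₀ ℕ} {s t : ℕ} (h : Tow k S i b F n s t)
    (e : F ≅ G) : Tow k S i b G n s t := by
  cases h with
  | nil _ _ hF => exact Tow.nil b G (hF.of_iso e.symm)
  | cons _ F' _ M n m s t h1 h2 h3 =>
    exact Tow.cons b F' G M n m s t h1 h2 (h3.iso (Iso.refl _) e (Iso.refl _))

theorem zero_of_equiv {A B A' B' : C} (e : Nonempty ((A ⟶ B) ≃ₗ[k] (A' ⟶ B')))
    (h : ∀ f : A ⟶ B, f = 0) (g : A' ⟶ B') : g = 0 := by
  obtain ⟨e⟩ := e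
  rw [← e.apply_symm_apply g, h (e.symm g), map_zero]

variable (hS : Conf k S)

include hS

theorem Conf.fil_neg (i : I) {M : C} {n : I →₀ ℕ} (hM : Fil S M n) (q : ℤ) (hq : q < 0)
    (f : S i ⟶ M⟦q⟧) : f = 0 :=
  hM.to_zero q (fun j g => hS.neg i j q hq g) f

theorem Conf.fil_neg' (i : I) {M : C} {n : I →₀ ℕ} (hM : Fil S M n) (q : ℤ) (hq : q < 0)
    (f : M ⟶ (S i)⟦q⟧) : f = 0 :=
  hM.from_zero (fun j g => hS.neg j i q hq g) f

/-- the value of the sum `s` is at most the multiplicity -/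
theorem Conf.tow_le {i : I} {b : ℤ} {F : C} {n : I →₀ ℕ} {s t : ℕ} (h : Tow k S i b F n s t) :
    s ≤ n i ∧ t ≤ n i := by
  induction h with
  | nil b F hF => exact ⟨Nat.zero_le _, Nat.zero_le _⟩
  | cons b F' F M n m s t h1 h2 h3 ih =>
    have h4 := hS.to_le i h2
    have h5 := hS.from_le i h2
    rw [Finsupp.add_apply]
    omega

theorem Conf.tow_two {i : I} {b : ℤ} {F : C} {n : I →₀ ℕ} {s t : ℕ} (h : Tow k S i b F n s t) :
    2 * n i ≤ En k S i n + s + t := by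
  induction h with
  | nil b F hF => simp
  | cons b F' F M n m s t h1 h2 h3 ih =>
    have h4 := hS.two_le i h2
    rw [Finsupp.add_apply, En_add]
    omega

variable [IsTriangulated C]

omit hS in
theorem Tow.app (hS : Conf k S) {i : I} {b : ℤ} {F X R : C} {n m : I →₀ ℕ} {s t : ℕ}
    (h : Tow k S i b F n s t) (hR : Fil S R m) (hX : Tri F X (R⟦-b⟧)) :
    ∃ s' t', Tow k S i b X (n + m) s' t' ∧ s' ≤ s + Module.finrank k (S i ⟶ R) ∧
      t' ≤ t + Module.finrank k (R ⟶ S i) := by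
  cases h with
  | nil _ _ hF =>
    exact ⟨_, _, Tow.cons b F X R 0 m 0 0 (Tow.nil _ _ hF) hR hX, le_refl _, le_refl _⟩
  | cons _ F' _ M n m₁ s t h1 h2 h3 =>
    obtain ⟨Y, hY1, hY2⟩ := Tri.assoc₂ hX h3
    have h4 : Tri M (Y⟦b⟧) R :=
      (hY2.shift b).iso (shz M (by ring)) (Iso.refl _) (shz R (by ring))
    have h5 : Fil S (Y⟦b⟧) (m₁ + m) := h2.app hR h4
    have h6 : Tri F' X ((Y⟦b⟧)⟦-b⟧) := hY1.iso (Iso.refl _) (Iso.refl _) (shz Y (by ring)).symm
    have h7 := h4.to_rank k (S := S i) ((hS.sph i).fin_to k _) ((hS.sph i).fin_to k _)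
    have h8 := h4.from_rank k (S := S i) ((hS.sph i).fin _) ((hS.sph i).fin _)
    have h9 := Tow.cons b F' X (Y⟦b⟧) n (m₁ + m) s t h1 h5 h6
    rw [add_assoc]
    exact ⟨_, _, h9, by omega, by omega⟩

/-- Vanishing and rank estimates for the twist of an object of the heart. -/
theorem Conf.plusRank {f : C → C} (hf : Op k f) {i : I} (hp : Plus k S i f) {M N R : C}
    {n : I →₀ ℕ} {r : ℕ} (hM : Fil S M n) {m : I →₀ ℕ} (hN : Fil S N m) (hR : Pw (S i) R r)
    (h : Tri N (f M) (R⟦(-1 : ℤ)⟧)) :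
    Module.finrank k (S i ⟶ N) = 0 ∧ Module.finrank k (M ⟶ S i) ≤ r := by
  obtain ⟨e⟩ := hp.self
  constructor
  · refine rank_zero_of k (h.invRot.to_mid (fun g => ?_) (fun g => ?_))
    · refine zero_of_equiv (k := k) ⟨isoLin k (Iso.refl (S i))
        (sha R (show (-1 : ℤ) + (-1) = -2 by norm_num)).symm⟩ (fun g => ?_) g
      exact hS.fil_neg i hR.fil (-2) (by norm_num) g
    · obtain ⟨e1⟩ := hf.shift (S i) 1
      obtain ⟨e2⟩ := hf.hom ((S i)⟦(1 : ℤ)⟧) M
      have e3 : f ((S i)⟦(1 : ℤ)⟧) ≅ S i :=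
        e1 ≪≫ (shiftFunctor C (1 : ℤ)).mapIso e ≪≫ shz (S i) (by norm_num)
      refine zero_of_equiv (k := k) ⟨((shLin k (S i) M (show (1 : ℤ) + (-1) = 0 by norm_num)).trans
        (isoLin k (Iso.refl _) (sh0 M))).trans (e2.trans (isoLin k e3 (Iso.refl _)))⟩
        (fun g => ?_) g
      exact hS.fil_neg i hM (-1) (by norm_num) g
  · have h1 : Module.finrank k (M ⟶ S i) = Module.finrank k (f M ⟶ (S i)⟦(-1 : ℤ)⟧) := by
      rw [← hf.rank M (S i)]
      exact rank_iso k (Iso.refl _) e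
    have h2 := h.from_rank k (S := (S i)⟦(-1 : ℤ)⟧)
      (fin_zero_of k (hS.fil_neg' i hN (-1) (by norm_num)))
      (by
        have := (hS.sph i).fin R
        exact Module.Finite.equiv (shiftLin k R (S i) (-1)))
    rw [rank_zero_of k (hS.fil_neg' i hN (-1) (by norm_num)),
      ← (shiftLin k R (S i) (-1)).finrank_eq] at h2
    have h3 := hS.from_le i hR.fil
    rw [Finsupp.single_eq_same] at h3
    omega

/-- Vanishing and rank estimates for the inverse twist of an object of the heart. -/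
theorem Conf.minusRank {f : C → C} (hf : Op k f) {i : I} (hp : Minus k S i f) {M N R : C}
    {n : I →₀ ℕ} {r : ℕ} (hM : Fil S M n) {m : I →₀ ℕ} (hN : Fil S N m) (hR : PwL (S i) R r)
    (h : Tri (R⟦(1 : ℤ)⟧) (f M) N) :
    Module.finrank k (N ⟶ S i) = 0 ∧ Module.finrank k (S i ⟶ M) ≤ r := by
  obtain ⟨e⟩ := hp.self
  constructor
  · refine rank_zero_of k (h.rot.from_mid (fun g => ?_) (fun g => ?_))
    · obtain ⟨e1⟩ := hf.shift (S i) (-1)
      obtain ⟨e2⟩ := hf.hom M ((S i)⟦(-1 : ℤ)⟧)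
      have e3 : f ((S i)⟦(-1 : ℤ)⟧) ≅ S i :=
        e1 ≪≫ (shiftFunctor C (-1 : ℤ)).mapIso e ≪≫ shz (S i) (by norm_num)
      refine zero_of_equiv (k := k) ⟨e2.trans (isoLin k (Iso.refl _) e3)⟩ (fun g => ?_) g
      exact hS.fil_neg' i hM (-1) (by norm_num) g
    · refine zero_of_equiv (k := k) ⟨(shLin k R (S i) (show (2 : ℤ) + (-2) = 0 by norm_num)).trans
        (isoLin k (sha R (show (1 : ℤ) + 1 = 2 by norm_num)).symm (sh0 (S i)))⟩ (fun g => ?_) g
      exact hS.fil_neg' i hR.toR.fil (-2) (by norm_num) g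
  · have h1 : Module.finrank k (S i ⟶ M) = Module.finrank k ((S i)⟦(1 : ℤ)⟧ ⟶ f M) := by
      rw [← hf.rank (S i) M]
      exact rank_iso k e (Iso.refl _)
    have hz : ∀ g : (S i)⟦(1 : ℤ)⟧ ⟶ N, g = 0 := by
      intro g
      refine zero_of_equiv (k := k) ⟨(shLin k (S i) N (show (1 : ℤ) + (-1) = 0 by norm_num)).trans
        (isoLin k (Iso.refl _) (sh0 N))⟩ (fun g => ?_) g
      exact hS.fil_neg i hN (-1) (by norm_num) g
    have h2 := h.to_rank k (S := (S i)⟦(1 : ℤ)⟧)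
      (by
        have := (hS.sph i).fin_to k R
        exact Module.Finite.equiv (shiftLin k (S i) R 1))
      (fin_zero_of k hz)
    rw [rank_zero_of k hz, ← (shiftLin k (S i) R 1).finrank_eq] at h2
    have h3 := hS.to_le i hR.toR.fil
    rw [Finsupp.single_eq_same] at h3
    omega

/-- The twist of a tower. -/
theorem Conf.towPlus {f : C → C} (hf : Op k f) {i : I} (hp : Plus k S i f) {b : ℤ} {F : C}
    {n : I →₀ ℕ} {s t : ℕ} (h : Tow k S i b F n s t) :
    ∃ (n' : I →₀ ℕ) (s' t' ρ : ℕ), Tow k S i (b + 1) (f F) n' s' t' ∧ (∀ l, l ≠ i → n' l = n l) ∧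
      n' i + n i = En k S i n + 2 * ρ ∧ s' ≤ ρ ∧ t ≤ ρ := by
  induction h with
  | nil b F hF =>
    refine ⟨0, 0, 0, 0, Tow.nil _ _ (hf.zero hF), fun l _ => rfl, ?_, le_refl _, le_refl _⟩
    rw [En_zero]; rfl
  | cons b F' F M n m s t h1 h2 h3 ih =>
    obtain ⟨n₁, s₁, t₁, ρ₁, hT, hnl, hni, hs, ht⟩ := ih
    obtain ⟨N, R, mN, r, hN, hNf, hR, hml, hmi⟩ := hS.stepPlus hf hp h2
    obtain ⟨hr1, hr2⟩ := hS.plusRank hf hp h2 hNf hR hN
    obtain ⟨e⟩ := hf.shift M (-b)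
    have h4 := (hf.tri h3).iso (Iso.refl _) (Iso.refl _) e
    obtain ⟨Z, hZ1, hZ2⟩ := Tri.assoc₁ h4 (hN.shift (-b))
    have hT' : Tow k S i b (f F') n₁ s₁ t₁ := by
      have := hT
      rwa [sub_add_cancel] at this
    obtain ⟨s₂, t₂, hT₂, hs₂, ht₂⟩ := hT'.app hS hNf hZ1
    have h5 : Tri Z (f F) (R⟦-(b + 1)⟧) := hZ2.iso (Iso.refl _) (Iso.refl _) (sha R (by ring))
    have hT₂' : Tow k S i (b + 1 - 1) Z (n₁ + mN) s₂ t₂ := by
      rw [add_sub_cancel_right]; exact hT₂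
    have h6 := Tow.cons (b + 1) Z (f F) R _ _ _ _ hT₂' hR.fil h5
    have h7 := hS.to_le i hR.fil
    rw [Finsupp.single_eq_same] at h7
    refine ⟨_, _, _, ρ₁ + r, h6, ?_, ?_, ?_, ?_⟩
    · intro l hl
      simp only [Finsupp.add_apply, Finsupp.single_eq_of_ne hl]
      rw [hnl l hl, hml l hl, add_zero]
    · simp only [Finsupp.add_apply, Finsupp.single_eq_same]
      rw [En_add]
      omega
    · omega
    · omega

/-- The inverse twist of a tower. -/
theorem Conf.towMinus {f : C → C} (hf : Op k f) {i : I} (hp : Minus k S i f) {b : ℤ} {F : C}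
    {n : I →₀ ℕ} {s t : ℕ} (h : Tow k S i b F n s t) :
    ∃ (n' : I →₀ ℕ) (s' t' ρ : ℕ), Tow k S i b (f F) n' s' t' ∧ (∀ l, l ≠ i → n' l = n l) ∧
      n' i + n i = En k S i n + 2 * ρ ∧ t' ≤ ρ ∧ s ≤ ρ := by
  induction h with
  | nil b F hF =>
    refine ⟨0, 0, 0, 0, Tow.nil _ _ (hf.zero hF), fun l _ => rfl, ?_, le_refl _, le_refl _⟩
    rw [En_zero]; rfl
  | cons b F' F M n m s t h1 h2 h3 ih =>
    obtain ⟨n₁, s₁, t₁, ρ₁, hT, hnl, hni, hs, ht⟩ := ih
    obtain ⟨N, R, mN, r, hN, hNf, hR, hml, hmi⟩ := hS.stepMinus hf hp h2.toL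
    obtain ⟨hr1, hr2⟩ := hS.minusRank hf hp h2 hNf hR hN
    obtain ⟨e⟩ := hf.shift M (-b)
    have h4 := (hf.tri h3).iso (Iso.refl _) (Iso.refl _) e
    obtain ⟨Z, hZ1, hZ2⟩ := Tri.assoc₁ h4 (hN.shift (-b))
    have hZ1' : Tri (f F') Z (R⟦-(b - 1)⟧) :=
      hZ1.iso (Iso.refl _) (Iso.refl _) (sha R (by ring))
    obtain ⟨s₂, t₂, hT₂, hs₂, ht₂⟩ := hT.app hS hR.toR.fil hZ1'
    have h6 := Tow.cons b Z (f F) N _ _ _ _ hT₂ hNf hZ2
    have h7 := hS.from_le i hR.toR.fil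
    rw [Finsupp.single_eq_same] at h7
    refine ⟨_, _, _, ρ₁ + r, h6, ?_, ?_, ?_, ?_⟩
    · intro l hl
      simp only [Finsupp.add_apply, Finsupp.single_eq_of_ne hl]
      rw [hnl l hl, hml l hl, add_zero]
    · simp only [Finsupp.add_apply, Finsupp.single_eq_same]
      rw [En_add]
      omega
    · omega
    · omega

end Pool.Agent.H749
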