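import Mathlib

set_option autoImplicit false
set_option linter.unusedSectionVars false
set_option linter.unusedVariables false

open CategoryTheory CategoryTheory.Limits CategoryTheory.Pretriangulated

namespace Pool.Agent.H749

universe v u

variable {C : Type u} [Category.{v} C] [Preadditive C] [HasZeroObject C] [HasShift C ℤ]
  [∀ n : ℤ, (shiftFunctor C n).Additive] [Pretriangulated C]

/-- `Tri A B D`: the object `B` is an extension of `D` by `A`, that is, there is a distinguished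
triangle `A ⟶ B ⟶ D ⟶ A⟦1⟧`. -/
def Tri (A B D : C) : Prop :=
  ∃ (f : A ⟶ B) (g : B ⟶ D) (h : D ⟶ A⟦(1 : ℤ)⟧), Triangle.mk f g h ∈ distTriang C

theorem Tri.of_mem {T : Triangle C} (hT : T ∈ distTriang C) : Tri T.obj₁ T.obj₂ T.obj₃ :=
  ⟨T.mor₁, T.mor₂, T.mor₃, hT⟩

theorem Tri.iso {A B D A' B' D' : C} (h : Tri A B D) (a : A ≅ A') (b : B ≅ B') (d : D ≅ D') :
    Tri A' B' D' := by
  obtain ⟨f, g, k, hT⟩ := h
  refine ⟨a.inv ≫ f ≫ b.hom, b.inv ≫ g ≫ d.hom, d.inv ≫ k ≫ a.hom⟦1⟧', ?_⟩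
  refine isomorphic_distinguished _ hT _ (Triangle.isoMk _ _ a.symm b.symm d.symm ?_ ?_ ?_)
  · change (a.inv ≫ f ≫ b.hom) ≫ b.inv = a.inv ≫ f
    rw [Category.assoc, Category.assoc, b.hom_inv_id, Category.comp_id]
  · change (b.inv ≫ g ≫ d.hom) ≫ d.inv = b.inv ≫ g
    rw [Category.assoc, Category.assoc, d.hom_inv_id, Category.comp_id]
  · change (d.inv ≫ k ≫ a.hom⟦1⟧') ≫ a.inv⟦1⟧' = d.inv ≫ k
    rw [Category.assoc, Category.assoc, ← Functor.map_comp, a.hom_inv_id,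
      CategoryTheory.Functor.map_id,
      Category.comp_id]

theorem Tri.zero_left {A B D : C} (hA : IsZero A) (e : B ≅ D) : Tri A B D := by
  refine ⟨0, e.hom, 0, ?_⟩
  rw [Triangle.distinguished_iff_of_isZero₁ _ hA]
  exact inferInstanceAs (IsIso e.hom)

theorem Tri.zero_right {A B D : C} (hD : IsZero D) (e : A ≅ B) : Tri A B D := by
  refine ⟨e.hom, 0, 0, ?_⟩
  rw [Triangle.distinguished_iff_of_isZero₃ _ hD]
  exact inferInstanceAs (IsIso e.hom)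

theorem Tri.iso_of_zero_left {A B D : C} (h : Tri A B D) (hA : IsZero A) : Nonempty (B ≅ D) := by
  obtain ⟨f, g, k, hT⟩ := h
  have := (Triangle.isZero₁_iff_isIso₂ _ hT).1 hA
  exact ⟨@asIso _ _ _ _ g this⟩

theorem Tri.iso_of_zero_right {A B D : C} (h : Tri A B D) (hD : IsZero D) : Nonempty (A ≅ B) := by
  obtain ⟨f, g, k, hT⟩ := h
  have := (Triangle.isZero₃_iff_isIso₁ _ hT).1 hD
  exact ⟨@asIso _ _ _ _ f this⟩

theorem Tri.isZero_mid {A B D : C} (h : Tri A B D) (hA : IsZero A) (hD : IsZero D) : IsZero B := by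
  obtain ⟨f, g, k, hT⟩ := h
  exact Triangle.isZero₂_of_isZero₁₃ _ hT hA hD

theorem Tri.shift {A B D : C} (h : Tri A B D) (n : ℤ) : Tri (A⟦n⟧) (B⟦n⟧) (D⟦n⟧) := by
  obtain ⟨f, g, k, hT⟩ := h
  exact Tri.of_mem (Triangle.shift_distinguished _ hT n)

theorem Tri.rot {A B D : C} (h : Tri A B D) : Tri B D (A⟦(1 : ℤ)⟧) := by
  obtain ⟨f, g, k, hT⟩ := h
  exact Tri.of_mem (rot_of_distTriang _ hT)

theorem Tri.invRot {A B D : C} (h : Tri A B D) : Tri (D⟦(-1 : ℤ)⟧) A B := by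
  obtain ⟨f, g, k, hT⟩ := h
  exact Tri.of_mem (inv_rot_of_distTriang _ hT)

/-- the isomorphism `X⟦a⟧⟦b⟧ ≅ X` when `a + b = 0` -/
noncomputable def shz (X : C) {a b : ℤ} (h : a + b = 0) : X⟦a⟧⟦b⟧ ≅ X :=
  (shiftFunctorCompIsoId C a b h).app X

/-- the isomorphism `X⟦a⟧⟦b⟧ ≅ X⟦c⟧` when `a + b = c` -/
noncomputable def sha (X : C) {a b c : ℤ} (h : a + b = c) : X⟦a⟧⟦b⟧ ≅ X⟦c⟧ :=
  ((shiftFunctorAdd' C a b c h).app X).symm

/-- the isomorphism `X⟦0⟧ ≅ X` -/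
noncomputable def sh0 (X : C) : X⟦(0 : ℤ)⟧ ≅ X := (shiftFunctorZero C ℤ).app X

theorem Tri.unrot {A B D : C} (h : Tri B D (A⟦(1 : ℤ)⟧)) : Tri A B D :=
  h.invRot.iso (shz A (by norm_num)) (Iso.refl _) (Iso.refl _)

theorem Tri.uninvRot {A B D : C} (h : Tri (D⟦(-1 : ℤ)⟧) A B) : Tri A B D :=
  h.rot.iso (Iso.refl _) (Iso.refl _) (shz D (by norm_num))

/-- If the connecting morphism vanishes, the two ends may be exchanged. -/
theorem Tri.swap {A B D : C} {f : A ⟶ B} {g : B ⟶ D}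
    (hT : Triangle.mk f g 0 ∈ distTriang C) : Tri D B A := by
  obtain ⟨e, -⟩ := Pretriangulated.exists_iso_binaryBiproduct_of_distTriang _ hT rfl
  have h := binaryBiproductTriangle_distinguished (C := C) D A
  have h2 : Tri D (D ⊞ A) A := Tri.of_mem h
  exact h2.iso (Iso.refl _) ((biprod.braiding D A) ≪≫ e.symm) (Iso.refl _)

section

variable [IsTriangulated C]

/-- `A * (B * D) ⊆ (A * B) * D` -/
theorem Tri.assoc₁ {A B D X Y : C} (h : Tri A X Y) (h' : Tri B Y D) :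
    ∃ Z, Tri A Z B ∧ Tri Z X D := by
  obtain ⟨f, g, k, hT⟩ := h
  obtain ⟨f', g', k', hT'⟩ := h'
  obtain ⟨W, w₁, w₂, hW⟩ := distinguished_cocone_triangle (g ≫ g')
  have o := Triangulated.someOctahedron rfl (rot_of_distTriang _ hT) (rot_of_distTriang _ hT') hW
  have h3 : Tri (A⟦(1 : ℤ)⟧) W (B⟦(1 : ℤ)⟧) := ⟨_, _, _, o.mem⟩
  have h4 : Tri X D W := ⟨_, _, _, hW⟩
  refine ⟨W⟦(-1 : ℤ)⟧, ?_, h4.invRot⟩
  exact (h3.shift (-1)).iso (shz A (by norm_num)) (Iso.refl _) (shz B (by norm_num))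

/-- `(A * B) * D ⊆ A * (B * D)` -/
theorem Tri.assoc₂ {A B D X Z : C} (h : Tri Z X D) (h' : Tri A Z B) :
    ∃ Y, Tri A X Y ∧ Tri B Y D := by
  obtain ⟨f, g, k, hT⟩ := h
  obtain ⟨f', g', k', hT'⟩ := h'
  obtain ⟨Y, w₁, w₂, hW⟩ := distinguished_cocone_triangle (f' ≫ f)
  have o := Triangulated.someOctahedron rfl hT' hT hW
  exact ⟨Y, ⟨_, _, _, hW⟩, ⟨_, _, _, o.mem⟩⟩

end

end Pool.Agent.H749
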