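import Pool.Agent.H749.Faith

set_option autoImplicit false
set_option linter.unusedSectionVars false
set_option linter.unusedVariables false

open CategoryTheory CategoryTheory.Limits CategoryTheory.Pretriangulated
open scoped ZeroObject

namespace Pool.Agent.H749

universe v u w t

variable {C : Type u} [Category.{v} C] [Preadditive C] [HasZeroObject C] [HasShift C ℤ]
  [∀ n : ℤ, (shiftFunctor C n).Additive] [Pretriangulated C]
variable (k : Type w) [Field k] [Linear k C] [∀ n : ℤ, (shiftFunctor C n).Linear k]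

/-- `ev : W ⟶ F` is the evaluation morphism `⨁_c Hom(S⟦c⟧, F) ⊗ S⟦c⟧ ⟶ F`: the object `W`, with
the linear maps `φ c`, represents the functor `Y ↦ ∏_c Hom_k(Hom(S⟦c⟧, F), Hom(S⟦c⟧, Y))`, and
`ev` corresponds to the identity maps. -/
def IsEval (S F W : C) (ev : W ⟶ F) : Prop :=
  ∃ φ : ∀ c : ℤ, (S⟦c⟧ ⟶ F) →ₗ[k] (S⟦c⟧ ⟶ W),
    (∀ (c : ℤ) (x : S⟦c⟧ ⟶ F), φ c x ≫ ev = x) ∧
    ∀ (Y : C) (ψ : ∀ c : ℤ, (S⟦c⟧ ⟶ F) →ₗ[k] (S⟦c⟧ ⟶ Y)),
      ∃! g : W ⟶ Y, ∀ (c : ℤ) (x : S⟦c⟧ ⟶ F), φ c x ≫ g = ψ c x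

/-- `T` is a spherical twist along `S`: for every `F` there is a distinguished triangle
`⨁_c Hom(S⟦c⟧, F) ⊗ S⟦c⟧ ⟶ F ⟶ T F ⟶` whose first morphism is the evaluation. -/
def IsTwist (S : C) (T : C ≌ C) : Prop :=
  ∀ F : C, ∃ (W : C) (ev : W ⟶ F) (g : F ⟶ T.functor.obj F) (h : T.functor.obj F ⟶ W⟦(1 : ℤ)⟧),
    IsEval k S F W ev ∧ Triangle.mk ev g h ∈ distTriang C

variable {k}

theorem IsEval.unique {S F W W' : C} {ev : W ⟶ F} {ev' : W' ⟶ F} (h : IsEval k S F W ev)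
    (h' : IsEval k S F W' ev') : ∃ a : W ≅ W', a.hom ≫ ev' = ev := by
  obtain ⟨φ, h1, h2⟩ := h
  obtain ⟨φ', h1', h2'⟩ := h'
  obtain ⟨g, hg, -⟩ := h2 W' φ'
  obtain ⟨g', hg', -⟩ := h2' W φ
  refine ⟨⟨g, g', ?_, ?_⟩, ?_⟩
  · refine (h2 W φ).unique (fun c x => ?_) (fun c x => Category.comp_id _)
    rw [← Category.assoc, hg, hg']
  · refine (h2' W' φ').unique (fun c x => ?_) (fun c x => Category.comp_id _)
    rw [← Category.assoc, hg', hg]
  · refine (h2 F (fun c => LinearMap.id)).unique (fun c x => ?_) (fun c x => ?_)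
    · rw [← Category.assoc, hg, h1']; rfl
    · rw [h1]; rfl

theorem cone_unique {A A' B D D' : C} {f : A ⟶ B} {g : B ⟶ D} {h : D ⟶ A⟦(1 : ℤ)⟧}
    {f' : A' ⟶ B} {g' : B ⟶ D'} {h' : D' ⟶ A'⟦(1 : ℤ)⟧}
    (hT : Triangle.mk f g h ∈ distTriang C) (hT' : Triangle.mk f' g' h' ∈ distTriang C)
    (a : A ≅ A') (ha : a.hom ≫ f' = f) : Nonempty (D ≅ D') := by
  have e := isoTriangleOfIso₁₂ _ _ hT hT' a (Iso.refl B) (by
    change f ≫ 𝟙 B = a.hom ≫ f'
    rw [Category.comp_id, ha])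
  exact ⟨Triangle.π₃.mapIso e⟩

theorem IsEval.iso_left {S S' F W : C} {ev : W ⟶ F} (h : IsEval k S F W ev) (a : S ≅ S') :
    IsEval k S' F W ev := by
  obtain ⟨φ, h1, h2⟩ := h
  have e1 : ∀ c : ℤ, a.inv⟦c⟧' ≫ a.hom⟦c⟧' = 𝟙 _ := fun c => by
    rw [← Functor.map_comp, a.inv_hom_id, CategoryTheory.Functor.map_id]
  have e2 : ∀ c : ℤ, a.hom⟦c⟧' ≫ a.inv⟦c⟧' = 𝟙 _ := fun c => by
    rw [← Functor.map_comp, a.hom_inv_id, CategoryTheory.Functor.map_id]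
  refine ⟨fun c => (pre k (a.inv⟦c⟧') W) ∘ₗ (φ c) ∘ₗ (pre k (a.hom⟦c⟧') F), fun c x => ?_,
    fun Y ψ => ?_⟩
  · change (a.inv⟦c⟧' ≫ φ c (a.hom⟦c⟧' ≫ x)) ≫ ev = x
    rw [Category.assoc, h1, ← Category.assoc, e1, Category.id_comp]
  · obtain ⟨g, hg, hu⟩ := h2 Y
      (fun c => (pre k (a.hom⟦c⟧') Y) ∘ₗ (ψ c) ∘ₗ (pre k (a.inv⟦c⟧') F))
    refine ⟨g, fun c x => ?_, fun g' hg' => hu g' fun c x => ?_⟩
    · change (a.inv⟦c⟧' ≫ φ c (a.hom⟦c⟧' ≫ x)) ≫ g = ψ c x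
      have h3 : φ c (a.hom⟦c⟧' ≫ x) ≫ g = a.hom⟦c⟧' ≫ ψ c (a.inv⟦c⟧' ≫ a.hom⟦c⟧' ≫ x) := hg c _
      rw [Category.assoc, h3, ← Category.assoc, ← Category.assoc, e1, Category.id_comp,
        Category.id_comp]
    · change φ c x ≫ g' = a.hom⟦c⟧' ≫ ψ c (a.inv⟦c⟧' ≫ x)
      have h3 : (a.inv⟦c⟧' ≫ φ c (a.hom⟦c⟧' ≫ a.inv⟦c⟧' ≫ x)) ≫ g' = ψ c (a.inv⟦c⟧' ≫ x) :=
        hg' c _
      rw [← h3, ← Category.assoc (a.hom⟦c⟧') (a.inv⟦c⟧') x, e2, Category.id_comp,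
        ← Category.assoc, ← Category.assoc, e2, Category.id_comp]

theorem IsEval.map (T : C ≌ C) [T.functor.CommShift ℤ] [T.functor.Additive] [T.functor.Linear k]
    {S F W : C} {ev : W ⟶ F}
    (h : IsEval k S F W ev) :
    IsEval k (T.functor.obj S) (T.functor.obj F) (T.functor.obj W) (T.functor.map ev) := by
  obtain ⟨φ, h1, h2⟩ := h
  -- the identification of `Hom((T S)⟦c⟧, T Y)` with `Hom(S⟦c⟧, Y)`
  let θ : ∀ (c : ℤ) (Y : C), (S⟦c⟧ ⟶ Y) ≃ₗ[k] ((T.functor.obj S)⟦c⟧ ⟶ T.functor.obj Y) :=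
    fun c Y => (eqvLin k T (S⟦c⟧) Y).trans
      (isoLin k ((T.functor.commShiftIso c).app S) (Iso.refl (T.functor.obj Y)))
  have hθ : ∀ (c : ℤ) (Y Z : C) (x : S⟦c⟧ ⟶ Y) (g : Y ⟶ Z),
      θ c Y x ≫ T.functor.map g = θ c Z (x ≫ g) := by
    intro c Y Z x g
    change ((((T.functor.commShiftIso c).app S).inv ≫ T.functor.map x) ≫ 𝟙 _) ≫ T.functor.map g =
      (((T.functor.commShiftIso c).app S).inv ≫ T.functor.map (x ≫ g)) ≫ 𝟙 _
    simp
  refine ⟨fun c => (θ c W).toLinearMap ∘ₗ (φ c) ∘ₗ (θ c F).symm.toLinearMap, fun c x => ?_,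
    fun Y ψ => ?_⟩
  · change θ c W (φ c ((θ c F).symm x)) ≫ T.functor.map ev = x
    rw [hθ, h1, LinearEquiv.apply_symm_apply]
  · -- replace `Y` by `T (T⁻¹ Y)`
    let ε : T.functor.obj (T.inverse.obj Y) ≅ Y := T.counitIso.app Y
    obtain ⟨g, hg, hu⟩ := h2 (T.inverse.obj Y) (fun c =>
      (θ c (T.inverse.obj Y)).symm.toLinearMap ∘ₗ (post k _ ε.inv) ∘ₗ (ψ c) ∘ₗ
        (θ c F).toLinearMap)
    refine ⟨T.functor.map g ≫ ε.hom, fun c x => ?_, fun g' hg' => ?_⟩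
    · change θ c W (φ c ((θ c F).symm x)) ≫ T.functor.map g ≫ ε.hom = ψ c x
      have h3 : φ c ((θ c F).symm x) ≫ g =
        (θ c (T.inverse.obj Y)).symm (ψ c (θ c F ((θ c F).symm x)) ≫ ε.inv) := hg c _
      rw [← Category.assoc, hθ, h3, LinearEquiv.apply_symm_apply, LinearEquiv.apply_symm_apply,
        Category.assoc, ε.inv_hom_id, Category.comp_id]
    · obtain ⟨g₀, hg₀⟩ := T.functor.map_surjective (g' ≫ ε.inv)
      have h4 : g₀ = g := by
        refine hu g₀ fun c x => ?_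
        change φ c x ≫ g₀ = (θ c (T.inverse.obj Y)).symm (ψ c (θ c F x) ≫ ε.inv)
        rw [LinearEquiv.eq_symm_apply, ← hθ, hg₀, ← Category.assoc]
        have h5 : θ c W (φ c ((θ c F).symm (θ c F x))) ≫ g' = ψ c (θ c F x) := hg' c _
        rw [LinearEquiv.symm_apply_apply] at h5
        rw [h5]
      rw [← h4, hg₀, Category.assoc, ε.inv_hom_id, Category.comp_id]

/-! ### Tensor products with vector spaces -/

/-- `W` is the tensor product of the vector space `V` and of the object `Z`. -/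
def IsTens {V : Type*} [AddCommGroup V] [Module k V] {Z W : C} (φ : V →ₗ[k] (Z ⟶ W)) : Prop :=
  ∀ (Y : C) (ψ : V →ₗ[k] (Z ⟶ Y)), ∃! g : W ⟶ Y, ∀ x, φ x ≫ g = ψ x

theorem IsTens.unique {V : Type*} [AddCommGroup V] [Module k V] {Z W W' : C}
    {φ : V →ₗ[k] (Z ⟶ W)} {φ' : V →ₗ[k] (Z ⟶ W')} (h : IsTens φ) (h' : IsTens φ') :
    Nonempty (W ≅ W') := by
  obtain ⟨g, hg, -⟩ := h W' φ'
  obtain ⟨g', hg', -⟩ := h' W φ
  refine ⟨⟨g, g', ?_, ?_⟩⟩
  · refine (h W φ).unique (fun x => ?_) (fun x => Category.comp_id _)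
    rw [← Category.assoc, hg, hg']
  · refine (h' W' φ').unique (fun x => ?_) (fun x => Category.comp_id _)
    rw [← Category.assoc, hg', hg]

theorem exists_tens (Z : C) (n : ℕ) :
    ∃ (W : C) (φ : (Fin n → k) →ₗ[k] (Z ⟶ W)), IsTens φ ∧ Pw Z W n := by
  induction n with
  | zero =>
    refine ⟨0, 0, fun Y ψ => ⟨0, fun x => ?_, fun g _ => (isZero_zero C).eq_of_src _ _⟩,
      Pw.zero _ (isZero_zero C)⟩
    rw [Subsingleton.elim x 0, map_zero, map_zero, zero_comp]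
  | succ n ih =>
    obtain ⟨W, φ, h1, h2⟩ := ih
    let ct : (Fin n → k) →ₗ[k] (Fin (n + 1) → k) :=
      { toFun := fun x => Fin.cons 0 x
        map_add' := fun x y => by
          ext i; refine Fin.cases ?_ (fun i => ?_) i <;> simp
        map_smul' := fun r x => by
          ext i; refine Fin.cases ?_ (fun i => ?_) i <;> simp }
    let tl : (Fin (n + 1) → k) →ₗ[k] (Fin n → k) := LinearMap.funLeft k k Fin.succ
    let e₀ : Fin (n + 1) → k := Fin.cons 1 0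
    have hdec : ∀ x : Fin (n + 1) → k, x = ct (tl x) + x 0 • e₀ := by
      intro x
      ext i
      refine Fin.cases ?_ (fun i => ?_) i
      · simp [ct, e₀]
      · simp [ct, e₀, tl, LinearMap.funLeft]
    let φ' : (Fin (n + 1) → k) →ₗ[k] (Z ⟶ W ⊞ Z) :=
      (post k Z (biprod.inl : W ⟶ W ⊞ Z)) ∘ₗ φ ∘ₗ tl +
        (LinearMap.proj (R := k) (φ := fun _ => k) 0).smulRight (biprod.inr : Z ⟶ W ⊞ Z)
    have hφ' : ∀ x, φ' x = φ (tl x) ≫ biprod.inl + x 0 • biprod.inr := fun x => rfl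
    refine ⟨W ⊞ Z, φ', fun Y ψ => ?_, Pw.ext W (W ⊞ Z) n h2
      (Tri.of_mem (binaryBiproductTriangle_distinguished (C := C) W Z))⟩
    obtain ⟨g, hg, hu⟩ := h1 Y (ψ ∘ₗ ct)
    refine ⟨biprod.desc g (ψ e₀), fun x => ?_, fun g' hg' => ?_⟩
    · rw [hφ', Preadditive.add_comp, Category.assoc, biprod.inl_desc, Linear.smul_comp,
        biprod.inr_desc, hg]
      conv_rhs => rw [hdec x, map_add, map_smul]
      rfl
    · have h3 : biprod.inl ≫ g' = g := by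
        refine hu _ fun x => ?_
        have h4 := hg' (ct x)
        rw [hφ'] at h4
        have h5 : tl (ct x) = x := by ext i; simp [tl, ct, LinearMap.funLeft]
        have h6 : (ct x) 0 = 0 := by simp [ct]
        rw [h5, h6, zero_smul, add_zero, Category.assoc] at h4
        exact h4
      have h7 : biprod.inr ≫ g' = ψ e₀ := by
        have h4 := hg' e₀
        rw [hφ'] at h4
        have h5 : tl e₀ = 0 := by ext i; simp [tl, e₀, LinearMap.funLeft]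
        have h6 : e₀ 0 = 1 := by simp [e₀]
        rw [h5, h6, one_smul, map_zero, zero_comp, zero_add] at h4
        exact h4
      refine biprod.hom_ext' _ _ ?_ ?_
      · rw [biprod.inl_desc, h3]
      · rw [biprod.inr_desc, h7]

theorem IsTens.equiv {V V' : Type*} [AddCommGroup V] [Module k V] [AddCommGroup V'] [Module k V']
    {Z W : C} {φ : V →ₗ[k] (Z ⟶ W)} (h : IsTens φ) (e : V' ≃ₗ[k] V) :
    IsTens (φ ∘ₗ e.toLinearMap) := by
  intro Y ψ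
  obtain ⟨g, hg, hu⟩ := h Y (ψ ∘ₗ e.symm.toLinearMap)
  refine ⟨g, fun x => ?_, fun g' hg' => hu g' fun x => ?_⟩
  · change φ (e x) ≫ g = ψ x
    rw [hg]
    simp
  · have := hg' (e.symm x)
    change φ (e (e.symm x)) ≫ g' = ψ (e.symm x) at this
    rw [LinearEquiv.apply_symm_apply] at this
    exact this

theorem Pw.iso' {X M N : C} {n : ℕ} (h : Pw X M n) (e : M ≅ N) : Pw X N n := h.iso e

theorem IsTens.pw {V : Type*} [AddCommGroup V] [Module k V] [Module.Finite k V] {Z W : C}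
    {φ : V →ₗ[k] (Z ⟶ W)} (h : IsTens φ) : Pw Z W (Module.finrank k V) := by
  obtain ⟨W', φ', h1, h2⟩ := exists_tens (k := k) Z (Module.finrank k V)
  obtain ⟨e⟩ := (h1.equiv (Module.finBasis k V).equivFun).unique h
  exact h2.iso e

theorem Pw.shift {X M : C} {n : ℕ} (h : Pw X M n) (q : ℤ) : Pw (X⟦q⟧) (M⟦q⟧) n := by
  induction h with
  | zero M hM => exact Pw.zero _ ((shiftFunctor C q).map_isZero hM)
  | ext M' M n h1 h2 ih => exact Pw.ext _ _ _ ih (h2.shift q)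

theorem Pw.base {X X' M : C} {n : ℕ} (h : Pw X M n) (e : X ≅ X') : Pw X' M n := by
  induction h with
  | zero M hM => exact Pw.zero _ hM
  | ext M' M n h1 h2 ih => exact Pw.ext _ _ _ ih (h2.iso (Iso.refl _) (Iso.refl _) e)

/-- If all morphisms have degree `-c₀`, the evaluation object is a tensor product. -/
theorem IsEval.pw {S F W : C} {ev : W ⟶ F} (h : IsEval k S F W ev) (c₀ : ℤ)
    (hfin : Module.Finite k (S⟦c₀⟧ ⟶ F)) (hz : ∀ c : ℤ, c ≠ c₀ → ∀ x : S⟦c⟧ ⟶ F, x = 0) :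
    Pw (S⟦c₀⟧) W (Module.finrank k (S⟦c₀⟧ ⟶ F)) := by
  obtain ⟨φ, h1, h2⟩ := h
  have h3 : IsTens (φ c₀) := by
    intro Y ψ
    obtain ⟨g, hg, hu⟩ := h2 Y (Function.update (fun c => 0) c₀ ψ)
    refine ⟨g, fun x => ?_, fun g' hg' => hu g' fun c x => ?_⟩
    · have := hg c₀ x
      rwa [Function.update_self] at this
    · by_cases hc : c = c₀
      · subst hc
        rw [Function.update_self]
        exact hg' x
      · rw [hz c hc x, map_zero, map_zero, zero_comp]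
  exact h3.pw

end Pool.Agent.H749
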