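import Pool.Agent.H749.Twist

set_option autoImplicit false
set_option linter.unusedSectionVars false
set_option linter.unusedVariables false

open CategoryTheory CategoryTheory.Limits CategoryTheory.Pretriangulated
open scoped ZeroObject

namespace Pool.Agent.H749

universe v u w t

variable {C : Type u} [Category.{v} C] [Preadditive C] [HasZeroObject C] [HasShift C ℤ]
  [∀ n : ℤ, (shiftFunctor C n).Additive] [Pretriangulated C]
variable {k : Type w} [Field k] [Linear k C] [∀ n : ℤ, (shiftFunctor C n).Linear k]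

theorem zero_src (k : Type w) [Field k] [Linear k C] [∀ n : ℤ, (shiftFunctor C n).Linear k]
    (X Y : C) (c : ℤ) (hz : ∀ f : X ⟶ Y⟦-c⟧, f = 0) (g : X⟦c⟧ ⟶ Y) : g = 0 := by
  have h1 : ∀ f : X⟦c⟧ ⟶ Y⟦(0 : ℤ)⟧, f = 0 := zero_shift k X Y (by ring) hz
  rw [← cancel_mono (sh0 Y).inv, h1 (g ≫ _), zero_comp]

theorem rank_src (k : Type w) [Field k] [Linear k C] [∀ n : ℤ, (shiftFunctor C n).Linear k]
    (X Y : C) (c : ℤ) : Module.finrank k (X⟦c⟧ ⟶ Y) = Module.finrank k (X ⟶ Y⟦-c⟧) := by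
  rw [rank_iso k (Iso.refl (X⟦c⟧)) (sh0 Y).symm]
  exact rank_shift k X Y (by ring)

theorem IsTwist.self [IsTriangulated C] {S : C} (hS : IsSpherical k S) {T : C ≌ C}
    (hT : IsTwist k S T) : Nonempty (T.functor.obj S ≅ S⟦(-1 : ℤ)⟧) := by
  obtain ⟨W, ev, g, h, ⟨φ, h1, h2⟩, hTr⟩ := hT S
  let u : S⟦(0 : ℤ)⟧ ⟶ S := (sh0 S).hom
  have hu : u ≠ 0 := by
    intro h0
    exact hS.not_isZero k ((IsZero.iff_id_eq_zero _).2
      (by rw [← (sh0 S).inv_hom_id, show (sh0 S).hom = 0 from h0, comp_zero]))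
  have hrank : Module.finrank k (S⟦(0 : ℤ)⟧ ⟶ S) = 1 := by
    rw [rank_iso k (sh0 S) (Iso.refl S), hS.self]
  have hmul : ∀ x : S⟦(0 : ℤ)⟧ ⟶ S, ∃ r : k, r • u = x :=
    (finrank_eq_one_iff_of_nonzero' u hu).1 hrank
  let a := φ 0 u
  have ha : a ≫ ev = u := h1 0 u
  have hmono : Mono a := by
    have : Mono (a ≫ ev) := by rw [ha]; exact inferInstanceAs (Mono (sh0 S).hom)
    exact mono_of_mono a ev
  obtain ⟨R, r, w, hR⟩ := distinguished_cocone_triangle a
  have hw : w = 0 := Triangle.mor₃_eq_zero_of_mono₁ _ hR hmono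
  have hr : Epi r := Triangle.epi₂ _ hR hw
  have har : a ≫ r = 0 := comp_distTriang_mor_zero₁₂ _ hR
  have hzero : ∀ c : ℤ, c ≠ 0 → c ≠ -2 → ∀ x : S⟦c⟧ ⟶ S, x = 0 := by
    intro c hc hc2
    exact zero_src k S S c (hS.zero (-c) (by omega) (by omega))
  have htens : IsTens ((post k _ r) ∘ₗ φ (-2)) := by
    intro Y ψ
    obtain ⟨g, hg, huq⟩ := h2 Y (Function.update (fun c => 0) (-2) ψ)
    have hag : a ≫ g = 0 := by
      have := hg 0 u
      rw [Function.update_of_ne (by norm_num)] at this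
      exact this
    obtain ⟨g', hg''⟩ : ∃ g' : R ⟶ Y, g = r ≫ g' := Triangle.yoneda_exact₂ _ hR g hag
    refine ⟨g', fun x => ?_, fun g₂ hg₂ => ?_⟩
    · have := hg (-2) x
      rw [Function.update_self, hg'', ← Category.assoc] at this
      exact this
    · rw [← cancel_epi r]
      refine Eq.trans (huq (r ≫ g₂) fun c x => ?_) hg''
      by_cases hc : c = -2
      · subst hc
        rw [Function.update_self, ← Category.assoc]
        exact hg₂ x
      · rw [Function.update_of_ne hc]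
        by_cases hc0 : c = 0
        · subst hc0
          obtain ⟨μ, rfl⟩ := hmul x
          rw [map_smul, Linear.smul_comp, ← Category.assoc]
          change μ • ((a ≫ r) ≫ g₂) = 0
          rw [har, zero_comp, smul_zero]
        · rw [hzero c hc0 hc x, map_zero, zero_comp]
          rfl
  have hfr : Module.finrank k (S⟦(-2 : ℤ)⟧ ⟶ S) = 1 := by
    rw [rank_src k S S (-2)]
    exact (hS.rank_dual k S).trans hS.self
  have hfin : Module.Finite k (S⟦(-2 : ℤ)⟧ ⟶ S) := hS.fin _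
  have hpw := htens.pw
  rw [hfr] at hpw
  have hRS : Nonempty (R ≅ S⟦(-2 : ℤ)⟧) := by
    cases hpw with
    | ext M' _ n h3 h4 =>
      cases h3 with
      | zero _ hM' => exact h4.iso_of_zero_left hM'
  obtain ⟨eR⟩ := hRS
  have h13 : Triangle.mk u (0 : S ⟶ (0 : C)) 0 ∈ distTriang C := by
    rw [Triangle.distinguished_iff_of_isZero₃ _ (isZero_zero C)]
    exact inferInstanceAs (IsIso (sh0 S).hom)
  have o := Triangulated.someOctahedron ha hR hTr h13
  have h5 : Tri R (0 : C) (T.functor.obj S) := ⟨_, _, _, o.mem⟩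
  obtain ⟨e⟩ := h5.rot.iso_of_zero_left (isZero_zero C)
  exact ⟨e ≪≫ (shiftFunctor C (1 : ℤ)).mapIso eR ≪≫ sha S (by norm_num)⟩

variable {I : Type t} {S : I → C}

theorem Conf.plus (hS : Conf k S) [IsTriangulated C] {i : I} {T : C ≌ C}
    (hT : IsTwist k (S i) T) : Plus k S i T.functor.obj where
  self := hT.self (hS.sph i)
  other j hj := by
    obtain ⟨W, ev, g, h, hev, hTr⟩ := hT (S j)
    have h1 : Pw ((S i)⟦(-1 : ℤ)⟧) W (Module.finrank k ((S i)⟦(-1 : ℤ)⟧ ⟶ S j)) := by
      refine hev.pw (-1) ((hS.sph j).fin _) (fun c hc => ?_)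
      exact zero_src k _ _ c (hS.deg i j (Ne.symm hj) (-c) (by omega))
    have h2 : Module.finrank k ((S i)⟦(-1 : ℤ)⟧ ⟶ S j) = ee k S i j := rank_src k _ _ (-1)
    rw [h2] at h1
    have h3 : Tri W (S j) (T.functor.obj (S j)) := ⟨_, _, _, hTr⟩
    exact ⟨W⟦(1 : ℤ)⟧, (h1.shift 1).base (shz (S i) (by norm_num)), h3.rot⟩

/-- The permutation of the isomorphism classes of objects given by an autoequivalence. -/
def isoPerm (T : C ≌ C) : Equiv.Perm (Quotient (isIsomorphicSetoid C)) where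
  toFun := Quotient.map T.functor.obj fun _ _ ⟨e⟩ => ⟨T.functor.mapIso e⟩
  invFun := Quotient.map T.inverse.obj fun _ _ ⟨e⟩ => ⟨T.inverse.mapIso e⟩
  left_inv := by
    intro x
    induction x using Quotient.inductionOn with
    | h F => exact Quotient.sound ⟨(T.unitIso.app F).symm⟩
  right_inv := by
    intro x
    induction x using Quotient.inductionOn with
    | h F => exact Quotient.sound ⟨T.counitIso.app F⟩

variable (T : C ≌ C) [T.functor.CommShift ℤ] [T.functor.IsTriangulated] [T.functor.Additive]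
  [T.functor.Linear k]

theorem opF : Op k T.functor.obj where
  tri := by
    rintro A B D ⟨f, g, h, hT⟩
    exact Tri.of_mem (T.functor.map_distinguished _ hT)
  iso := fun ⟨e⟩ => ⟨T.functor.mapIso e⟩
  shift A n := ⟨(T.functor.commShiftIso n).app A⟩
  zero := fun h => T.functor.map_isZero h
  hom A B := ⟨eqvLin k T A B⟩

theorem opI : Op k T.inverse.obj := by
  letI : T.inverse.CommShift ℤ := T.commShiftInverse ℤ
  haveI : T.CommShift ℤ := T.commShift_of_functor ℤ
  haveI : T.inverse.IsTriangulated := T.toAdjunction.isTriangulated_rightAdjoint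
  haveI : T.inverse.Additive := T.inverse_additive
  refine ⟨?_, ?_, ?_, ?_, ?_⟩
  · rintro A B D ⟨f, g, h, hT⟩
    exact Tri.of_mem (T.inverse.map_distinguished _ hT)
  · exact fun ⟨e⟩ => ⟨T.inverse.mapIso e⟩
  · exact fun A n => ⟨(T.inverse.commShiftIso n).app A⟩
  · exact fun h => T.inverse.map_isZero h
  · exact fun A B => ⟨((eqvLin k T (T.inverse.obj A) (T.inverse.obj B)).trans
      (isoLin k (T.counitIso.app A) (T.counitIso.app B))).symm⟩

theorem Plus.minus [IsTriangulated C] {i : I} (hp : Plus k S i T.functor.obj) :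
    Minus k S i T.inverse.obj := by
  have hf := opF (k := k) T
  have hg := opI (k := k) T
  have hself : Nonempty (T.inverse.obj (S i) ≅ (S i)⟦(1 : ℤ)⟧) := by
    obtain ⟨e⟩ := hp.self
    obtain ⟨e1⟩ := hf.shift (S i) 1
    have e2 : T.functor.obj ((S i)⟦(1 : ℤ)⟧) ≅ S i :=
      e1 ≪≫ (shiftFunctor C (1 : ℤ)).mapIso e ≪≫ shz (S i) (by norm_num)
    exact ⟨T.inverse.mapIso e2.symm ≪≫ (T.unitIso.app ((S i)⟦(1 : ℤ)⟧)).symm⟩
  refine ⟨hself, fun j hj => ?_⟩
  obtain ⟨V, hV1, hV2⟩ := hp.other j hj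
  have h1 : Tri (T.inverse.obj (S j)) (S j) (T.inverse.obj V) :=
    (hg.tri hV2).iso (Iso.refl _) (T.unitIso.app (S j)).symm (Iso.refl _)
  have h2 : ∀ (V : C) (n : ℕ), Pw (S i) V n → Pw ((S i)⟦(1 : ℤ)⟧) (T.inverse.obj V) n := by
    intro V n h
    obtain ⟨e⟩ := hself
    induction h with
    | zero M hM => exact Pw.zero _ (hg.zero hM)
    | ext M' M n _ h2 ih => exact Pw.ext _ _ _ ih ((hg.tri h2).iso (Iso.refl _) (Iso.refl _) e)
  exact ⟨(T.inverse.obj V)⟦(-1 : ℤ)⟧, ((h2 V _ hV1).shift (-1)).base (shz (S i) (by norm_num)),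
    h1.invRot⟩

theorem Conf.permTw (hS : Conf k S) [IsTriangulated C] {i : I} (hT : IsTwist k (S i) T) :
    PermTw k S i (isoPerm T) where
  ex := ⟨T.functor.obj, T.inverse.obj, opF T, hS.plus hT, opI T, (hS.plus hT).minus T,
    fun F => rfl, fun F => rfl⟩

/-- Twists along two orthogonal objects commute on isomorphism classes. -/
theorem Conf.comm (hS : Conf k S) [IsTriangulated C] {i j : I} (hij : i ≠ j)
    (he : ee k S i j = 0) {T T' : C ≌ C} [T.functor.CommShift ℤ] [T.functor.IsTriangulated]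
    [T.functor.Additive] [T.functor.Linear k]
    (hT : IsTwist k (S i) T) (hT' : IsTwist k (S j) T') (F : C) :
    Nonempty (T.functor.obj (T'.functor.obj F) ≅ T'.functor.obj (T.functor.obj F)) := by
  obtain ⟨W, ev, g, h, hev, hTr⟩ := hT' F
  obtain ⟨W', ev', g', h', hev', hTr'⟩ := hT' (T.functor.obj F)
  -- `T (S j) ≅ S j`
  have e : Nonempty (T.functor.obj (S j) ≅ S j) := by
    obtain ⟨V, hV1, hV2⟩ := (hS.plus hT).other j (Ne.symm hij)
    rw [he] at hV1
    have hV : IsZero V := by cases hV1; assumption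
    obtain ⟨e⟩ := hV2.iso_of_zero_right hV
    exact ⟨e.symm⟩
  obtain ⟨e⟩ := e
  have h1 := (hev.map T).iso_left e
  obtain ⟨a, ha⟩ := h1.unique hev'
  have h2 := T.functor.map_distinguished _ hTr
  exact cone_unique h2 hTr' a ha

end Pool.Agent.H749
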