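import Pool.Agent.H749.Pow

set_option autoImplicit false
set_option linter.unusedSectionVars false
set_option linter.unusedVariables false

open CategoryTheory CategoryTheory.Limits CategoryTheory.Pretriangulated
open scoped ZeroObject

namespace Pool.Agent.H749

universe v u w t

variable {C : Type u} [Category.{v} C] [Preadditive C] [HasZeroObject C] [HasShift C ℤ]
  [∀ n : ℤ, (shiftFunctor C n).Additive] [Pretriangulated C]
variable {k : Type w} [Field k] [Linear k C] [∀ n : ℤ, (shiftFunctor C n).Linear k]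
variable {I : Type t} {S : I → C}

/-- all morphisms `X⟦a⟧ ⟶ Y⟦b⟧` vanish as soon as all morphisms `X ⟶ Y⟦c⟧` do, `a + c = b` -/
theorem zero_shift (k : Type w) [Field k] [Linear k C] [∀ n : ℤ, (shiftFunctor C n).Linear k]
    (X Y : C) {a b c : ℤ} (h : a + c = b) (hz : ∀ f : X ⟶ Y⟦c⟧, f = 0)
    (g : X⟦a⟧ ⟶ Y⟦b⟧) : g = 0 :=
  zero_of_equiv (k := k) ⟨shLin k X Y h⟩ hz g

theorem Fil.from_zero' {M X : C} {m : I →₀ ℕ} (hM : Fil S M m) (q : ℤ)
    (h : ∀ j (f : (S j)⟦q⟧ ⟶ X), f = 0) (f : M⟦q⟧ ⟶ X) : f = 0 := by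
  induction hM with
  | zero M hM => exact ((shiftFunctor C q).map_isZero hM).eq_of_src _ _
  | ext M' M j n h1 h2 ih => exact (h2.shift q).from_mid ih (h j) f

theorem Tow.from_zero {i : I} {b : ℤ} {F : C} {n : I →₀ ℕ} {s t : ℕ} (h : Tow k S i b F n s t)
    (q : ℤ) (X : C) (hX : ∀ l, ∀ c : ℤ, c ≤ b → ∀ f : (S l)⟦-c + q⟧ ⟶ X, f = 0) (f : F⟦q⟧ ⟶ X) :
    f = 0 := by
  induction h with
  | nil b F hF => exact ((shiftFunctor C q).map_isZero hF).eq_of_src _ _
  | cons b F' F M n m s t h1 h2 h3 ih =>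
    refine (h3.shift q).from_mid (ih (fun l c hc => hX l c (by omega))) (fun g => ?_) f
    have h4 : ∀ g : M⟦-b + q⟧ ⟶ X, g = 0 := h2.from_zero' (-b + q) (fun j => hX j b (le_refl b))
    have e : M⟦-b⟧⟦q⟧ ≅ M⟦-b + q⟧ := sha M rfl
    rw [← cancel_epi e.inv, h4 (e.inv ≫ g), comp_zero]

variable (hS : Conf k S)

include hS

/-- vanishing of morphisms from a tower to a higher part of the heart -/
theorem Conf.tow_van {i : I} {b : ℤ} {F : C} {n : I →₀ ℕ} {s t : ℕ} (h : Tow k S i b F n s t)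
    {M : C} {m : I →₀ ℕ} (hM : Fil S M m) (q p : ℤ) (hp : p + b < q) (f : F⟦q⟧ ⟶ M⟦p⟧) :
    f = 0 := by
  refine h.from_zero q _ (fun l c hc g => ?_) f
  refine zero_shift k (S l) M (a := -c + q) (b := p) (c := p + c - q) (by ring) (fun g => ?_) g
  exact hS.fil_neg l hM _ (by omega) g

theorem Conf.tow_zero {i : I} {b : ℤ} {F : C} {n : I →₀ ℕ} {s t : ℕ} (h : Tow k S i b F n s t)
    (hF : IsZero F) : n = 0 := by
  induction h with
  | nil b F _ => rfl
  | cons b F' F M n m s t h1 h2 h3 ih =>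
    obtain ⟨e⟩ := h3.invRot.iso_of_zero_right hF
    have e1 : F' ≅ F'⟦(0 : ℤ)⟧ := (sh0 F').symm
    have e2 : M⟦-b⟧⟦(-1 : ℤ)⟧ ≅ M⟦-b - 1⟧ := sha M (by ring)
    have h4 : e1.inv ≫ e.inv ≫ e2.hom = 0 :=
      hS.tow_van h1 h2 0 (-b - 1) (by omega) _
    have h5 : e.inv = 0 := by
      rw [← cancel_mono e2.hom, ← cancel_epi e1.inv, h4, zero_comp, comp_zero]
    have hz1 : IsZero F' := by
      rw [IsZero.iff_id_eq_zero, ← e.inv_hom_id, h5, zero_comp]
    have hz2 : IsZero (M⟦-b⟧⟦(-1 : ℤ)⟧) := by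
      rw [IsZero.iff_id_eq_zero, ← e.hom_inv_id, h5, comp_zero]
    have hz3 : IsZero M := by
      have hz4 : IsZero (M⟦-b⟧⟦(-1 : ℤ)⟧⟦(1 : ℤ)⟧⟦b⟧) :=
        (shiftFunctor C b).map_isZero ((shiftFunctor C (1 : ℤ)).map_isZero hz2)
      exact hz4.of_iso ((shiftFunctor C b).mapIso (shz (M⟦-b⟧) (by norm_num)) ≪≫
        shz M (by ring)).symm
    rw [ih hz1, hS.fil_zero h2 hz3, add_zero]

/-- A tower of a shift of `S j` has the multiplicities of `S j`. -/
theorem Conf.tow_simple {i : I} {b : ℤ} {F : C} {n : I →₀ ℕ} {s t : ℕ}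
    (h : Tow k S i b F n s t) {j : I} {q : ℤ} (e : F ≅ (S j)⟦q⟧) : n = Finsupp.single j 1 := by
  have hSj : ∀ q : ℤ, ¬ IsZero ((S j)⟦q⟧) := by
    intro q hz
    exact (hS.sph j).not_isZero k (((shiftFunctor C (-q)).map_isZero hz).of_iso
      (shz (S j) (by ring)).symm)
  induction h with
  | nil b F hF => exact absurd (hF.of_iso e.symm) (hSj q)
  | cons b F' F M n m s t h1 h2 h3 ih =>
    by_cases hM : IsZero M
    · obtain ⟨e'⟩ := h3.iso_of_zero_right ((shiftFunctor C (-b)).map_isZero hM)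
      rw [hS.fil_zero h2 hM, add_zero]
      exact ih (e' ≪≫ e)
    · have hMb : ¬ IsZero (M⟦-b⟧) := fun hz => hM
        (((shiftFunctor C b).map_isZero hz).of_iso (shz M (by ring)).symm)
      have h4 : Tri F' ((S j)⟦q⟧) (M⟦-b⟧) := h3.iso (Iso.refl _) e (Iso.refl _)
      obtain ⟨f, g, h, hT⟩ := h4
      have hvan : ∀ r : F'⟦(1 : ℤ)⟧ ⟶ M⟦-b⟧, r = 0 :=
        hS.tow_van h1 h2 1 (-b) (by omega)
      by_cases hq : -b < q
      · exfalso
        have hg : g = 0 := by
          refine zero_shift k (S j) M (a := q) (b := -b) (c := -b - q) (by ring) (fun g => ?_) g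
          exact hS.fil_neg j h2 _ (by omega) g
        subst hg
        obtain ⟨r, hr⟩ := Triangle.yoneda_exact₃ _ hT (𝟙 (M⟦-b⟧)) zero_comp
        rw [show r = 0 from hvan r, comp_zero] at hr
        exact hMb ((IsZero.iff_id_eq_zero _).2 hr)
      · have hf : f = 0 := by
          have h5 : ∀ f' : F'⟦(0 : ℤ)⟧ ⟶ (S j)⟦q⟧, f' = 0 := by
            intro f'
            refine h1.from_zero 0 _ (fun l c hc g => ?_) f'
            refine zero_shift k (S l) (S j) (a := -c + 0) (b := q) (c := q + c) (by ring)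
              (fun g => ?_) g
            exact hS.neg l j _ (by omega) g
          rw [← cancel_epi (sh0 F').hom, h5 ((sh0 F').hom ≫ f), comp_zero]
        subst hf
        obtain ⟨r, hr⟩ := Triangle.yoneda_exact₂ _ hT (𝟙 ((S j)⟦q⟧)) zero_comp
        have hqb : q = -b := by
          by_contra hne
          have hr0 : r = 0 := by
            have h6 : ∀ g : M⟦-b⟧ ⟶ (S j)⟦q⟧, g = 0 := by
              intro g
              refine zero_shift k M (S j) (a := -b) (b := q) (c := q + b) (by ring)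
                (fun g => ?_) g
              exact hS.fil_neg' j h2 _ (by omega) g
            exact h6 r
          rw [hr0, comp_zero] at hr
          exact hSj q ((IsZero.iff_id_eq_zero _).2 hr)
        obtain ⟨r', hr'⟩ := Triangle.coyoneda_exact₁ _ hT (𝟙 (F'⟦(1 : ℤ)⟧)) (by
          change 𝟙 _ ≫ (0 : F' ⟶ (S j)⟦q⟧)⟦(1 : ℤ)⟧' = 0
          rw [Functor.map_zero, comp_zero])
        rw [show r' = 0 from hvan r', zero_comp] at hr'
        have hz1 : IsZero (F'⟦(1 : ℤ)⟧) := (IsZero.iff_id_eq_zero _).2 hr'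
        have hz2 : IsZero F' :=
          ((shiftFunctor C (-1 : ℤ)).map_isZero hz1).of_iso (shz F' (by norm_num)).symm
        have hiso : IsIso g := (Triangle.isZero₁_iff_isIso₂ _ hT).1 hz2
        have e1 : (S j)⟦q⟧ ≅ M⟦-b⟧ := @asIso _ _ _ _ g hiso
        have e2 : M ≅ S j :=
          (shz M (show -b + b = 0 by ring)).symm ≪≫ (shiftFunctor C b).mapIso e1.symm ≪≫
            shz (S j) (show q + b = 0 by omega)
        rw [hS.tow_zero h1 hz2, hS.fil_simple h2 e2, zero_add]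

end Pool.Agent.H749
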