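import Pool.Agent.H749.Uniq

set_option autoImplicit false
set_option linter.unusedSectionVars false
set_option linter.unusedVariables false

namespace Pool.Agent.H749

universe t

variable {I : Type t} (c : I → I → Prop)

/-- The defining relators of the right-angled Artin group in which `i` and `j` commute when
`c i j` holds. -/
def relators : Set (FreeGroup I) :=
  {x | ∃ i j, i ≠ j ∧ c i j ∧ 
    x = FreeGroup.of i * FreeGroup.of j * (FreeGroup.of i)⁻¹ * (FreeGroup.of j)⁻¹}

/-- The element of the free group given by a list of syllables. -/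
def wd (L : List (I × ℤ)) : FreeGroup I := (L.map fun x => FreeGroup.of x.1 ^ x.2).prod

theorem wd_cons (x : I × ℤ) (L : List (I × ℤ)) : wd (x :: L) = FreeGroup.of x.1 ^ x.2 * wd L := by
  simp [wd]

theorem wd_append (L M : List (I × ℤ)) : wd (L ++ M) = wd L * wd M := by
  simp [wd]

/-- The list of syllables is reduced. -/
def Red : List (I × ℤ) → Prop
  | [] => True
  | (i, κ) :: L => κ ≠ 0 ∧ Red L ∧
      ¬ ∃ (A : List (I × ℤ)) (κ' : ℤ) (B : List (I × ℤ)), L = A ++ (i, κ') :: B ∧
        ∀ x ∈ A, x.1 ≠ i ∧ c i x.1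

theorem exists_wd (w : FreeGroup I) : ∃ L : List (I × ℤ), wd L = w := by
  induction w using FreeGroup.induction_on with
  | C1 => exact ⟨[], rfl⟩
  | of i => exact ⟨[(i, 1)], by simp [wd]⟩
  | inv_of i _ => exact ⟨[(i, -1)], by simp [wd]⟩
  | mul x y hx hy =>
    obtain ⟨L, rfl⟩ := hx
    obtain ⟨M, rfl⟩ := hy
    exact ⟨L ++ M, wd_append L M⟩

variable {c}

theorem comm_mod {i j : I} (h : i ≠ j → c i j) :
    Commute (QuotientGroup.mk' (Subgroup.normalClosure (relators c)) (FreeGroup.of i))
      (QuotientGroup.mk' (Subgroup.normalClosure (relators c)) (FreeGroup.of j)) := by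
  by_cases hij : i = j
  · subst hij; exact Commute.refl _
  · have h1 : FreeGroup.of i * FreeGroup.of j * (FreeGroup.of i)⁻¹ * (FreeGroup.of j)⁻¹ ∈
        (QuotientGroup.mk' (Subgroup.normalClosure (relators c))).ker := by
      rw [QuotientGroup.ker_mk']
      exact Subgroup.subset_normalClosure ⟨i, j, hij, h hij, rfl⟩
    rw [MonoidHom.mem_ker, map_mul, map_mul, map_mul, map_inv, map_inv, mul_inv_eq_one,
      mul_inv_eq_iff_eq_mul] at h1
    exact h1

theorem comm_mod_wd {i : I} {A : List (I × ℤ)} (h : ∀ x ∈ A, x.1 ≠ i ∧ c i x.1) :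
    Commute (QuotientGroup.mk' (Subgroup.normalClosure (relators c)) (FreeGroup.of i))
      (QuotientGroup.mk' (Subgroup.normalClosure (relators c)) (wd A)) := by
  induction A with
  | nil => simp [wd]
  | cons x A ih =>
    rw [wd_cons, map_mul, map_zpow]
    refine Commute.mul_right (Commute.zpow_right ?_ _) (ih fun y hy => h y (by simp [hy]))
    exact comm_mod fun _ => (h x (by simp)).2

theorem exists_red (n : ℕ) : ∀ L : List (I × ℤ), L.length ≤ n → ∃ L' : List (I × ℤ), Red c L' ∧
    L'.length ≤ L.length ∧ QuotientGroup.mk' (Subgroup.normalClosure (relators c)) (wd L') =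
      QuotientGroup.mk' (Subgroup.normalClosure (relators c)) (wd L) := by
  induction n with
  | zero =>
    intro L hL
    have : L = [] := List.length_eq_zero_iff.1 (by omega)
    subst this
    exact ⟨[], trivial, le_refl _, rfl⟩
  | succ n ih =>
    intro L hL
    match L with
    | [] => exact ⟨[], trivial, le_refl _, rfl⟩
    | (i, κ) :: L₀ =>
      rw [List.length_cons] at hL
      obtain ⟨L₁, hr, hl, hw⟩ := ih L₀ (by omega)
      by_cases hκ : κ = 0
      · subst hκ
        refine ⟨L₁, hr, by rw [List.length_cons]; omega, ?_⟩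
        rw [hw, wd_cons]
        simp
      · by_cases hbad : ∃ (A : List (I × ℤ)) (κ' : ℤ) (B : List (I × ℤ)),
            L₁ = A ++ (i, κ') :: B ∧ ∀ x ∈ A, x.1 ≠ i ∧ c i x.1
        · obtain ⟨A, κ', B, rfl, hA⟩ := hbad
          have hlen : (A ++ (i, κ + κ') :: B).length = (A ++ (i, κ') :: B).length := by simp
          obtain ⟨L₂, hr₂, hl₂, hw₂⟩ := ih (A ++ (i, κ + κ') :: B) (by omega)
          refine ⟨L₂, hr₂, by rw [List.length_cons]; omega, ?_⟩
          rw [hw₂, wd_cons, map_mul, ← hw, ← map_mul]
          have hc := (comm_mod_wd hA).zpow_left κ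
          simp only [wd_append, wd_cons, map_mul, map_zpow, zpow_add]
          rw [← mul_assoc, ← mul_assoc, ← mul_assoc, hc.eq, ← mul_assoc]
        · refine ⟨(i, κ) :: L₁, ⟨hκ, hr, hbad⟩, by simpa using hl, ?_⟩
          rw [wd_cons, wd_cons, map_mul, map_mul, hw]

/-- Every element is congruent to a reduced word. -/
theorem exists_red' (w : FreeGroup I) : ∃ L : List (I × ℤ), Red c L ∧
    QuotientGroup.mk' (Subgroup.normalClosure (relators c)) (wd L) =
      QuotientGroup.mk' (Subgroup.normalClosure (relators c)) w := by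
  obtain ⟨L, rfl⟩ := exists_wd w
  obtain ⟨L', h1, -, h2⟩ := exists_red L.length L le_rfl
  exact ⟨L', h1, h2⟩

/-- A homomorphism killing the relators takes congruent elements to the same value. -/
theorem hom_congr {G : Type*} [Group G] (f : FreeGroup I →* G) (hf : ∀ x ∈ relators c, f x = 1)
    {v w : FreeGroup I} (h : QuotientGroup.mk' (Subgroup.normalClosure (relators c)) v =
      QuotientGroup.mk' (Subgroup.normalClosure (relators c)) w) : f v = f w := by
  have h1 : Subgroup.normalClosure (relators c) ≤ f.ker := by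
    refine Subgroup.normalClosure_le_normal fun x hx => ?_
    exact hf x hx
  have h2 : v⁻¹ * w ∈ Subgroup.normalClosure (relators c) := by
    rw [← QuotientGroup.eq]
    exact h
  have h3 := h1 h2
  rw [MonoidHom.mem_ker, map_mul, map_inv, inv_mul_eq_one] at h3
  exact h3

end Pool.Agent.H749
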